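import Pool.Agent.Sym.ZFTools

/-!
# The symmetric submodel satisfies ZF
-/

namespace Pool.Agent.Sym

open Pool.Agent.BVM

section

variable {B : Type} [CompleteBooleanAlgebra B] (S : Sys B)

theorem zf_ext (F : UF B) (x y : SMod S F) (h : ∀ z, SE S F z x ↔ SE S F z y) : x = y := by
  have := sat_of_HN S (onTS S ℕ) (.imp (.all (.iff (.mem 0 1) (.mem 0 2))) (.eq 0 1))
    (fun w F => by
      rw [los, valS_imp, F.himp_iff, valS_all]
      intro h
      refine F.mono (ext_leS S (w 0).mh (w 1).mh) ?_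
      exact h) F (cons x fun _ => y)
  exact this h

theorem zf_found (F : UF B) (x : SMod S F) (h : ∃ y, SE S F y x) :
    ∃ y, SE S F y x ∧ ∀ z, SE S F z y → ¬ SE S F z x := by
  obtain ⟨y, hy⟩ := h
  have := sat_of_HN S (onTS S ℕ) (.imp (.mem 1 0) (.ex (.and (.mem 0 1)
    (.all (.imp (.mem 0 1) (.neg (.mem 0 2)))))))
    (fun w F => by
      rw [los, valS_imp, F.himp_iff, valS_ex]
      intro h
      refine F.mono ?_ (F.mono (found_leS S (w 0).1 (w 1).1 (w 1).2) h)
      refine iSup_mono fun z => inf_le_inf_left _ ?_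
      have e := valS_all S (.imp (.mem 0 1) (.neg (.mem 0 2))) (cons z w)
      rw [show valR S (.all (.imp (.mem 0 1) (.neg (.mem 0 2)))) (fun i => (cons z w i).1) = _
        from e]
      exact le_rfl) F (cons x fun _ => y)
  exact this hy

theorem zf_pair (F : UF B) (x y : SMod S F) : ∃ z, ∀ t, SE S F t z ↔ (t = x ∨ t = y) := by
  have := sat_of_HN S (onTS S ℕ) (.ex (.all (.iff (.mem 0 1) (.or (.eq 0 2) (.eq 0 3)))))
    (fun w F => by
      rw [los, valS_ex]
      refine F.mono (le_iSup_of_le ⟨pr2 (w 0).1 (w 1).1, hs_pr2 S (w 0) (w 1)⟩ ?_) F.top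
      rw [valS_all]
      refine le_iInf fun z => ?_
      rw [valS_iff, valS_mem, valS_or, valS_eq, valS_eq]
      show ⊤ ≤ (memv z.1 (pr2 (w 0).1 (w 1).1) ⇨ (eqv z.1 (w 0).1 ⊔ eqv z.1 (w 1).1)) ⊓
        ((eqv z.1 (w 0).1 ⊔ eqv z.1 (w 1).1) ⇨ memv z.1 (pr2 (w 0).1 (w 1).1))
      rw [memv_pr2, himp_self, inf_top_eq]) F (cons x fun _ => y)
  exact this

theorem zf_union (F : UF B) (x : SMod S F) :
    ∃ u, ∀ t, SE S F t u ↔ ∃ y, SE S F y x ∧ SE S F t y := by
  have := sat_of_HN S (onTS S ℕ) (.ex (.all (.iff (.mem 0 1) (.ex (.and (.mem 0 3) (.mem 1 0))))))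
    (fun w F => by
      rw [los, valS_ex]
      obtain ⟨u, hu⟩ := exists_unionS S (w 0)
      refine F.mono (le_iSup_of_le u ?_) F.top
      rw [valS_all]
      refine le_iInf fun z => ?_
      rw [valS_iff, valS_mem, valS_ex]
      show ⊤ ≤ (memv z.1 u.1 ⇨ ⨆ y : HN S, memv y.1 (w 0).1 ⊓ memv z.1 y.1) ⊓
        ((⨆ y : HN S, memv y.1 (w 0).1 ⊓ memv z.1 y.1) ⇨ memv z.1 u.1)
      rw [bexS S (Congr.mem_left z.1) (w 0).mh, hu, himp_self, inf_top_eq]) F (fun _ => x)
  exact this

theorem zf_power (F : UF B) (x : SMod S F) :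
    ∃ p, ∀ t, SE S F t p ↔ ∀ z, SE S F z t → SE S F z x := by
  have := sat_of_HN S (onTS S ℕ) (.ex (.all (.iff (.mem 0 1) (.all (.imp (.mem 0 1) (.mem 0 3))))))
    (fun w F => by
      rw [los, valS_ex]
      obtain ⟨u, hu⟩ := exists_powerS S (w 0)
      refine F.mono (le_iSup_of_le u ?_) F.top
      rw [valS_all]
      refine le_iInf fun z => ?_
      rw [valS_iff, valS_mem, valS_all]
      show ⊤ ≤ (memv z.1 u.1 ⇨ ⨅ y : HN S, memv y.1 z.1 ⇨ memv y.1 (w 0).1) ⊓
        ((⨅ y : HN S, memv y.1 z.1 ⇨ memv y.1 (w 0).1) ⇨ memv z.1 u.1)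
      rw [ballS S (Congr.mem_right (w 0).1) z.mh, hu, himp_self, inf_top_eq]) F (fun _ => x)
  exact this

/-- elements of the name of a well-order -/
theorem E_onT {X : Type} [LinearOrder X] [WellFoundedLT X] (φ : Fml) (v : ℕ → HN S) (c : B)
    (h : ∀ (F : UF B), F.U c → ∀ n : X, Sat (SE S F) φ (cons (of S F (onS S n))
      fun i => of S F (v i)))
    (F : UF B) (hF : F.U c) (m : SMod S F) (hm : SE S F m (of S F (onTS S X))) :
    Sat (SE S F) φ (cons m fun i => of S F (v i)) := by
  obtain ⟨x, hx, rfl⟩ := m.exists_rep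
  have e : cons (SMod.mk S F x hx) (fun i => of S F (v i)) =
      fun i => SMod.mk S F (cons x (fun i => (v i).1) i) (by
        cases i
        · exact hx
        · show F.U (hv S (v _).1)
          rw [hv_top]; exact F.top) := by
    funext i; cases i <;> rfl
  rw [e, losR]
  have h1 : c ≤ ⨅ n : X, valR S φ (cons (on n) fun i => (v i).1) := by
    refine le_iInf fun n => le_of_uf fun F' hF' => ?_
    have := h F' hF' n
    rw [cons_of, los] at this
    have e : valS S φ (cons (onS S n) v) = valR S φ (cons (on n) fun i => (v i).1) := by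
      rw [valS, cons_val]; rfl
    rwa [e] at this
  rw [← chk_ball (nm := (on : X → BSet B)) (valR_congr1 S φ _)] at h1
  have h2 := F.mono (h1.trans (iInf_le _ x)) hF
  rw [F.himp_iff] at h2
  exact h2 hm

theorem zf_infinity (F : UF B) : ∃ x, (∃ e, SE S F e x ∧ ∀ z, ¬ SE S F z e) ∧
    ∀ y, SE S F y x → ∃ s, SE S F s x ∧ ∀ z, SE S F z s ↔ (SE S F z y ∨ z = y) := by
  refine ⟨of S F (onTS S ℕ), ⟨of S F (onS S 0), ?_, ?_⟩, ?_⟩
  · show F.U (memv (on 0) (onT ℕ))
    rw [memv_on_onT]
    exact F.top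
  · rintro ⟨m, x, rfl, hx⟩ hz
    apply F.bot
    have : F.U (memv x (on 0)) := hz
    rwa [memv_on_zero] at this
  · intro y hy
    exact E_onT S (X := ℕ) (.ex (.and (.mem 0 2)
      (.all (.iff (.mem 0 1) (.or (.mem 0 2) (.eq 0 2)))))) (fun _ => onTS S ℕ) ⊤
      (fun F _ n => by
        refine ⟨of S F (onS S (n + 1)), ?_, ?_⟩
        · show F.U (memv (on (n + 1)) (onT ℕ))
          rw [memv_on_onT]
          exact F.top
        · rintro ⟨m, x, rfl, hx⟩
          show F.U (memv x (on (n + 1))) ↔ (F.U (memv x (on n)) ∨ _)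
          rw [memv_on_succ, F.sup_iff]
          refine or_congr Iff.rfl ?_
          exact (Subtype.ext_iff.trans BVM.Mod.mk_eq).symm) F F.top y hy

theorem zf_sep (F : UF B) (φ : Fml) (v : ℕ → SMod S F) (x : SMod S F) :
    ∃ y, ∀ z, SE S F z y ↔ (SE S F z x ∧ Sat (SE S F) φ (cons z v)) := by
  have := sat_of_HN S (onTS S ℕ) (.ex (.all (.iff (.mem 0 1) (.and (.mem 0 2)
    (ren (fun n => Nat.casesOn n 0 fun m => m + 3) φ)))))
    (fun w F => by
      obtain ⟨y, hy⟩ := exists_sepS S (fun z => valR S φ (cons z fun i => (w (i + 1)).1))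
        (valR_congr1 S φ _) (exists_supp1 S φ fun i => w (i + 1)) (w 0)
      refine ⟨of S F y, fun m => ?_⟩
      rw [cons_of]
      refine forall_of S _ (cons y w) ⊤ (fun z F _ => ?_) F F.top m
      show SE S F (of S F z) (of S F y) ↔ SE S F (of S F z) (of S F (w 0)) ∧ _
      have e : Sat (SE S F) (ren (fun n => Nat.casesOn n 0 fun m => m + 3) φ)
          (cons (of S F z) fun i => of S F (cons y w i)) ↔
          F.U (valR S φ (cons z.1 fun i => (w (i + 1)).1)) := by
        rw [sat_ren]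
        have e1 : (fun i => cons (of S F z) (fun i => of S F (cons y w i))
            (Nat.casesOn i 0 fun m => m + 3)) =
            fun i => of S F (cons z (fun i => w (i + 1)) i) := by
          funext i; cases i <;> rfl
        rw [e1, los]
        show F.U (valR S φ fun i => (cons z (fun i => w (i + 1)) i).1) ↔ _
        rw [cons_val]
      rw [e]
      show F.U (memv z.1 y.1) ↔ _
      rw [hy, F.inf_iff]
      rfl) F (cons x v)
  obtain ⟨y, hy⟩ := this
  refine ⟨y, fun z => ?_⟩
  have := hy z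
  refine this.trans (and_congr Iff.rfl ?_)
  rw [sat_ren]
  have e1 : (fun i => cons z (cons y (cons x v)) (Nat.casesOn i 0 fun m => m + 3)) =
      cons z v := by
    funext i; cases i <;> rfl
  rw [e1]

theorem zf_coll (F : UF B) (φ : Fml) (v : ℕ → SMod S F) (x : SMod S F) :
    ∃ y, ∀ a, SE S F a x → (∃ b, Sat (SE S F) φ (cons b (cons a v))) →
      ∃ b, SE S F b y ∧ Sat (SE S F) φ (cons b (cons a v)) := by
  have := sat_of_HN S (onTS S ℕ) (.ex (.all (.imp (.mem 0 2) (.imp
    (.ex (ren (fun n => Nat.casesOn n 0 fun n => Nat.casesOn n 1 fun m => m + 4) φ))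
    (.ex (.and (.mem 0 2)
      (ren (fun n => Nat.casesOn n 0 fun n => Nat.casesOn n 1 fun m => m + 4) φ)))))))
    (fun w F => by
      obtain ⟨y, hy⟩ := exists_collS S
        (fun a b => valR S φ (cons b (cons a fun i => (w (i + 1)).1)))
        (fun z => valR_congr2 S φ _ z) (w 0)
      refine ⟨of S F y, fun m => ?_⟩
      rw [cons_of]
      refine forall_of S _ (cons y w) ⊤ (fun a F _ => ?_) F F.top m
      -- the instance
      have e1 : ∀ b : HN S, valS S
          (ren (fun n => Nat.casesOn n 0 fun n => Nat.casesOn n 1 fun m => m + 4) φ)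
          (cons b (cons a (cons y w))) =
          valR S φ (cons b.1 (cons a.1 fun i => (w (i + 1)).1)) := by
        intro b
        refine eq_of_uf fun F => ?_
        rw [← los, sat_ren]
        have e2 : (fun i => of S F (cons b (cons a (cons y w))
            (Nat.casesOn i 0 fun n => Nat.casesOn n 1 fun m => m + 4))) =
            fun i => of S F (cons b (cons a fun i => w (i + 1)) i) := by
          funext i
          rcases i with _ | _ | i <;> rfl
        rw [e2, los]
        show F.U (valR S φ fun i => (cons b (cons a fun i => w (i + 1)) i).1) ↔ _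
        rw [cons_val, cons_val]
      rw [cons_of, los, valS_imp, valS_imp, F.himp_iff, F.himp_iff, valS_ex, valS_ex]
      intro h1 h2
      simp only [e1] at h2
      have h3 : ∀ b : HN S, valS S (.and (.mem 0 2)
          (ren (fun n => Nat.casesOn n 0 fun n => Nat.casesOn n 1 fun m => m + 4) φ))
          (cons b (cons a (cons y w))) = memv b.1 y.1 ⊓
          valR S φ (cons b.1 (cons a.1 fun i => (w (i + 1)).1)) := by
        intro b
        rw [valS_and, e1]
        rfl
      simp only [h3]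
      exact F.mono (hy a) (F.inf h1 h2)) F (cons x v)
  obtain ⟨y, hy⟩ := this
  refine ⟨y, fun a ha => ?_⟩
  have h1 := hy a ha
  have e1 : ∀ b, Sat (SE S F)
      (ren (fun n => Nat.casesOn n 0 fun n => Nat.casesOn n 1 fun m => m + 4) φ)
      (cons b (cons a (cons y (cons x v)))) ↔ Sat (SE S F) φ (cons b (cons a v)) := by
    intro b
    rw [sat_ren]
    have e2 : (fun i => cons b (cons a (cons y (cons x v)))
        (Nat.casesOn i 0 fun n => Nat.casesOn n 1 fun m => m + 4)) = cons b (cons a v) := by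
      funext i
      rcases i with _ | _ | i <;> rfl
    rw [e2]
  rintro ⟨b, hb⟩
  obtain ⟨b', hb', hb''⟩ := h1 ⟨b, (e1 b).2 hb⟩
  exact ⟨b', hb', (e1 b').1 hb''⟩

theorem zf_repl (F : UF B) (φ : Fml) (v : ℕ → SMod S F) (x : SMod S F)
    (h : ∀ a, SE S F a x → ∃! b, Sat (SE S F) φ (cons b (cons a v))) :
    ∃ y, ∀ b, SE S F b y ↔ ∃ a, SE S F a x ∧ Sat (SE S F) φ (cons b (cons a v)) := by
  obtain ⟨y, hy⟩ := zf_coll S F φ v x
  obtain ⟨z, hz⟩ := zf_sep S F (.ex (.and (.mem 0 2)
    (ren (fun n => Nat.casesOn n 1 fun n => Nat.casesOn n 0 fun m => m + 3) φ))) (cons x v) y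
  have e1 : ∀ a b, Sat (SE S F)
      (ren (fun n => Nat.casesOn n 1 fun n => Nat.casesOn n 0 fun m => m + 3) φ)
      (cons a (cons b (cons x v))) ↔ Sat (SE S F) φ (cons b (cons a v)) := by
    intro a b
    rw [sat_ren]
    have e2 : (fun i => cons a (cons b (cons x v))
        (Nat.casesOn i 1 fun n => Nat.casesOn n 0 fun m => m + 3)) = cons b (cons a v) := by
      funext i
      rcases i with _ | _ | i <;> rfl
    rw [e2]
  refine ⟨z, fun b => (hz b).trans ⟨?_, ?_⟩⟩
  · rintro ⟨_, a, ha, hb⟩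
    exact ⟨a, ha, (e1 a b).1 hb⟩
  · rintro ⟨a, ha, hb⟩
    refine ⟨?_, a, ha, (e1 a b).2 hb⟩
    obtain ⟨b', hb', hb''⟩ := hy a ha ⟨b, hb⟩
    rwa [(h a ha).unique hb hb'']

/-- the symmetric submodel is a model of ZF -/
theorem zf (F : UF B) : ZF (SE S F) where
  ext := zf_ext S F
  found := zf_found S F
  pair := zf_pair S F
  union := zf_union S F
  power := zf_power S F
  infinity := zf_infinity S F
  sep := zf_sep S F
  repl := zf_repl S F

end

end Pool.Agent.Sym
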