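import Pool.Agent.Sym.NAS3

/-!
# There are no amorphous sets in the symmetric submodels: conclusion
-/

namespace Pool.Agent.Sym

open Pool.Agent.BVM Pool.Agent.Forcing Pool.Agent.NSC

theorem not_am {X : HN CS} {p : Cond} (hXp : Am p X) : False := by
  classical
  obtain ⟨C, _⟩ := exists_ctx hXp
  have hex := C.exists_small
  have hmin : ∀ m < Nat.find hex, ¬ C.Small m := fun m hm => Nat.find_min hex hm
  obtain ⟨q, E₃, Q, hqon, hqq, hT, sQ, hs⟩ := Nat.find_spec hex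
  generalize Nat.find hex = n at hmin hs
  obtain ⟨S, c, hS, fc, inf, ref, hn⟩ := exists_normal (E₃.S ∪ C.S₀) E₃.c C.c₀ E₃.fin C.f₀ C.i₀
  have hsub : C.S₀ ⊆ S := fun t ht => hS (Finset.mem_union_right _ ht)
  let D : CData := ⟨C.S₀, S, C.c₀, c, fc, hsub, ref, inf⟩
  have sQ' : Supp CS (⟨D.S₀, D.S, D.c, D.fin⟩ : Spt) Q.1 := sQ.mono CS
    (fix_le' (hT.le)
      (fun a ha s hs => ha.2.1 s (hS (Finset.mem_union_left _ hs)))
      (fun a ha e => hn a.g ha.2.1 ha.2.2 e))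
  obtain ⟨c₂, f2, ref2, H2, H3⟩ := D.exists_c2 C.f₀
  have hle2 : FixP D.S₀ c₂ ≤ FixP D.S₀ D.c₀ := fun k hk => ⟨hk.1, fun e => ref2 _ _ (hk.2 e)⟩
  -- copies
  have him : ∀ k ∈ FixP D.S₀ D.c₀, D.S₀.image k = D.S₀ := by
    intro k hk
    ext t
    rw [Finset.mem_image]
    constructor
    · rintro ⟨s, hs, rfl⟩
      rw [hk.1 s hs]; exact hs
    · intro ht
      exact ⟨t, ht, hk.1 t ht⟩
  have hsupp : ∀ k ∈ FixP D.S₀ D.c₀,
      Supp CS ((⟨D.S₀, D.S, D.c, D.fin⟩ : Spt).img k) (HN.act CS (pp k) Q).1 := fun k _ =>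
    Supp.conj CS (E := (⟨D.S₀, D.S, D.c, D.fin⟩ : Spt))
      (E' := (⟨D.S₀, D.S, D.c, D.fin⟩ : Spt).img k) (g := pp k)
      (fun h hh => Spt.img_fix _ (pp k) hh) sQ'
  have hact : ∀ k ∈ FixP D.S₀ D.c₀, ∀ b, Forc q (CS.act (pp k) b) ↔ Forc q b := fun k hk b =>
    forc_act_on (T := D.S₀) (fun t ht => ⟨hk.1 t ht, fun _ => rfl⟩) hqon
  have hE₀ : ∀ k ∈ FixP D.S₀ D.c₀, pp k ∈ (⟨C.S₀, C.S₀, C.c₀, C.f₀⟩ : Spt).fix := fun k hk =>
    ⟨fun t ht => ⟨hk.1 t ht, fun _ => rfl⟩, hk.1, hk.2⟩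
  have hval : ∀ k ∈ FixP D.S₀ D.c₀, Forc q (NE CS (HN.act CS (pp k) Q) ⊓
      (SB CS (HN.act CS (pp k) Q) C.X₁ ⊓ AM CS n (HN.act CS (pp k) Q))) := by
    intro k hk
    have e1 : SB CS (HN.act CS (pp k) Q) C.X₁ = CS.act (pp k) (SB CS Q C.X₁) := by
      rw [← SB_act]
      refine SB_congr (eqv_refl _) ?_
      rw [eqv_symm]
      exact C.sX₁ _ (hE₀ k hk)
    rw [NE_act, e1, AM_act, ← act_inf, ← act_inf, hact k hk]
    exact hs
  have hdisj : ∀ k ∈ FixP D.S₀ D.c₀, ∀ k' ∈ FixP D.S₀ D.c₀, D.GP k k' →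
      ∀ F : UF (RO Cond), F.U (pt q) →
      El CS F (HN.act CS (pp k) Q) ∩ El CS F (HN.act CS (pp k') Q) = ∅ := by
    intro k hk k' hk' hgp F hF
    refine C.eq_or_disjoint hmin (him k hk) (him k' hk') (hsupp k hk) (hsupp k' hk') hqq
      (forc_inf.1 (hval k hk)).2 (forc_inf.1 (hval k' hk')).2 (fun s hs' => ?_) hF
    exact C.copies_ne hqon hqq D rfl rfl sQ' hs hk hk' hgp hs'
  have hne : ∀ k ∈ FixP D.S₀ D.c₀, ∀ F : UF (RO Cond), F.U (pt q) →
      (El CS F (HN.act CS (pp k) Q)).Nonempty := fun k hk F hF =>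
    (NE_iff CS).1 ((forc_inf.1 (hval k hk)).1.uf hF)
  have hsubX : ∀ k ∈ FixP D.S₀ D.c₀, ∀ F : UF (RO Cond), F.U (pt q) →
      El CS F (HN.act CS (pp k) Q) ⊆ El CS F C.X := fun k hk F hF =>
    ((SB_iff CS).1 ((forc_inf.1 (forc_inf.1 (hval k hk)).2).1.uf hF)).trans (C.subX F)
  -- the union of the copies preserving `c₂`
  have hle : (⟨C.S₀, C.S₀, c₂, f2⟩ : Spt).fix ≤ (⟨C.S₀, C.S₀, C.c₀, C.f₀⟩ : Spt).fix :=
    fix_le (Finset.Subset.refl _) (Finset.Subset.refl _) ref2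
  let R : BSet (RO Cond) → RO Cond := fun t =>
    ⨆ k : {k : Equiv.Perm ℕ // k ∈ FixP D.S₀ c₂}, memv t (actN CS (pp k.1) Q.1)
  have hRle : ∀ a ∈ (⟨C.S₀, C.S₀, c₂, f2⟩ : Spt).fix, ∀ t, CS.act a (R t) ≤ R (actN CS a t) := by
    intro a ha t
    show CS.act a (⨆ k : {k : Equiv.Perm ℕ // k ∈ FixP D.S₀ c₂}, memv t (actN CS (pp k.1) Q.1)) ≤ _
    rw [act_iSup]
    refine iSup_le fun k => ?_
    have hk : a.g * k.1 ∈ FixP D.S₀ c₂ := (FixP _ _).mul_mem ⟨ha.2.1, ha.2.2⟩ k.2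
    refine le_iSup_of_le ⟨_, hk⟩ (le_of_eq ?_)
    rw [← memv_actN]
    refine Congr.eq_of (Congr.mem_left _) ?_
    show eqv (actN CS a (actN CS (pp k.1) Q.1)) (actN CS (pp (a.g * k.1)) Q.1) = ⊤
    -- the remaining flip
    have e1 : a * pp k.1 = pp (a.g * k.1) * ⟨1, fun d m => a.f (k.1 d) m⟩ := by
      refine Gp.ext ?_ ?_
      · show a.g * k.1 = a.g * k.1 * 1
        rw [mul_one]
      · funext d m
        show xor false (a.f (k.1 d) m) = xor (a.f (k.1 d) m) false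
        rw [Bool.xor_false, Bool.false_xor]
    have e2 : (⟨1, fun d m => a.f (k.1 d) m⟩ : Gp) ∈ (⟨D.S₀, D.S, D.c, D.fin⟩ : Spt).fix := by
      refine IsFlip.mem_fix ⟨rfl, fun t ht m => ?_⟩
      show a.f (k.1 t) m = false
      rw [k.2.1 t ht]
      exact (ha.1 t ht).2 m
    have e3 : actN CS a (actN CS (pp k.1) Q.1) =
        actN CS (pp (a.g * k.1)) (actN CS ⟨1, fun d m => a.f (k.1 d) m⟩ Q.1) := by
      rw [← actN_mul CS a (pp k.1), ← actN_mul CS (pp (a.g * k.1)) ⟨1, fun d m => a.f (k.1 d) m⟩]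
      exact congrArg (fun b => actN CS b Q.1) e1
    rw [e3, eqv_actN CS (pp (a.g * k.1)), sQ' _ e2, act_top]
  have hRact : ∀ a ∈ (⟨C.S₀, C.S₀, c₂, f2⟩ : Spt).fix, ∀ t, CS.act a (R t) = R (actN CS a t) := by
    intro a ha t
    refine le_antisymm (hRle a ha t) ?_
    have h1 := hRle a⁻¹ ((Spt.fix _).inv_mem ha) (actN CS a t)
    have h2 := act_mono CS (g := a) h1
    rwa [act_act_inv CS a, actN_inv_actN CS a] at h2
  have hRc : Congr R := Congr.iSup fun k => Congr.mem_right _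
  obtain ⟨U, sU, mU, eU⟩ := sepN CS R hRc (E := (⟨C.S₀, C.S₀, c₂, f2⟩ : Spt)) (C.sX.mono CS hle)
    (fun a ha t => hRact a ha t)
  obtain ⟨Z, _, eZ⟩ := exists_dif CS (E := (⟨C.S₀, C.S₀, c₂, f2⟩ : Spt)) (C.sX.mono CS hle) sU
  have hUX : Forc q (SB CS U C.X) := by
    refine forc_of_uf fun F _ => ?_
    rw [SB_iff]
    intro m hm
    obtain ⟨t, ht, rfl⟩ := m.exists_rep
    exact ((eU F t ht).1 hm).1
  obtain ⟨r, hr, h1⟩ := forc_sup.1 (C.am.spl U Z q hqq hUX fun F _ => eZ F) q le_rfl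
  rcases h1 with h1 | h1
  · -- `U` is infinite
    obtain ⟨r', hr', m, hm⟩ := exists_AM h1
    obtain ⟨π, hπ, hgp⟩ := H2 (m + 1)
    obtain ⟨F, hF⟩ := exists_uf_pt r'
    have hFq : F.U (pt q) := uf_mono (hr'.trans hr) hF
    have h2 := (AM_iff CS).1 (hm.uf hF)
    have h3 := le_encard_of_disjoint (W := El CS F U) (fun i => El CS F (HN.act CS (pp (π i)) Q))
      (fun i => hne _ (hle2 (hπ i)) F hFq)
      (fun i j hij => hdisj _ (hle2 (hπ i)) _ (hle2 (hπ j)) (hgp i j hij) F hFq)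
      (fun i x hx => by
        have hxX := hsubX _ (hle2 (hπ i)) F hFq hx
        obtain ⟨t, ht, rfl⟩ := x.exists_rep
        rw [eU]
        exact ⟨hxX, F.mono (le_iSup (fun k : {k : Equiv.Perm ℕ // k ∈ FixP D.S₀ c₂} =>
          memv t (actN CS (pp k.1) Q.1)) ⟨π i, hπ i⟩) hx⟩)
    have h4 := h3.trans h2
    have h5 : m + 1 ≤ m := by exact_mod_cast h4
    omega
  · -- the complement is infinite
    obtain ⟨r', hr', m, hm⟩ := exists_AM h1
    obtain ⟨π, hπ, hgp, hgp'⟩ := H3 (m + 1)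
    obtain ⟨F, hF⟩ := exists_uf_pt r'
    have hFq : F.U (pt q) := uf_mono (hr'.trans hr) hF
    have h2 := (AM_iff CS).1 (hm.uf hF)
    have h3 := le_encard_of_disjoint (W := El CS F Z) (fun i => El CS F (HN.act CS (pp (π i)) Q))
      (fun i => hne _ (hπ i) F hFq)
      (fun i j hij => hdisj _ (hπ i) _ (hπ j) (hgp i j hij) F hFq)
      (fun i x hx => by
        have hxX := hsubX _ (hπ i) F hFq hx
        rw [eZ]
        refine ⟨hxX, fun hxU => ?_⟩
        obtain ⟨t, ht, rfl⟩ := x.exists_rep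
        rw [eU] at hxU
        have h6 : pt q ⊓ memv t (actN CS (pp (π i)) Q.1) ≤ (R t)ᶜ := by
          show _ ≤ (⨆ k : {k : Equiv.Perm ℕ // k ∈ FixP D.S₀ c₂},
            memv t (actN CS (pp k.1) Q.1))ᶜ
          rw [compl_iSup]
          refine le_iInf fun k => le_of_uf fun G hG => ?_
          rw [G.inf_iff] at hG
          rw [G.compl_iff]
          intro h7
          have hv : G.U (hv CS t) := by
            have h5 : memv t (actN CS (pp k.1) Q.1) ≤ Sym.hv CS t := by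
              have h6 := (HN.act CS (pp k.1) Q).2
              have h8 : (HN.act CS (pp k.1) Q).1 = actN CS (pp k.1) Q.1 := rfl
              rw [h8] at h6
              generalize actN CS (pp k.1) Q.1 = y at h6
              obtain ⟨α, A, b⟩ := y
              rw [memv_mk, Sym.hv]
              exact iSup_le fun a => le_iSup_of_le ⟨A a, h6.2 a⟩ inf_le_right
            exact G.mono h5 h7
          have h8 := hdisj _ (hπ i) _ (hle2 k.2) (hgp' i k.1 k.2) G hG.1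
          have h9 : SMod.mk CS G t hv ∈ El CS G (HN.act CS (pp (π i)) Q) ∩
              El CS G (HN.act CS (pp k.1) Q) := ⟨hG.2, h7⟩
          rw [h8] at h9
          exact h9
        have h7 := F.mono h6 (F.inf hFq hx)
        rw [F.compl_iff] at h7
        exact h7 hxU.2)
    have h4 := h3.trans h2
    have h5 : m + 1 ≤ m := by exact_mod_cast h4
    omega

/-- no name is forced to be amorphous -/
theorem nas_val (X : HN CS) : valS CS (fAmor 0) (fun _ => X) = ⊥ := by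
  by_contra h
  obtain ⟨p, hp⟩ := exists_forc h
  exact not_am (am_of_val hp)

end Pool.Agent.Sym
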