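import Pool.Agent.BVM.Axioms

/-!
# Automorphisms acting on Boolean valued sets; hereditarily symmetric names
-/

namespace Pool.Agent.Sym

open Pool.Agent.BVM

/-- a symmetric system: a group of automorphisms of the algebra and a normal filter of subgroups -/
structure Sys (B : Type) [CompleteBooleanAlgebra B] where
  /-- the group -/
  G : Type
  /-- group structure -/
  [grp : Group G]
  /-- the action -/
  act : G →* (B ≃o B)
  /-- supports -/
  Sp : Type
  /-- the subgroup of a support -/
  fix : Sp → Subgroup G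
  ne : Nonempty Sp
  dir : ∀ E E', ∃ E'', fix E'' ≤ fix E ∧ fix E'' ≤ fix E'
  conj : ∀ E (g : G), ∃ E', ∀ h ∈ fix E', g⁻¹ * h * g ∈ fix E

attribute [instance] Sys.grp

section

variable {B : Type} [CompleteBooleanAlgebra B] (S : Sys B)

theorem act_mul (g h : S.G) (b : B) : S.act (g * h) b = S.act g (S.act h b) := by
  rw [map_mul]; rfl

theorem act_one (b : B) : S.act 1 b = b := by
  rw [map_one]; rfl

theorem act_inv_act (g : S.G) (b : B) : S.act g⁻¹ (S.act g b) = b := by
  rw [← act_mul, inv_mul_cancel, act_one]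

theorem act_act_inv (g : S.G) (b : B) : S.act g (S.act g⁻¹ b) = b := by
  rw [← act_mul, mul_inv_cancel, act_one]

theorem act_iInf {ι : Sort*} (g : S.G) (f : ι → B) : S.act g (⨅ i, f i) = ⨅ i, S.act g (f i) :=
  OrderIso.map_iInf _ _

theorem act_iSup {ι : Sort*} (g : S.G) (f : ι → B) : S.act g (⨆ i, f i) = ⨆ i, S.act g (f i) :=
  OrderIso.map_iSup _ _

theorem act_inf (g : S.G) (a b : B) : S.act g (a ⊓ b) = S.act g a ⊓ S.act g b :=
  OrderIso.map_inf _ _ _

theorem act_sup (g : S.G) (a b : B) : S.act g (a ⊔ b) = S.act g a ⊔ S.act g b :=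
  OrderIso.map_sup _ _ _

theorem act_compl (g : S.G) (a : B) : S.act g aᶜ = (S.act g a)ᶜ :=
  map_compl' (S.act g) a

theorem act_himp (g : S.G) (a b : B) : S.act g (a ⇨ b) = S.act g a ⇨ S.act g b := by
  rw [himp_eq, himp_eq, act_sup, act_compl]

theorem act_top (g : S.G) : S.act g ⊤ = ⊤ := OrderIso.map_top _

theorem act_bot (g : S.G) : S.act g ⊥ = ⊥ := OrderIso.map_bot _

theorem act_le {g : S.G} {a b : B} : S.act g a ≤ S.act g b ↔ a ≤ b := (S.act g).le_iff_le

theorem act_mono {g : S.G} {a b : B} (h : a ≤ b) : S.act g a ≤ S.act g b := (act_le S).2 h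

/-- action on names -/
def actN (g : S.G) : BSet B → BSet B
  | .mk α A b => .mk α (fun a => actN g (A a)) (fun a => S.act g (b a))

theorem actN_mk (g : S.G) {α : Type} (A : α → BSet B) (b : α → B) :
    actN S g (.mk α A b) = .mk α (fun a => actN S g (A a)) (fun a => S.act g (b a)) := rfl

theorem actN_mul (g h : S.G) (x : BSet B) : actN S (g * h) x = actN S g (actN S h x) := by
  induction x with
  | mk α A b ih =>
    rw [actN_mk, actN_mk, actN_mk]
    congr 1
    · funext a; exact ih a
    · funext a; exact act_mul S g h (b a)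

theorem actN_one (x : BSet B) : actN S 1 x = x := by
  induction x with
  | mk α A b ih =>
    rw [actN_mk]
    congr 1
    · funext a; exact ih a
    · funext a; exact act_one S (b a)

theorem actN_inv_actN (g : S.G) (x : BSet B) : actN S g⁻¹ (actN S g x) = x := by
  rw [← actN_mul, inv_mul_cancel, actN_one]

theorem actN_actN_inv (g : S.G) (x : BSet B) : actN S g (actN S g⁻¹ x) = x := by
  rw [← actN_mul, mul_inv_cancel, actN_one]

theorem eqv_actN (g : S.G) (x y : BSet B) : eqv (actN S g x) (actN S g y) = S.act g (eqv x y) := by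
  induction x generalizing y with
  | mk α A b ih =>
    obtain ⟨γ, C, c⟩ := y
    rw [actN_mk, actN_mk, eqv_mk, eqv_mk, act_inf, act_iInf, act_iInf]
    simp only [act_himp, act_iSup, act_inf, ih]

theorem memv_actN (g : S.G) (x y : BSet B) :
    memv (actN S g x) (actN S g y) = S.act g (memv x y) := by
  obtain ⟨γ, C, c⟩ := y
  rw [actN_mk, memv_mk, memv_mk, act_iSup]
  simp only [act_inf, eqv_actN]

/-- `x` is symmetric with support `E` -/
def Supp (E : S.Sp) (x : BSet B) : Prop := ∀ g ∈ S.fix E, eqv (actN S g x) x = ⊤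

/-- hereditarily symmetric names -/
def HS : BSet B → Prop
  | .mk α A b => (∃ E, Supp S E (.mk α A b)) ∧ ∀ a, HS (A a)

theorem HS_mk {α : Type} {A : α → BSet B} {b : α → B} :
    HS S (.mk α A b) ↔ (∃ E, Supp S E (.mk α A b)) ∧ ∀ a, HS S (A a) := Iff.rfl

theorem HS.supp {x : BSet B} (h : HS S x) : ∃ E, Supp S E x := by
  obtain ⟨α, A, b⟩ := x
  exact h.1

theorem HS.mem {α : Type} {A : α → BSet B} {b : α → B} (h : HS S (.mk α A b)) (a : α) :
    HS S (A a) := h.2 a

theorem Supp.mono {E E' : S.Sp} (h : S.fix E' ≤ S.fix E) {x : BSet B} (hx : Supp S E x) :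
    Supp S E' x := fun g hg => hx g (h hg)

theorem Supp.conj {E E' : S.Sp} {g : S.G} (h : ∀ h ∈ S.fix E', g⁻¹ * h * g ∈ S.fix E)
    {x : BSet B} (hx : Supp S E x) : Supp S E' (actN S g x) := by
  intro k hk
  have e : actN S k (actN S g x) = actN S g (actN S (g⁻¹ * k * g) x) := by
    rw [← actN_mul, ← actN_mul]
    congr 1
    group
  rw [e, eqv_actN, hx _ (h k hk), act_top]

theorem HS.actN {x : BSet B} (h : HS S x) (g : S.G) : HS S (actN S g x) := by
  induction x with
  | mk α A b ih =>
    obtain ⟨E, hE⟩ := h.1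
    obtain ⟨E', hE'⟩ := S.conj E g
    exact ⟨⟨E', Supp.conj S hE' hE⟩, fun a => ih a (h.2 a)⟩

theorem eq_top_trans {x y z : BSet B} (h : eqv x y = ⊤) (h' : eqv y z = ⊤) : eqv x z = ⊤ := by
  rw [eq_top_iff]
  refine le_trans ?_ (eqv_trans x y z)
  rw [h, h', inf_top_eq]

theorem eq_top_symm {x y : BSet B} (h : eqv x y = ⊤) : eqv y x = ⊤ := by
  rw [eqv_symm]; exact h

theorem Congr.eq_of {Q : BSet B → B} (hQ : Congr Q) {x y : BSet B} (h : eqv x y = ⊤) :
    Q x = Q y := by
  refine le_antisymm ?_ ?_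
  · have := hQ x y
    rwa [h, top_inf_eq] at this
  · have := hQ y x
    rwa [eqv_symm, h, top_inf_eq] at this

/-- extensionality for values -/
theorem eqv_top_of_memv {x y : BSet B} (h : ∀ z, memv z x = memv z y) : eqv x y = ⊤ := by
  rw [eq_top_iff]
  refine le_trans (le_iInf fun z => ?_) (ext_le x y)
  rw [h, himp_self, inf_top_eq]

theorem memv_actN_inv (g : S.G) (z y : BSet B) :
    memv z (actN S g y) = S.act g (memv (actN S g⁻¹ z) y) := by
  rw [← memv_actN, actN_actN_inv]

/-- symmetry from membership values -/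
theorem supp_of_memv {E : S.Sp} {y : BSet B}
    (h : ∀ g ∈ S.fix E, ∀ z, S.act g (memv z y) = memv (actN S g z) y) : Supp S E y := by
  intro g hg
  apply eqv_top_of_memv
  intro z
  rw [memv_actN_inv, h g hg, actN_actN_inv]

theorem Supp.memv {E : S.Sp} {y : BSet B} (h : Supp S E y) {g : S.G} (hg : g ∈ S.fix E)
    (z : BSet B) : S.act g (memv z y) = memv (actN S g z) y := by
  rw [← memv_actN]
  exact Congr.eq_of (Congr.mem_left (actN S g z)) (h g hg)

end

end Pool.Agent.Sym
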