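import Pool.Agent.Sym.ROMap
import Pool.Agent.Sym.ZF

/-!
# The symmetric system: Cohen reals indexed by columns, permutations of columns and flips
-/

namespace Pool.Agent.Sym

open Pool.Agent.BVM Pool.Agent.Forcing

theorem perm_inv_apply (g : Equiv.Perm ℕ) (x : ℕ) : g⁻¹ (g x) = x := g.symm_apply_apply x

theorem perm_apply_inv (g : Equiv.Perm ℕ) (x : ℕ) : g (g⁻¹ x) = x := g.apply_symm_apply x

/-- group elements: a permutation of the columns, together with flips -/
@[ext]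
structure Gp where
  /-- permutation of the columns -/
  g : Equiv.Perm ℕ
  /-- flips -/
  f : ℕ → ℕ → Bool

instance : Mul Gp := ⟨fun a b => ⟨a.g * b.g, fun d n => xor (b.f d n) (a.f (b.g d) n)⟩⟩

instance : One Gp := ⟨⟨1, fun _ _ => false⟩⟩

instance : Inv Gp := ⟨fun a => ⟨a.g⁻¹, fun d n => a.f (a.g⁻¹ d) n⟩⟩

theorem Gp.mul_g (a b : Gp) : (a * b).g = a.g * b.g := rfl

theorem Gp.mul_f (a b : Gp) (d n : ℕ) : (a * b).f d n = xor (b.f d n) (a.f (b.g d) n) := rfl

theorem Gp.one_g : (1 : Gp).g = 1 := rfl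

theorem Gp.one_f (d n : ℕ) : (1 : Gp).f d n = false := rfl

theorem Gp.inv_g (a : Gp) : (a⁻¹).g = a.g⁻¹ := rfl

theorem Gp.inv_f (a : Gp) (d n : ℕ) : (a⁻¹).f d n = a.f (a.g⁻¹ d) n := rfl

instance : Group Gp :=
  Group.ofLeftAxioms
    (fun a b c => by
      ext d n
      · rfl
      · simp only [Gp.mul_f, Gp.mul_g, Bool.xor_assoc, Equiv.Perm.mul_apply])
    (fun a => by
      ext d n
      · rfl
      · simp only [Gp.mul_f, Gp.one_f, Bool.xor_false])
    (fun a => by
      refine Gp.ext ?_ ?_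
      · show a.g⁻¹ * a.g = 1
        exact inv_mul_cancel _
      · funext d n
        simp only [Gp.mul_f, Gp.inv_f, Gp.one_f]
        rw [perm_inv_apply, Bool.xor_self])

/-- action on triples (column, place, value) -/
def Gp.tri (a : Gp) (t : ℕ × ℕ × Bool) : ℕ × ℕ × Bool :=
  (a.g t.1, t.2.1, xor t.2.2 (a.f t.1 t.2.1))

theorem Gp.tri_mul (a b : Gp) (t : ℕ × ℕ × Bool) : (a * b).tri t = a.tri (b.tri t) := by
  simp only [Gp.tri, Gp.mul_f, Gp.mul_g, Equiv.Perm.mul_apply, Bool.xor_assoc]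

theorem Gp.tri_one (t : ℕ × ℕ × Bool) : (1 : Gp).tri t = t := by
  simp only [Gp.tri, Gp.one_f, Gp.one_g, Equiv.Perm.one_apply, Bool.xor_false]

theorem Gp.tri_inv_tri (a : Gp) (t : ℕ × ℕ × Bool) : (a⁻¹).tri (a.tri t) = t := by
  rw [← Gp.tri_mul, inv_mul_cancel, Gp.tri_one]

theorem Gp.tri_tri_inv (a : Gp) (t : ℕ × ℕ × Bool) : a.tri ((a⁻¹).tri t) = t := by
  rw [← Gp.tri_mul, mul_inv_cancel, Gp.tri_one]

/-- conditions: finite partial functions, as finite sets of triples (column, place, value) -/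
@[ext]
structure Cond where
  /-- the triples -/
  s : Finset (ℕ × ℕ × Bool)
  con : ∀ d n, ¬ ((d, n, true) ∈ s ∧ (d, n, false) ∈ s)

theorem Cond.con' (p : Cond) {d n : ℕ} {b : Bool} (h : (d, n, b) ∈ p.s) : (d, n, !b) ∉ p.s := by
  intro h'
  cases b
  · exact p.con d n ⟨h', h⟩
  · exact p.con d n ⟨h, h'⟩

instance : PartialOrder Cond where
  le p q := q.s ⊆ p.s
  le_refl p := Finset.Subset.refl _
  le_trans p q r h h' := Finset.Subset.trans h' h
  le_antisymm p q h h' := Cond.ext (Finset.Subset.antisymm h' h)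

theorem Cond.le_iff {p q : Cond} : p ≤ q ↔ q.s ⊆ p.s := Iff.rfl

/-- conditions form a countable set -/
instance : Countable Cond :=
  Function.Injective.countable (f := Cond.s) fun _ _ h => Cond.ext h

/-- the empty condition -/
def Cond.one : Cond := ⟨∅, fun _ _ h => absurd h.1 (Finset.notMem_empty _)⟩

theorem Cond.le_one (p : Cond) : p ≤ Cond.one := Finset.empty_subset _

/-- action on conditions -/
def Cond.act (a : Gp) (p : Cond) : Cond where
  s := p.s.image a.tri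
  con := by
    rintro d n ⟨h1, h2⟩
    rw [Finset.mem_image] at h1 h2
    obtain ⟨⟨d1, n1, b1⟩, h1, e1⟩ := h1
    obtain ⟨⟨d2, n2, b2⟩, h2, e2⟩ := h2
    simp only [Gp.tri, Prod.mk.injEq] at e1 e2
    obtain ⟨e1, e2', e3⟩ := e1
    obtain ⟨e4, e5, e6⟩ := e2
    subst e2'
    subst e5
    have : d1 = d2 := a.g.injective (e1.trans e4.symm)
    subst this
    cases b1 <;> cases b2 <;> cases hf : a.f d1 n2 <;> simp [hf] at e3 e6
    · exact p.con _ _ ⟨h2, h1⟩
    · exact p.con _ _ ⟨h1, h2⟩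

theorem Cond.mem_act {a : Gp} {p : Cond} {t : ℕ × ℕ × Bool} :
    t ∈ (Cond.act a p).s ↔ (a⁻¹).tri t ∈ p.s := by
  show t ∈ p.s.image a.tri ↔ _
  rw [Finset.mem_image]
  constructor
  · rintro ⟨u, hu, rfl⟩
    rwa [Gp.tri_inv_tri]
  · intro h
    exact ⟨_, h, Gp.tri_tri_inv a t⟩

theorem Cond.act_mul (a b : Gp) (p : Cond) : Cond.act (a * b) p = Cond.act a (Cond.act b p) := by
  ext t
  rw [Cond.mem_act, Cond.mem_act, Cond.mem_act, mul_inv_rev, Gp.tri_mul]

theorem Cond.act_one (p : Cond) : Cond.act 1 p = p := by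
  ext t
  rw [Cond.mem_act, inv_one, Gp.tri_one]

theorem Cond.act_inv_act (a : Gp) (p : Cond) : Cond.act a⁻¹ (Cond.act a p) = p := by
  rw [← Cond.act_mul, inv_mul_cancel, Cond.act_one]

theorem Cond.act_act_inv (a : Gp) (p : Cond) : Cond.act a (Cond.act a⁻¹ p) = p := by
  rw [← Cond.act_mul, mul_inv_cancel, Cond.act_one]

theorem Cond.act_mono {a : Gp} {p q : Cond} (h : p ≤ q) : Cond.act a p ≤ Cond.act a q :=
  Finset.image_subset_image h

/-- the automorphism of the set of conditions -/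
def condIso (a : Gp) : Cond ≃o Cond where
  toFun := Cond.act a
  invFun := Cond.act a⁻¹
  left_inv := Cond.act_inv_act a
  right_inv := Cond.act_act_inv a
  map_rel_iff' {p q} := by
    constructor
    · intro h
      have := Cond.act_mono (a := a⁻¹) h
      rwa [Equiv.coe_fn_mk, Cond.act_inv_act, Cond.act_inv_act] at this
    · exact Cond.act_mono

/-- the action on the algebra -/
def actHom : Gp →* (RO Cond ≃o RO Cond) where
  toFun a := roMap (condIso a)
  map_one' := by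
    refine OrderIso.ext (funext fun b => forc_ext fun p => ?_)
    rw [forc_roMap]
    show Forc (Cond.act 1⁻¹ p) b ↔ Forc p b
    rw [inv_one, Cond.act_one]
  map_mul' a b := by
    refine OrderIso.ext (funext fun x => forc_ext fun p => ?_)
    rw [forc_roMap]
    show Forc (Cond.act (a * b)⁻¹ p) x ↔ Forc p (roMap (condIso a) (roMap (condIso b) x))
    rw [forc_roMap, forc_roMap]
    show _ ↔ Forc (Cond.act b⁻¹ (Cond.act a⁻¹ p)) x
    rw [mul_inv_rev, Cond.act_mul]

/-- supports: flips are trivial on `T`, columns in `T` and `S` are fixed, and the colouring `c`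
(with finitely many colours) is preserved -/
structure Spt where
  /-- columns on which flips are trivial -/
  T : Finset ℕ
  /-- fixed columns -/
  S : Finset ℕ
  /-- colouring -/
  c : ℕ → ℕ
  fin : (Set.range c).Finite

/-- the subgroup of a support -/
def Spt.fix (E : Spt) : Subgroup Gp where
  carrier := {a | (∀ t ∈ E.T, a.g t = t ∧ ∀ n, a.f t n = false) ∧ (∀ s ∈ E.S, a.g s = s) ∧
    ∀ e, E.c (a.g e) = E.c e}
  mul_mem' {a b} ha hb := by
    refine ⟨fun t ht => ⟨?_, fun n => ?_⟩, fun s hs => ?_, fun e => ?_⟩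
    · rw [Gp.mul_g, Equiv.Perm.mul_apply, (hb.1 t ht).1, (ha.1 t ht).1]
    · rw [Gp.mul_f, (hb.1 t ht).1, (hb.1 t ht).2, (ha.1 t ht).2]
      rfl
    · rw [Gp.mul_g, Equiv.Perm.mul_apply, hb.2.1 s hs, ha.2.1 s hs]
    · rw [Gp.mul_g, Equiv.Perm.mul_apply, ha.2.2, hb.2.2]
  one_mem' := ⟨fun t _ => ⟨rfl, fun _ => rfl⟩, fun s _ => rfl, fun e => rfl⟩
  inv_mem' {a} ha := by
    refine ⟨fun t ht => ⟨?_, fun n => ?_⟩, fun s hs => ?_, fun e => ?_⟩
    · rw [Gp.inv_g, Equiv.Perm.inv_eq_iff_eq, (ha.1 t ht).1]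
    · rw [Gp.inv_f, Equiv.Perm.inv_eq_iff_eq.2 (ha.1 t ht).1.symm, (ha.1 t ht).2]
    · rw [Gp.inv_g, Equiv.Perm.inv_eq_iff_eq, ha.2.1 s hs]
    · rw [Gp.inv_g, ← ha.2.2 (a.g⁻¹ e), perm_apply_inv]

theorem Spt.mem_fix {E : Spt} {a : Gp} : a ∈ E.fix ↔
    (∀ t ∈ E.T, a.g t = t ∧ ∀ n, a.f t n = false) ∧ (∀ s ∈ E.S, a.g s = s) ∧
    ∀ e, E.c (a.g e) = E.c e := Iff.rfl

theorem finite_pair {c c' : ℕ → ℕ} (h : (Set.range c).Finite) (h' : (Set.range c').Finite) :
    (Set.range fun e => Nat.pair (c e) (c' e)).Finite := by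
  refine ((h.prod h').image fun x => Nat.pair x.1 x.2).subset ?_
  rintro _ ⟨e, rfl⟩
  exact ⟨(c e, c' e), ⟨⟨e, rfl⟩, ⟨e, rfl⟩⟩, rfl⟩

/-- a support which is stronger than two given ones -/
def Spt.join (E E' : Spt) : Spt where
  T := E.T ∪ E'.T
  S := E.S ∪ E'.S
  c := fun e => Nat.pair (E.c e) (E'.c e)
  fin := finite_pair E.fin E'.fin

theorem Spt.join_le (E E' : Spt) : (E.join E').fix ≤ E.fix ∧ (E.join E').fix ≤ E'.fix := by
  constructor
  · rintro a ⟨h1, h2, h3⟩
    refine ⟨fun t ht => h1 t (Finset.mem_union_left _ ht), fun s hs =>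
      h2 s (Finset.mem_union_left _ hs), fun e => ?_⟩
    exact (Nat.pair_eq_pair.1 (h3 e)).1
  · rintro a ⟨h1, h2, h3⟩
    refine ⟨fun t ht => h1 t (Finset.mem_union_right _ ht), fun s hs =>
      h2 s (Finset.mem_union_right _ hs), fun e => ?_⟩
    exact (Nat.pair_eq_pair.1 (h3 e)).2

/-- the image of a support -/
def Spt.img (E : Spt) (g : Equiv.Perm ℕ) : Spt where
  T := E.T.image g
  S := E.S.image g
  c := fun e => E.c (g⁻¹ e)
  fin := E.fin.subset (by rintro _ ⟨e, rfl⟩; exact ⟨_, rfl⟩)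

theorem Spt.img_fix (E : Spt) (a : Gp) {h : Gp} (hh : h ∈ (E.img a.g).fix) :
    a⁻¹ * h * a ∈ E.fix := by
  obtain ⟨h1, h2, h3⟩ := hh
  have e1 : ∀ t, h.g (a.g t) = a.g t → (a⁻¹ * h * a).g t = t := by
    intro t ht
    show a.g⁻¹ (h.g (a.g t)) = t
    rw [ht, perm_inv_apply]
  refine ⟨fun t ht => ⟨?_, fun n => ?_⟩, fun s hs => ?_, fun e => ?_⟩
  · exact e1 t (h1 _ (Finset.mem_image_of_mem _ ht)).1
  · have h4 := h1 _ (Finset.mem_image_of_mem _ ht)
    simp only [Gp.mul_f, Gp.mul_g, Gp.inv_f]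
    rw [h4.1, h4.2, perm_inv_apply]
    simp
  · exact e1 s (h2 _ (Finset.mem_image_of_mem _ hs))
  · show E.c (a.g⁻¹ (h.g (a.g e))) = E.c e
    have : E.c (a.g⁻¹ (h.g (a.g e))) = E.c (a.g⁻¹ (a.g e)) := h3 (a.g e)
    rwa [perm_inv_apply] at this

/-- the symmetric system -/
@[reducible]
def CS : Sys (RO Cond) where
  G := Gp
  act := actHom
  Sp := Spt
  fix := Spt.fix
  ne := ⟨⟨∅, ∅, fun _ => 0, (Set.finite_singleton 0).subset (by rintro _ ⟨e, rfl⟩; rfl)⟩⟩
  dir E E' := ⟨E.join E', E.join_le E'⟩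
  conj E g := ⟨E.img g.g, fun _ hh => E.img_fix g hh⟩

theorem forc_act {a : Gp} {b : RO Cond} {p : Cond} :
    Forc p (CS.act a b) ↔ Forc (Cond.act a⁻¹ p) b := forc_roMap

theorem forc_act' {a : Gp} {b : RO Cond} {p : Cond} :
    Forc (Cond.act a p) (CS.act a b) ↔ Forc p b := by
  rw [forc_act, Cond.act_inv_act]

theorem act_pt (a : Gp) (p : Cond) : CS.act a (pt p) = pt (Cond.act a p) := roMap_pt _ _

/-- restriction of a condition to a set of columns -/
def Cond.res (T : Finset ℕ) (p : Cond) : Cond where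
  s := p.s.filter fun t => t.1 ∈ T
  con := by
    rintro d n ⟨h1, h2⟩
    exact p.con d n ⟨(Finset.mem_filter.1 h1).1, (Finset.mem_filter.1 h2).1⟩

theorem Cond.mem_res {T : Finset ℕ} {p : Cond} {t : ℕ × ℕ × Bool} :
    t ∈ (p.res T).s ↔ t ∈ p.s ∧ t.1 ∈ T := Finset.mem_filter

theorem Cond.le_res (T : Finset ℕ) (p : Cond) : p ≤ p.res T := Finset.filter_subset _ _

theorem Cond.res_mono {T : Finset ℕ} {p q : Cond} (h : p ≤ q) : p.res T ≤ q.res T :=
  Finset.filter_subset_filter _ h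

/-- the columns of a condition are in `T` -/
def Cond.On (p : Cond) (T : Finset ℕ) : Prop := ∀ t ∈ p.s, t.1 ∈ T

theorem Cond.res_on (T : Finset ℕ) (p : Cond) : (p.res T).On T :=
  fun _ ht => (Cond.mem_res.1 ht).2

theorem Cond.On.res {p : Cond} {T : Finset ℕ} (h : p.On T) : p.res T = p := by
  ext t
  rw [Cond.mem_res]
  exact ⟨fun h => h.1, fun ht => ⟨ht, h t ht⟩⟩

theorem Cond.On.mono {p : Cond} {T T' : Finset ℕ} (h : p.On T) (h' : T ⊆ T') : p.On T' :=
  fun t ht => h' (h t ht)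

/-- the columns of a condition -/
def Cond.cols (p : Cond) : Finset ℕ := p.s.image Prod.fst

theorem Cond.on_cols (p : Cond) : p.On p.cols := fun _ ht => Finset.mem_image_of_mem _ ht

theorem Cond.res_le_of_on {T : Finset ℕ} {p q : Cond} (hq : q.On T) (h : p ≤ q) :
    p.res T ≤ q := fun t ht => Cond.mem_res.2 ⟨h ht, hq t ht⟩

/-- `a` fixes the columns in `T` and does not flip there -/
def Triv (T : Finset ℕ) (a : Gp) : Prop := ∀ t ∈ T, a.g t = t ∧ ∀ n, a.f t n = false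

/-- flips outside `T` -/
def IsFlip (T : Finset ℕ) (a : Gp) : Prop := a.g = 1 ∧ ∀ t ∈ T, ∀ n, a.f t n = false

theorem IsFlip.triv {T : Finset ℕ} {a : Gp} (h : IsFlip T a) : Triv T a :=
  fun t ht => ⟨by rw [h.1]; rfl, h.2 t ht⟩

theorem Triv.inv {T : Finset ℕ} {a : Gp} (h : Triv T a) : Triv T a⁻¹ := by
  intro t ht
  have e : a.g⁻¹ t = t := by rw [Equiv.Perm.inv_eq_iff_eq, (h t ht).1]
  refine ⟨e, fun n => ?_⟩
  rw [Gp.inv_f, e, (h t ht).2]

theorem Triv.tri {T : Finset ℕ} {a : Gp} (h : Triv T a) {t : ℕ × ℕ × Bool} (ht : t.1 ∈ T) :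
    a.tri t = t := by
  obtain ⟨d, n, b⟩ := t
  simp only [Gp.tri]
  rw [(h d ht).1, (h d ht).2, Bool.xor_false]

theorem Triv.res_act {T : Finset ℕ} {a : Gp} (h : Triv T a) (p : Cond) :
    (Cond.act a p).res T = p.res T := by
  have key : ∀ t : ℕ × ℕ × Bool, t.1 ∈ T → (t ∈ (Cond.act a p).s ↔ t ∈ p.s) := by
    intro t ht
    rw [Cond.mem_act, h.inv.tri ht]
  ext t
  rw [Cond.mem_res, Cond.mem_res]
  constructor
  · rintro ⟨h1, h2⟩
    exact ⟨(key t h2).1 h1, h2⟩
  · rintro ⟨h1, h2⟩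
    exact ⟨(key t h2).2 h1, h2⟩

theorem Triv.act_of_on {T : Finset ℕ} {a : Gp} (h : Triv T a) {p : Cond} (hp : p.On T) :
    Cond.act a p = p := by
  ext t
  show t ∈ p.s.image a.tri ↔ t ∈ p.s
  rw [Finset.mem_image]
  constructor
  · rintro ⟨u, hu, rfl⟩
    rwa [h.tri (hp u hu)]
  · intro ht
    exact ⟨t, ht, h.tri (hp t ht)⟩

/-- flips make conditions compatible -/
theorem exists_flip (T : Finset ℕ) (p q : Cond)
    (h : ∀ d ∈ T, ∀ n b, (d, n, b) ∈ p.s → (d, n, !b) ∉ q.s) :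
    ∃ a : Gp, IsFlip T a ∧ ∃ r : Cond, r ≤ Cond.act a p ∧ r ≤ q := by
  classical
  let f : ℕ → ℕ → Bool := fun d n => decide (d ∉ T ∧ ∃ b, (d, n, b) ∈ p.s ∧ (d, n, !b) ∈ q.s)
  let a : Gp := ⟨1, f⟩
  have hmem : ∀ d n b, (d, n, b) ∈ (Cond.act a p).s → (d, n, xor b (f d n)) ∈ p.s := by
    intro d n b h
    rw [Cond.mem_act] at h
    exact h
  have hflip : IsFlip T a := by
    refine ⟨rfl, fun t ht n => ?_⟩
    show decide _ = false
    rw [decide_eq_false_iff_not]
    exact fun h => h.1 ht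
  refine ⟨a, hflip, ⟨(Cond.act a p).s ∪ q.s, ?_⟩, Finset.subset_union_left,
    Finset.subset_union_right⟩
  -- no conflict between the two
  have key : ∀ d n b, (d, n, b) ∈ (Cond.act a p).s → (d, n, !b) ∉ q.s := by
    intro d n b h1 h2
    have h3 := hmem d n b h1
    by_cases hd : d ∈ T
    · have : f d n = false := hflip.2 d hd n
      rw [this, Bool.xor_false] at h3
      exact h d hd n b h3 h2
    · cases hf : f d n
      · rw [hf, Bool.xor_false] at h3
        have : f d n = true := decide_eq_true ⟨hd, b, h3, h2⟩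
        rw [hf] at this
        exact Bool.false_ne_true this
      · rw [hf, Bool.xor_true] at h3
        obtain ⟨_, b', h4, h5⟩ := of_decide_eq_true hf
        have : b' = !b := by
          by_contra hne
          have e : b' = b := by cases b <;> cases b' <;> simp_all
          rw [e] at h4
          exact p.con' h4 h3
        rw [this, Bool.not_not] at h5
        exact q.con' h5 h2
  rintro d n ⟨h1, h2⟩
  rw [Finset.mem_union] at h1 h2
  rcases h1 with h1 | h1 <;> rcases h2 with h2 | h2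
  · exact (Cond.act a p).con d n ⟨h1, h2⟩
  · exact key d n true h1 h2
  · exact key d n false h2 h1
  · exact q.con d n ⟨h1, h2⟩

/-- an element of the algebra is invariant under flips outside `T` -/
def Inv (T : Finset ℕ) (b : RO Cond) : Prop := ∀ a, IsFlip T a → CS.act a b = b

theorem Inv.forc_res {T : Finset ℕ} {b : RO Cond} (h : Inv T b) {q : Cond} (hq : Forc q b) :
    Forc (q.res T) b := by
  rw [forc_iff_dense]
  intro r hr
  obtain ⟨a, ha, s, hs, hs'⟩ := exists_flip T q r (fun d hd n b h1 h2 => by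
    have : (d, n, b) ∈ r.s := hr (Cond.mem_res.2 ⟨h1, hd⟩)
    exact r.con' this h2)
  refine ⟨s, hs', ?_⟩
  refine Forc.mono ?_ hs
  rw [← h a ha]
  exact forc_act'.2 hq

theorem Inv.forc_iff {T : Finset ℕ} {b : RO Cond} (h : Inv T b) {q : Cond} :
    Forc (q.res T) b ↔ Forc q b := ⟨fun h' => h'.mono (q.le_res T), h.forc_res⟩

theorem Inv.act_eq {T : Finset ℕ} {b : RO Cond} (h : Inv T b) {a : Gp} (ha : Triv T a) :
    CS.act a b = b := by
  refine forc_ext fun p => ?_
  rw [forc_act, ← h.forc_iff, ha.inv.res_act, h.forc_iff]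

theorem Inv.compl {T : Finset ℕ} {b : RO Cond} (h : Inv T b) : Inv T bᶜ := fun a ha => by
  rw [act_compl, h a ha]

theorem Inv.inf {T : Finset ℕ} {b b' : RO Cond} (h : Inv T b) (h' : Inv T b') :
    Inv T (b ⊓ b') := fun a ha => by rw [act_inf, h a ha, h' a ha]

theorem Inv.sup {T : Finset ℕ} {b b' : RO Cond} (h : Inv T b) (h' : Inv T b') :
    Inv T (b ⊔ b') := fun a ha => by rw [act_sup, h a ha, h' a ha]

theorem Inv.himp {T : Finset ℕ} {b b' : RO Cond} (h : Inv T b) (h' : Inv T b') :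
    Inv T (b ⇨ b') := fun a ha => by rw [act_himp, h a ha, h' a ha]

theorem Inv.mono {T T' : Finset ℕ} (hT : T ⊆ T') {b : RO Cond} (h : Inv T b) : Inv T' b :=
  fun a ha => h a ⟨ha.1, fun t ht => ha.2 t (hT ht)⟩

/-- compatibility with an image -/
theorem exists_compat (T : Finset ℕ) (p : Cond) (a : Gp) (ha : Triv T a) :
    ∃ a' : Gp, a'.g = a.g ∧ Triv T a' ∧ ∃ r : Cond, r ≤ p ∧ r ≤ Cond.act a' p := by
  obtain ⟨k, hk, r, h1, h2⟩ := exists_flip T (Cond.act a p) p (fun d hd n b h1 h2 => by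
    rw [Cond.mem_act, ha.inv.tri (t := (d, n, b)) hd] at h1
    exact p.con' h1 h2)
  refine ⟨k * a, ?_, ?_, r, h2, ?_⟩
  · rw [Gp.mul_g, hk.1, one_mul]
  · intro t ht
    refine ⟨?_, fun n => ?_⟩
    · rw [Gp.mul_g, hk.1, one_mul]
      exact (ha t ht).1
    · rw [Gp.mul_f, (ha t ht).1, (ha t ht).2, hk.2 t ht]
      rfl
  · rw [Cond.act_mul]
    exact h1

/-- the generic real of column `d`, shifted by `a` -/
noncomputable def xrN (d : ℕ) (a : ℕ → Bool) : BSet (RO Cond) :=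
  .mk ℕ (fun n => on n) fun n => pt ⟨{(d, n, !a n)}, fun d' n' h => by
    have h1 := Finset.mem_singleton.1 h.1
    have h2 := Finset.mem_singleton.1 h.2
    rw [← h2] at h1
    simp at h1⟩

theorem cond_single_act (x : Gp) (d n : ℕ) (b : Bool) (h h') :
    Cond.act x ⟨{(d, n, b)}, h⟩ = ⟨{(x.g d, n, xor b (x.f d n))}, h'⟩ := by
  apply Cond.ext
  show Finset.image x.tri {(d, n, b)} = _
  rw [Finset.image_singleton]
  rfl

theorem actN_xrN (x : Gp) (d : ℕ) (a : ℕ → Bool) :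
    actN CS x (xrN d a) = xrN (x.g d) fun n => xor (a n) (x.f d n) := by
  rw [xrN, actN_mk, xrN]
  congr 1
  · funext n
    exact actN_on CS x n
  · funext n
    rw [act_pt]
    congr 1
    apply Cond.ext
    show Finset.image x.tri {(d, n, !a n)} = {(x.g d, n, !xor (a n) (x.f d n))}
    rw [Finset.image_singleton]
    congr 1
    simp only [Gp.tri, Bool.not_xor]

/-- the set of all shifts of the generic real of column `d` -/
noncomputable def XdN (d : ℕ) : BSet (RO Cond) := chk (xrN d)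

theorem eqv_chk_reindex {B : Type} [CompleteBooleanAlgebra B] {X Y : Type} (nm : X → BSet B)
    (nm' : Y → BSet B) (u : X → Y) (v : Y → X) (h1 : ∀ x, eqv (nm x) (nm' (u x)) = ⊤)
    (h2 : ∀ y, eqv (nm (v y)) (nm' y) = ⊤) : eqv (chk nm) (chk nm') = ⊤ := by
  rw [eqv_chk, eq_top_iff]
  refine le_inf (le_iInf fun x => le_iSup_of_le (u x) (h1 x).ge)
    (le_iInf fun y => le_iSup_of_le (v y) (h2 y).ge)

theorem actN_XdN (x : Gp) (d : ℕ) : eqv (actN CS x (XdN d)) (XdN (x.g d)) = ⊤ := by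
  rw [XdN, actN_chk, XdN]
  refine eqv_chk_reindex _ _ (fun a n => xor (a n) (x.f d n)) (fun a n => xor (a n) (x.f d n))
    (fun a => ?_) (fun a => ?_)
  · rw [actN_xrN]; exact eqv_refl _
  · rw [actN_xrN]
    have : (fun n => xor (xor (a n) (x.f d n)) (x.f d n)) = a := by
      funext n
      rw [Bool.xor_assoc, Bool.xor_self, Bool.xor_false]
    rw [this]
    exact eqv_refl _

theorem hs_xrN (d : ℕ) (a : ℕ → Bool) : HS CS (xrN d a) := by
  refine ⟨⟨(⟨{d}, ∅, fun _ => 0, (Set.finite_singleton 0).subset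
    (by rintro _ ⟨e, rfl⟩; rfl)⟩ : Spt), ?_⟩, fun n => hs_on CS n⟩
  intro g hg
  have h := hg.1 d (Finset.mem_singleton_self d)
  show eqv (actN CS g (xrN d a)) (xrN d a) = ⊤
  rw [actN_xrN, h.1]
  have : (fun n => xor (a n) (g.f d n)) = a := by
    funext n
    rw [h.2, Bool.xor_false]
  rw [this]
  exact eqv_refl _

theorem supp_XdN {E : Spt} {d : ℕ} (h : ∀ a ∈ E.fix, a.g d = d) : Supp CS E (XdN d) := by
  intro g hg
  have := actN_XdN g d
  rwa [h g hg] at this

theorem hs_XdN (d : ℕ) : HS CS (XdN d) := by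
  have h : Supp CS (⟨∅, {d}, fun _ => 0, (Set.finite_singleton 0).subset
      (by rintro _ ⟨e, rfl⟩; rfl)⟩ : Spt) (XdN d) :=
    supp_XdN fun a ha => ha.2.1 d (Finset.mem_singleton_self d)
  exact ⟨⟨_, h⟩, fun a => hs_xrN d a⟩

/-- the set of all `X_d` -/
noncomputable def DDN : BSet (RO Cond) := chk XdN

theorem supp_DDN (E : Spt) : Supp CS E DDN := by
  intro g _
  rw [DDN, actN_chk]
  refine eqv_chk_reindex _ _ (fun d => g.g d) (fun d => g.g⁻¹ d) (fun d => actN_XdN g d)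
    (fun d => ?_)
  have := actN_XdN g (g.g⁻¹ d)
  rwa [perm_apply_inv] at this

theorem hs_DDN : HS CS DDN := ⟨⟨_, supp_DDN CS.ne.some⟩, hs_XdN⟩

/-- `X_d` as a hereditarily symmetric name -/
noncomputable def Xd (d : ℕ) : HN CS := ⟨XdN d, hs_XdN d⟩

/-- the set of all `X_d` as a hereditarily symmetric name -/
noncomputable def DD : HN CS := ⟨DDN, hs_DDN⟩

theorem forc_single {p : Cond} {d n : ℕ} {b : Bool} {h} :
    Forc p (pt ⟨{(d, n, b)}, h⟩) ↔ (d, n, b) ∈ p.s := by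
  rw [forc_pt]
  constructor
  · intro hp
    by_contra hn
    by_cases h' : (d, n, !b) ∈ p.s
    · obtain ⟨r, h1, h2⟩ := hp p le_rfl
      have h3 : (d, n, b) ∈ r.s := h2 (Finset.mem_singleton_self _)
      exact r.con' h3 (h1 h')
    · have hcon : ∀ d' n', ¬ ((d', n', true) ∈ insert (d, n, !b) p.s ∧
          (d', n', false) ∈ insert (d, n, !b) p.s) := by
        rintro d' n' ⟨h1, h2⟩
        rw [Finset.mem_insert] at h1 h2
        rcases h1 with h1 | h1 <;> rcases h2 with h2 | h2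
        · rw [← h2] at h1
          simp at h1
        · simp only [Prod.mk.injEq] at h1
          obtain ⟨rfl, rfl, h3⟩ := h1
          have : b = false := by cases b <;> simp_all
          rw [this] at hn
          exact hn h2
        · simp only [Prod.mk.injEq] at h2
          obtain ⟨rfl, rfl, h3⟩ := h2
          have : b = true := by cases b <;> simp_all
          rw [this] at hn
          exact hn h1
        · exact p.con _ _ ⟨h1, h2⟩
      obtain ⟨r, h1, h2⟩ := hp ⟨insert (d, n, !b) p.s, hcon⟩ (Finset.subset_insert _ _)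
      have h3 : (d, n, b) ∈ r.s := h2 (Finset.mem_singleton_self _)
      exact r.con' h3 (h1 (Finset.mem_insert_self _ _))
  · intro hp q hq
    refine ⟨q, le_rfl, ?_⟩
    show {(d, n, b)} ⊆ q.s
    rw [Finset.singleton_subset_iff]
    exact hq hp

theorem memv_on_xrN (d n : ℕ) (a : ℕ → Bool) (p : Cond) :
    Forc p (memv (on n) (xrN d a)) ↔ (d, n, !a n) ∈ p.s := by
  have e : memv (on n) (xrN d a) = pt ⟨{(d, n, !a n)}, fun d' n' h => by
      have h1 := Finset.mem_singleton.1 h.1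
      have h2 := Finset.mem_singleton.1 h.2
      rw [← h2] at h1
      simp at h1⟩ := by
    rw [xrN, memv_mk]
    refine le_antisymm (iSup_le fun m => ?_) (le_iSup_of_le n ?_)
    · rw [eqv_on]
      by_cases h : n = m
      · subst h
        exact inf_le_left
      · rw [LadderTree.tv_false h, inf_bot_eq]
        exact bot_le
    · rw [eqv_refl, inf_top_eq]
  rw [e, forc_single]

/-- distinct columns give distinct sets -/
theorem eqv_XdN {d d' : ℕ} (h : d ≠ d') : eqv (XdN d) (XdN d') = ⊥ := by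
  by_contra hne
  obtain ⟨p, hp⟩ := exists_forc hne
  -- `x_d` is some shift of `x_d'`
  have h1 : eqv (XdN d) (XdN d') ≤ ⨆ a, eqv (xrN d fun _ => false) (xrN d' a) := by
    rw [XdN, XdN, eqv_chk]
    exact inf_le_left.trans (iInf_le _ _)
  obtain ⟨q, hq, a, hqa⟩ := forc_iSup.1 (forc_le_iff.1 h1 p hp) p le_rfl
  -- a fresh place
  obtain ⟨n, hn⟩ := Infinite.exists_notMem_finset (q.s.image fun t => t.2.1)
  have hfresh : ∀ e b, (e, n, b) ∉ q.s := fun e b hm =>
    hn (Finset.mem_image.2 ⟨(e, n, b), hm, rfl⟩)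
  let s : Finset (ℕ × ℕ × Bool) := insert (d, n, true) (insert (d', n, a n) q.s)
  have hmem : ∀ t, t ∈ s ↔ t = (d, n, true) ∨ t = (d', n, a n) ∨ t ∈ q.s := by
    intro t
    simp only [s, Finset.mem_insert]
  have hcon : ∀ e m, ¬ ((e, m, true) ∈ s ∧ (e, m, false) ∈ s) := by
    rintro e m ⟨h1, h2⟩
    rw [hmem] at h1 h2
    simp only [Prod.mk.injEq] at h1 h2
    rcases h1 with ⟨rfl, rfl, _⟩ | ⟨rfl, rfl, h1⟩ | h1
    · rcases h2 with ⟨_, _, h2⟩ | ⟨h2, _, _⟩ | h2
      · simp at h2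
      · exact h h2
      · exact hfresh _ _ h2
    · rcases h2 with ⟨h2, _, _⟩ | ⟨_, _, h2⟩ | h2
      · exact h h2.symm
      · rw [← h1] at h2
        simp at h2
      · exact hfresh _ _ h2
    · rcases h2 with ⟨_, rfl, _⟩ | ⟨_, rfl, _⟩ | h2
      · exact hfresh _ _ h1
      · exact hfresh _ _ h1
      · exact q.con _ _ ⟨h1, h2⟩
  let r : Cond := ⟨s, hcon⟩
  have hr : r ≤ q := fun t ht => (hmem t).2 (Or.inr (Or.inr ht))
  have h2 : Forc r (memv (on n) (xrN d fun _ => false)) := by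
    rw [memv_on_xrN]
    exact (hmem _).2 (Or.inl rfl)
  have h3 : Forc r (memv (on n) (xrN d' a)) :=
    forc_le_iff.1 (memv_congr_right (on n) _ _) r (forc_inf.2 ⟨hqa.mono hr, h2⟩)
  rw [memv_on_xrN] at h3
  have h4 : (d', n, a n) ∈ r.s := (hmem _).2 (Or.inr (Or.inl rfl))
  exact r.con' h4 h3

theorem eqv_XdN' : ∀ d d', eqv (XdN d) (XdN d') = LadderTree.tv (d = d') := by
  intro d d'
  by_cases h : d = d'
  · rw [LadderTree.tv_true h, h, eqv_refl]
  · rw [LadderTree.tv_false h, eqv_XdN h]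

end Pool.Agent.Sym
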