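import Mathlib

/-!
# Permutations of the natural numbers: transport of colourings and generation
-/

namespace Pool.Agent.Sym

theorem equiv_of_infinite {s t : Set ℕ} (hs : s.Infinite) (ht : t.Infinite) :
    Nonempty (s ≃ t) := by
  have := hs.to_subtype
  have := ht.to_subtype
  obtain ⟨a⟩ := nonempty_denumerable s
  obtain ⟨b⟩ := nonempty_denumerable t
  exact ⟨(Denumerable.eqv s).trans (Denumerable.eqv t).symm⟩

/-- transport of colourings -/
theorem exists_perm {Y : Type*} (u v : ℕ → Y)
    (h : ∀ y, {x | u x = y} = {x | v x = y} ∨ (∃ a b, {x | u x = y} = {a} ∧ {x | v x = y} = {b}) ∨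
      ({x | u x = y}.Infinite ∧ {x | v x = y}.Infinite)) :
    ∃ g : Equiv.Perm ℕ, ∀ x, v (g x) = u x := by
  have key : ∀ y, Nonempty ({x // u x = y} ≃ {x // v x = y}) := by
    intro y
    rcases h y with h | ⟨a, b, h, h'⟩ | ⟨h, h'⟩
    · exact ⟨Equiv.setCongr h⟩
    · refine ⟨(Equiv.setCongr h).trans (Equiv.trans ?_ (Equiv.setCongr h').symm)⟩
      exact (Equiv.Set.singleton.{0, 0} a).trans (Equiv.Set.singleton.{0, 0} b).symm
    · exact equiv_of_infinite h h'
  exact ⟨Equiv.ofFiberEquiv fun y => Classical.choice (key y),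
    fun x => Equiv.ofFiberEquiv_map (fun y => Classical.choice (key y)) x⟩

/-- permutations which are the identity outside `A` -/
def SymP (A : Set ℕ) : Subgroup (Equiv.Perm ℕ) where
  carrier := {g | ∀ x, x ∉ A → g x = x}
  mul_mem' {a b} ha hb := by
    intro x hx
    rw [Equiv.Perm.mul_apply, hb x hx, ha x hx]
  one_mem' := fun x _ => rfl
  inv_mem' {a} ha := by
    intro x hx
    rw [Equiv.Perm.inv_eq_iff_eq, ha x hx]

theorem mem_SymP {A : Set ℕ} {g : Equiv.Perm ℕ} : g ∈ SymP A ↔ ∀ x, x ∉ A → g x = x := Iff.rfl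

theorem SymP.mono {A B : Set ℕ} (h : A ⊆ B) : SymP A ≤ SymP B :=
  fun _ hg x hx => hg x fun hA => hx (h hA)

theorem infinite_split {W : Set ℕ} (hW : W.Infinite) :
    ∃ L, L ⊆ W ∧ L.Infinite ∧ (W \ L).Infinite := by
  obtain ⟨e⟩ := equiv_of_infinite (Set.infinite_univ (α := ℕ)) hW
  have hinj : Function.Injective fun n : ℕ => (e ⟨n, trivial⟩ : ℕ) := fun a b hab => by
    have := e.injective (Subtype.ext hab)
    exact congrArg Subtype.val this
  refine ⟨Set.range fun n : ℕ => (e ⟨2 * n, trivial⟩ : ℕ), ?_, ?_, ?_⟩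
  · rintro _ ⟨n, rfl⟩
    exact (e _).2
  · refine Set.infinite_range_of_injective fun a b hab => ?_
    have := hinj hab
    omega
  · refine Set.infinite_of_injective_forall_mem (f := fun n : ℕ => (e ⟨2 * n + 1, trivial⟩ : ℕ))
      (fun a b hab => ?_) fun n => ⟨(e _).2, ?_⟩
    · have := hinj hab
      omega
    · rintro ⟨m, hm⟩
      have := hinj hm
      omega

theorem symP_union_aux {H : Subgroup (Equiv.Perm ℕ)} {A B : Set ℕ} (hA : SymP A ≤ H)
    (hB : SymP B ≤ H) {g : Equiv.Perm ℕ} (hg : g ∈ SymP (A ∪ B))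
    (hW : {x | x ∈ A ∩ B ∧ g x ∈ A}.Infinite) : g ∈ H := by
  classical
  obtain ⟨L, hLW, hL, hWL⟩ := infinite_split hW
  have hLA : L ⊆ A := fun x hx => (hLW hx).1.1
  have hLB : L ⊆ B := fun x hx => (hLW hx).1.2
  -- first factor
  obtain ⟨a, ha⟩ := exists_perm
    (fun y => if g⁻¹ y ∈ L then some (g⁻¹ y) else if y ∈ A then none else some y)
    (fun y => if y ∈ L then some y else if y ∈ A then none else some y) (by
      rintro (_ | z)
      · refine Or.inr (Or.inr ⟨?_, ?_⟩)
        · have h1 : (g '' ({x | x ∈ A ∩ B ∧ g x ∈ A} \ L)).Infinite :=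
            hWL.image (g.injective.injOn)
          refine h1.mono ?_
          rintro _ ⟨x, ⟨hx, hxL⟩, rfl⟩
          have e1 : g⁻¹ (g x) = x := g.symm_apply_apply x
          simp only [Set.mem_ofPred_eq, e1, if_neg hxL, if_pos hx.2]
        · refine hWL.mono ?_
          rintro x ⟨hx, hxL⟩
          simp only [Set.mem_ofPred_eq, if_neg hxL, if_pos hx.1.1]
      · by_cases hz : z ∈ L
        · refine Or.inr (Or.inl ⟨g z, z, ?_, ?_⟩)
          · ext y
            simp only [Set.mem_ofPred_eq, Set.mem_singleton_iff]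
            constructor
            · intro h
              by_cases h1 : g⁻¹ y ∈ L
              · rw [if_pos h1] at h
                have := Option.some.inj h
                rw [← this]
                exact (g.apply_symm_apply y).symm
              · rw [if_neg h1] at h
                by_cases h2 : y ∈ A
                · rw [if_pos h2] at h; exact absurd h (by simp)
                · rw [if_neg h2] at h
                  have := Option.some.inj h
                  exact absurd (hLA hz) (by rw [← this]; exact h2)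
            · rintro rfl
              have e1 : g⁻¹ (g z) = z := g.symm_apply_apply z
              rw [e1, if_pos hz]
          · ext y
            simp only [Set.mem_ofPred_eq, Set.mem_singleton_iff]
            constructor
            · intro h
              by_cases h1 : y ∈ L
              · rw [if_pos h1] at h; exact Option.some.inj h
              · rw [if_neg h1] at h
                by_cases h2 : y ∈ A
                · rw [if_pos h2] at h; exact absurd h (by simp)
                · rw [if_neg h2] at h; exact Option.some.inj h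
            · rintro rfl
              rw [if_pos hz]
        · refine Or.inl ?_
          ext y
          simp only [Set.mem_ofPred_eq]
          constructor
          · intro h
            by_cases h1 : g⁻¹ y ∈ L
            · rw [if_pos h1] at h
              have := Option.some.inj h
              exact absurd h1 (by rw [this]; exact hz)
            · rw [if_neg h1] at h
              by_cases h2 : y ∈ A
              · rw [if_pos h2] at h; exact absurd h (by simp)
              · rw [if_neg h2] at h
                rw [if_neg (fun h => h2 (hLA h)), if_neg h2]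
                exact h
          · intro h
            by_cases h1 : y ∈ L
            · rw [if_pos h1] at h
              have := Option.some.inj h
              exact absurd h1 (by rw [this]; exact hz)
            · rw [if_neg h1] at h
              by_cases h2 : y ∈ A
              · rw [if_pos h2] at h; exact absurd h (by simp)
              · have h3 : g⁻¹ y ∉ L := by
                  intro h3
                  apply h2
                  have := (hLW h3).2
                  have e1 : g (g⁻¹ y) = y := g.apply_symm_apply y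
                  rwa [e1] at this
                rw [if_neg h3]
                exact h)
  have ha1 : ∀ x ∈ L, a (g x) = x := by
    intro x hx
    have h1 := ha (g x)
    have e1 : g⁻¹ (g x) = x := g.symm_apply_apply x
    simp only [e1, if_pos hx] at h1
    by_cases h2 : a (g x) ∈ L
    · rw [if_pos h2] at h1; exact Option.some.inj h1
    · rw [if_neg h2] at h1
      by_cases h3 : a (g x) ∈ A
      · rw [if_pos h3] at h1; exact absurd h1 (by simp)
      · rw [if_neg h3] at h1; exact Option.some.inj h1
  have haA : a ∈ SymP A := by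
    intro y hy
    have h1 := ha y
    have h3 : g⁻¹ y ∉ L := by
      intro h3
      apply hy
      have := (hLW h3).2
      have e1 : g (g⁻¹ y) = y := g.apply_symm_apply y
      rwa [e1] at this
    simp only [if_neg h3, if_neg hy] at h1
    by_cases h2 : a y ∈ L
    · rw [if_pos h2] at h1; exact Option.some.inj h1
    · rw [if_neg h2] at h1
      by_cases h3 : a y ∈ A
      · rw [if_pos h3] at h1; exact absurd h1 (by simp)
      · rw [if_neg h3] at h1; exact Option.some.inj h1
  -- second factor
  have hBL : (B \ L).Infinite := hWL.mono fun x hx => ⟨hx.1.1.2, hx.2⟩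
  obtain ⟨b, hb⟩ := exists_perm
    (fun y => if y ∈ B then (Sum.inr (decide (y ∈ L)) : ℕ ⊕ Bool) else Sum.inl y)
    (fun y => if y ∈ B then (Sum.inr (decide (y ∉ L)) : ℕ ⊕ Bool) else Sum.inl y) (by
      rintro (z | c)
      · refine Or.inl ?_
        ext y
        simp only [Set.mem_ofPred_eq]
        by_cases h1 : y ∈ B
        · rw [if_pos h1, if_pos h1]; simp
        · rw [if_neg h1, if_neg h1]
      · refine Or.inr (Or.inr ?_)
        cases c
        · constructor
          · refine hBL.mono fun x hx => ?_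
            simp only [Set.mem_ofPred_eq, if_pos hx.1]
            rw [decide_eq_false hx.2]
          · refine hL.mono fun x hx => ?_
            simp only [Set.mem_ofPred_eq, if_pos (hLB hx)]
            rw [decide_eq_false (not_not.2 hx)]
        · constructor
          · refine hL.mono fun x hx => ?_
            simp only [Set.mem_ofPred_eq, if_pos (hLB hx)]
            rw [decide_eq_true hx]
          · refine hBL.mono fun x hx => ?_
            simp only [Set.mem_ofPred_eq, if_pos hx.1]
            rw [decide_eq_true hx.2])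
  have hb0 : ∀ y, y ∉ B → b y = y := by
    intro y hy
    have h1 := hb y
    simp only [if_neg hy] at h1
    by_cases h2 : b y ∈ B
    · rw [if_pos h2] at h1; exact absurd h1 (by simp)
    · rw [if_neg h2] at h1; exact Sum.inl.inj h1
  have hb1 : ∀ y ∈ B, b y ∈ B ∧ (b y ∈ L ↔ y ∉ L) := by
    intro y hy
    have h1 := hb y
    simp only [if_pos hy] at h1
    by_cases h2 : b y ∈ B
    · rw [if_pos h2] at h1
      refine ⟨h2, ?_⟩
      have h3 := Sum.inr.inj h1
      rw [decide_eq_decide] at h3
      tauto
    · rw [if_neg h2] at h1; exact absurd h1 (by simp)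
  have hbB : b ∈ SymP B := hb0
  have hk : b * (a * g) * b⁻¹ ∈ SymP A := by
    intro y hy
    show b (a (g (b⁻¹ y))) = y
    have hy' : b (b⁻¹ y) = y := b.apply_symm_apply y
    have h1 : a (g (b⁻¹ y)) = b⁻¹ y := by
      by_cases hyB : y ∈ B
      · -- `b⁻¹ y ∈ L`
        have h2 : b⁻¹ y ∈ B := by
          by_contra h2
          have := hb0 _ h2
          rw [hy'] at this
          rw [← this] at h2
          exact h2 hyB
        have h3 := hb1 _ h2
        rw [hy'] at h3
        have h4 : b⁻¹ y ∈ L := by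
          by_contra h4
          exact hy (hLA (h3.2.2 h4))
        exact ha1 _ h4
      · have h2 : b⁻¹ y = y := by
          rw [Equiv.Perm.inv_eq_iff_eq, hb0 y hyB]
        rw [h2, hg y (by rintro (h | h); exacts [hy h, hyB h]), haA y hy]
    rw [h1, hy']
  have e : g = a⁻¹ * (b⁻¹ * (b * (a * g) * b⁻¹) * b) := by group
  rw [e]
  exact H.mul_mem (H.inv_mem (hA haA)) (H.mul_mem (H.mul_mem (H.inv_mem (hB hbB)) (hA hk)) (hB hbB))

/-- two overlapping full symmetric groups generate the full symmetric group of the union -/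
theorem symP_union {H : Subgroup (Equiv.Perm ℕ)} {A B : Set ℕ} (hA : SymP A ≤ H)
    (hB : SymP B ≤ H) (hI : (A ∩ B).Infinite) : SymP (A ∪ B) ≤ H := by
  intro g hg
  have h1 : ∀ x ∈ A ∪ B, g x ∈ A ∪ B := by
    intro x hx
    by_contra h
    have := hg _ h
    have h2 : g x = x := g.injective this
    rw [h2] at h
    exact h hx
  have h2 : A ∩ B ⊆ {x | x ∈ A ∩ B ∧ g x ∈ A} ∪ {x | x ∈ B ∩ A ∧ g x ∈ B} := by
    intro x hx
    rcases h1 x (Or.inl hx.1) with h | h
    · exact Or.inl ⟨hx, h⟩
    · exact Or.inr ⟨⟨hx.2, hx.1⟩, h⟩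
  rcases Set.infinite_union.1 (hI.mono h2) with h | h
  · exact symP_union_aux hA hB hg h
  · rw [Set.union_comm] at hg
    exact symP_union_aux hB hA hg h

/-- permutations fixing `S` pointwise and preserving the colouring `c` -/
def FixP (S : Finset ℕ) (c : ℕ → ℕ) : Subgroup (Equiv.Perm ℕ) where
  carrier := {g | (∀ s ∈ S, g s = s) ∧ ∀ e, c (g e) = c e}
  mul_mem' {a b} ha hb := by
    refine ⟨fun s hs => ?_, fun e => ?_⟩
    · rw [Equiv.Perm.mul_apply, hb.1 s hs, ha.1 s hs]
    · rw [Equiv.Perm.mul_apply, ha.2, hb.2]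
  one_mem' := ⟨fun s _ => rfl, fun e => rfl⟩
  inv_mem' {a} ha := by
    refine ⟨fun s hs => ?_, fun e => ?_⟩
    · rw [Equiv.Perm.inv_eq_iff_eq, ha.1 s hs]
    · have := ha.2 (a⁻¹ e)
      have e1 : a (a⁻¹ e) = e := a.apply_symm_apply e
      rw [e1] at this
      exact this.symm

theorem mem_FixP {S : Finset ℕ} {c : ℕ → ℕ} {g : Equiv.Perm ℕ} :
    g ∈ FixP S c ↔ (∀ s ∈ S, g s = s) ∧ ∀ e, c (g e) = c e := Iff.rfl

theorem symP_le_fixP {S : Finset ℕ} {c : ℕ → ℕ} (i : ℕ) :
    SymP {e | c e = i ∧ e ∉ S} ≤ FixP S c := by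
  intro g hg
  refine ⟨fun s hs => hg s fun h => h.2 hs, fun e => ?_⟩
  by_cases he : e ∈ {e | c e = i ∧ e ∉ S}
  · have h1 : g e ∈ {e | c e = i ∧ e ∉ S} := by
      by_contra h
      have := g.injective (hg _ h)
      rw [this] at h
      exact h he
    rw [he.1]
    exact h1.1
  · rw [hg e he]

theorem infinite_diff_finset {X : Set ℕ} (hX : X.Infinite) (S : Finset ℕ) :
    {e | e ∈ X ∧ e ∉ S}.Infinite := by
  have := hX.sdiff S.finite_toSet
  exact this

/-- generation: one block -/
theorem gen_block {H : Subgroup (Equiv.Perm ℕ)} {S S' : Finset ℕ} {c c' c₀ : ℕ → ℕ}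
    (fc : (Set.range c).Finite) (fc' : (Set.range c').Finite)
    (ref : ∀ d e, c d = c e → c₀ d = c₀ e)
    (h : FixP S c ≤ H) (h' : FixP S' c' ≤ H)
    (hgp : ∀ d d', c₀ d = c₀ d' → {e | c e = c d ∧ c' e = c' d'}.Infinite) (d : ℕ) :
    SymP {e | c₀ e = c₀ d ∧ ¬ (e ∈ S ∧ e ∈ S')} ≤ H := by
  classical
  have hA : ∀ i, SymP {e | c e = i ∧ e ∉ S} ≤ H := fun i => (symP_le_fixP i).trans h
  have hB : ∀ i, SymP {e | c' e = i ∧ e ∉ S'} ≤ H := fun i => (symP_le_fixP i).trans h'
  have hAB : ∀ d d', c₀ d = c₀ d' →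
      {e | e ∈ {e | c e = c d ∧ e ∉ S} ∧ e ∈ {e | c' e = c' d' ∧ e ∉ S'}}.Infinite := by
    intro d d' hdd
    have h1 := infinite_diff_finset (infinite_diff_finset (hgp d d' hdd) S) S'
    refine h1.mono ?_
    rintro e ⟨⟨⟨h1, h2⟩, h3⟩, h4⟩
    exact ⟨⟨h1, h3⟩, h2, h4⟩
  -- adding the fibres of `c`
  have s1 : ∀ F : Finset ℕ, SymP ({e | (c₀ e = c₀ d ∧ e ∉ S) ∧ c e ∈ F} ∪
      {e | c' e = c' d ∧ e ∉ S'}) ≤ H := by
    intro F
    induction F using Finset.induction_on with
    | empty =>
      refine le_trans (SymP.mono ?_) (hB (c' d))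
      rintro e (h | h)
      · exact absurd h.2 (Finset.notMem_empty _)
      · exact h
    | @insert i F _ ih =>
      by_cases hi : ∃ d', c d' = i ∧ c₀ d' = c₀ d
      · obtain ⟨d', rfl, hd'⟩ := hi
        refine le_trans (SymP.mono ?_) (symP_union (hA (c d')) ih ?_)
        · rintro e (⟨h1, h2⟩ | h1)
          · rcases Finset.mem_insert.1 h2 with h3 | h3
            · exact Or.inl ⟨h3, h1.2⟩
            · exact Or.inr (Or.inl ⟨h1, h3⟩)
          · exact Or.inr (Or.inr h1)
        · refine (hAB d' d hd').mono ?_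
          rintro e ⟨h1, h2⟩
          exact ⟨h1, Or.inr h2⟩
      · refine le_trans (SymP.mono ?_) ih
        rintro e (⟨h1, h2⟩ | h1)
        · rcases Finset.mem_insert.1 h2 with h3 | h3
          · exact absurd ⟨e, h3, h1.1⟩ hi
          · exact Or.inl ⟨h1, h3⟩
        · exact Or.inr h1
  have s2 : SymP ({e | c₀ e = c₀ d ∧ e ∉ S} ∪ {e | c' e = c' d ∧ e ∉ S'}) ≤ H := by
    refine le_trans (SymP.mono ?_) (s1 fc.toFinset)
    rintro e (h1 | h1)
    · exact Or.inl ⟨h1, fc.mem_toFinset.2 ⟨e, rfl⟩⟩
    · exact Or.inr h1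
  -- adding the fibres of `c'`
  have s3 : ∀ F : Finset ℕ, SymP ({e | (c₀ e = c₀ d ∧ e ∉ S') ∧ c' e ∈ F} ∪
      ({e | c₀ e = c₀ d ∧ e ∉ S} ∪ {e | c' e = c' d ∧ e ∉ S'})) ≤ H := by
    intro F
    induction F using Finset.induction_on with
    | empty =>
      refine le_trans (SymP.mono ?_) s2
      rintro e (h | h)
      · exact absurd h.2 (Finset.notMem_empty _)
      · exact h
    | @insert i F _ ih =>
      by_cases hi : ∃ d', c' d' = i ∧ c₀ d' = c₀ d
      · obtain ⟨d', rfl, hd'⟩ := hi
        refine le_trans (SymP.mono ?_) (symP_union (hB (c' d')) ih ?_)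
        · rintro e (⟨h1, h2⟩ | h1)
          · rcases Finset.mem_insert.1 h2 with h3 | h3
            · exact Or.inl ⟨h3, h1.2⟩
            · exact Or.inr (Or.inl ⟨h1, h3⟩)
          · exact Or.inr (Or.inr h1)
        · refine (hAB d d' hd'.symm).mono ?_
          rintro e ⟨h1, h2⟩
          exact ⟨h2, Or.inr (Or.inl ⟨ref _ _ h1.1, h1.2⟩)⟩
      · refine le_trans (SymP.mono ?_) ih
        rintro e (⟨h1, h2⟩ | h1)
        · rcases Finset.mem_insert.1 h2 with h3 | h3
          · exact absurd ⟨e, h3, h1.1⟩ hi
          · exact Or.inl ⟨h1, h3⟩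
        · exact Or.inr h1
  refine le_trans (SymP.mono ?_) (s3 fc'.toFinset)
  rintro e ⟨h1, h2⟩
  by_cases h3 : e ∈ S
  · exact Or.inl ⟨⟨h1, fun h4 => h2 ⟨h3, h4⟩⟩, fc'.mem_toFinset.2 ⟨e, rfl⟩⟩
  · exact Or.inr (Or.inl ⟨h1, h3⟩)

/-- generation -/
theorem gen_fixP {H : Subgroup (Equiv.Perm ℕ)} {S₀ S S' : Finset ℕ} {c c' c₀ : ℕ → ℕ}
    (fc : (Set.range c).Finite) (fc' : (Set.range c').Finite) (fc₀ : (Set.range c₀).Finite)
    (ref : ∀ d e, c d = c e → c₀ d = c₀ e)
    (h : FixP S c ≤ H) (h' : FixP S' c' ≤ H) (hS : ∀ s ∈ S, s ∈ S' → s ∈ S₀)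
    (hgp : ∀ d d', c₀ d = c₀ d' → {e | c e = c d ∧ c' e = c' d'}.Infinite) :
    FixP S₀ c₀ ≤ H := by
  classical
  have key : ∀ F : Finset ℕ, ∀ g ∈ FixP S₀ c₀, (∀ e, c₀ e ∉ F → g e = e) → g ∈ H := by
    intro F
    induction F using Finset.induction_on with
    | empty =>
      intro g _ hg
      have : g = 1 := Equiv.ext fun e => hg e (Finset.notMem_empty _)
      rw [this]
      exact H.one_mem
    | @insert i F _ ih =>
      intro g hg hgF
      by_cases hi : ∃ d, c₀ d = i
      · obtain ⟨d, rfl⟩ := hi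
        have hp : ∀ x, c₀ (g x) = c₀ d ↔ c₀ x = c₀ d := fun x => by rw [hg.2]
        let k : Equiv.Perm ℕ := Equiv.Perm.ofSubtype (g.subtypePerm (p := fun x => c₀ x = c₀ d) hp)
        have k1 : ∀ x, c₀ x = c₀ d → k x = g x := fun x hx =>
          Equiv.Perm.ofSubtype_apply_of_mem (p := fun x => c₀ x = c₀ d) (g.subtypePerm hp) hx
        have k2 : ∀ x, c₀ x ≠ c₀ d → k x = x := fun x hx =>
          Equiv.Perm.ofSubtype_apply_of_not_mem (p := fun x => c₀ x = c₀ d) (g.subtypePerm hp) hx
        have kc : ∀ x, c₀ (k x) = c₀ x := by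
          intro x
          by_cases hx : c₀ x = c₀ d
          · rw [k1 x hx, hg.2]
          · rw [k2 x hx]
        have kS : ∀ s ∈ S₀, k s = s := by
          intro s hs
          by_cases hx : c₀ s = c₀ d
          · rw [k1 s hx, hg.1 s hs]
          · exact k2 s hx
        have hk : k ∈ FixP S₀ c₀ := ⟨kS, kc⟩
        have hkH : k ∈ H := by
          refine gen_block fc fc' ref h h' hgp d ?_
          intro x hx
          by_cases h1 : c₀ x = c₀ d
          · have h2 : x ∈ S ∧ x ∈ S' := by
              by_contra h2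
              exact hx ⟨h1, h2⟩
            exact kS x (hS x h2.1 h2.2)
          · exact k2 x h1
        have h3 : k⁻¹ * g ∈ H := by
          refine ih _ ((FixP S₀ c₀).mul_mem ((FixP S₀ c₀).inv_mem hk) hg) fun e he => ?_
          show k⁻¹ (g e) = e
          rw [Equiv.Perm.inv_eq_iff_eq]
          by_cases h1 : c₀ e = c₀ d
          · exact (k1 e h1).symm
          · rw [k2 e h1]
            exact hgF e fun hm => by
              rcases Finset.mem_insert.1 hm with h2 | h2
              · exact h1 h2
              · exact he h2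
        have := H.mul_mem hkH h3
        rwa [mul_inv_cancel_left] at this
      · refine ih g hg fun e he => hgF e fun hm => ?_
        rcases Finset.mem_insert.1 hm with h2 | h2
        · exact hi ⟨e, h2⟩
        · exact he h2
  intro g hg
  exact key fc₀.toFinset g hg fun e he => absurd (fc₀.mem_toFinset.2 ⟨e, rfl⟩) he

end Pool.Agent.Sym
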