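import Pool.Agent.Sym.Comb1

/-!
# Colourings in general position
-/

namespace Pool.Agent.Sym

/-- pigeonhole for colourings with finitely many colours -/
theorem exists_infinite_fibre {X : Set ℕ} (hX : X.Infinite) {w : ℕ → ℕ}
    (hw : (Set.range w).Finite) : ∃ x ∈ X, {y | y ∈ X ∧ w y = w x}.Infinite := by
  by_contra hcon
  push Not at hcon
  apply hX
  have h1 : ∀ i, {y | y ∈ X ∧ w y = i}.Finite := by
    intro i
    by_cases hi : ∃ x ∈ X, w x = i
    · obtain ⟨x, hx, rfl⟩ := hi
      exact hcon x hx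
    · refine Set.Finite.subset Set.finite_empty ?_
      rintro y ⟨hy, hy'⟩
      exact hi ⟨y, hy, hy'⟩
  refine (hw.biUnion fun i _ => h1 i).subset fun y hy => ?_
  rw [Set.mem_iUnion₂]
  exact ⟨w y, ⟨y, rfl⟩, hy, rfl⟩

/-- functions with infinite fibres -/
theorem exists_fibres {W Z : Set ℕ} (hW : W.Infinite) (hZ : Z.Nonempty) :
    ∃ t : ℕ → ℕ, (∀ e, t e ∈ Z) ∧ ∀ z ∈ Z, {e | e ∈ W ∧ t e = z}.Infinite := by
  classical
  obtain ⟨φ⟩ := equiv_of_infinite hW (Set.infinite_univ (α := ℕ))
  have hne : Nonempty Z := hZ.to_subtype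
  obtain ⟨f, hf⟩ := exists_surjective_nat Z
  obtain ⟨z0, hz0⟩ := hZ
  let t : ℕ → ℕ := fun e => if h : e ∈ W then (f (φ ⟨e, h⟩).1.unpair.1).1 else z0
  refine ⟨t, fun e => ?_, fun z hz => ?_⟩
  · simp only [t]
    split
    · exact (f _).2
    · exact hz0
  · obtain ⟨k, hk⟩ := hf ⟨z, hz⟩
    refine Set.infinite_of_injective_forall_mem
      (f := fun m : ℕ => ((φ.symm ⟨Nat.pair k m, trivial⟩ : W) : ℕ)) (fun a b hab => ?_)
      fun m => ⟨(φ.symm _).2, ?_⟩
    · have h1 := φ.symm.injective (Subtype.ext hab)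
      have h2 := congrArg Subtype.val h1
      exact (Nat.pair_eq_pair.1 h2).2
    · simp only [t]
      rw [dif_pos (φ.symm _).2]
      have : (φ ⟨((φ.symm ⟨Nat.pair k m, trivial⟩ : W) : ℕ), (φ.symm _).2⟩ : Set.univ) =
          ⟨Nat.pair k m, trivial⟩ := φ.apply_symm_apply _
      rw [this]
      simp only [Nat.unpair_pair]
      rw [hk]

/-- choosing distinct elements of infinite sets -/
theorem exists_strictMono_mem (X : ℕ → Set ℕ) (hX : ∀ n, (X n).Infinite) :
    ∃ t : ℕ → ℕ, StrictMono t ∧ ∀ n, t n ∈ X n := by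
  have h : ∀ n k : ℕ, ∃ m, k < m ∧ m ∈ X n := by
    intro n k
    obtain ⟨m, hm, hk⟩ := (hX n).exists_gt k
    exact ⟨m, hk, hm⟩
  choose nx h1 h2 using h
  let t : ℕ → ℕ := fun n => Nat.rec (nx 0 0) (fun n s => nx (n + 1) s) n
  refine ⟨t, strictMono_nat_of_lt_succ fun n => h1 _ _, fun n => ?_⟩
  cases n with
  | zero => exact h2 _ _
  | succ n => exact h2 _ _

/-- sampling: inside each infinite fibre of `w` outside `R` all elements of the block are values
of `t` infinitely often -/
theorem exists_sampling {w c₀ : ℕ → ℕ} {R : Set ℕ} (hw : ∀ d e, w d = w e → c₀ d = c₀ e) :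
    ∃ t : ℕ → ℕ, (∀ e, c₀ (t e) = c₀ e) ∧ ∀ d d', c₀ d = c₀ d' →
      {e | w e = w d ∧ e ∉ R}.Infinite → {e | (w e = w d ∧ e ∉ R) ∧ t e = d'}.Infinite := by
  classical
  have h : ∀ i, ∃ t : ℕ → ℕ, (∀ e, w e = i → c₀ (t e) = c₀ e) ∧ ∀ d d', w d = i → c₀ d = c₀ d' →
      {e | w e = i ∧ e ∉ R}.Infinite → {e | (w e = i ∧ e ∉ R) ∧ t e = d'}.Infinite := by
    intro i
    by_cases hi : {e | w e = i ∧ e ∉ R}.Infinite
    · obtain ⟨d0, hd0, _⟩ := hi.nonempty
      obtain ⟨t, h1, h2⟩ := exists_fibres hi (Z := {x | c₀ x = c₀ d0}) ⟨d0, rfl⟩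
      refine ⟨t, fun e he => ?_, fun d d' hd hdd _ => ?_⟩
      · have h3 : c₀ (t e) = c₀ d0 := h1 e
        rw [h3]
        exact hw _ _ (hd0.trans he.symm)
      · exact h2 d' (hdd.symm.trans (hw _ _ (hd.trans hd0.symm)))
    · exact ⟨id, fun e _ => rfl, fun d d' _ _ h => absurd h hi⟩
  choose t h1 h2 using h
  refine ⟨fun e => t (w e) e, fun e => h1 _ e rfl, fun d d' hdd hinf => ?_⟩
  refine (h2 (w d) d d' rfl hdd hinf).mono ?_
  rintro e ⟨he, he'⟩
  refine ⟨he, ?_⟩
  show t (w e) e = d'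
  rw [he.1]
  exact he'

/-- combinatorial data of a support below another one -/
structure CData where
  /-- fixed columns of the weaker support -/
  S₀ : Finset ℕ
  /-- fixed columns of the stronger support -/
  S : Finset ℕ
  /-- the colouring of the weaker support -/
  c₀ : ℕ → ℕ
  /-- the colouring of the stronger support -/
  c : ℕ → ℕ
  fin : (Set.range c).Finite
  sub : S₀ ⊆ S
  ref : ∀ d e, c d = c e → c₀ d = c₀ e
  inf : ∀ d, {e | c e = c d}.Infinite

/-- two copies of the stronger support are in general position -/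
def CData.GP (D : CData) (π π' : Equiv.Perm ℕ) : Prop :=
  (∀ s ∈ D.S, ∀ s' ∈ D.S, π s = π' s' → π s ∈ D.S₀) ∧
    ∀ d d', D.c₀ d = D.c₀ d' → {e | D.c (π⁻¹ e) = D.c d ∧ D.c (π'⁻¹ e) = D.c d'}.Infinite

theorem CData.GP.symm {D : CData} {π π' : Equiv.Perm ℕ} (h : D.GP π π') : D.GP π' π := by
  refine ⟨fun s hs s' hs' e => ?_, fun d d' hdd => ?_⟩
  · rw [e]
    exact h.1 s' hs' s hs e.symm
  · refine (h.2 d' d hdd.symm).mono ?_
    rintro e ⟨h1, h2⟩
    exact ⟨h2, h1⟩

/-- the extension lemma -/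
theorem CData.ext (D : CData) {w : ℕ → ℕ} {R N : Set ℕ} (M : Finset ℕ)
    (fw : (Set.range w).Finite) (hw : ∀ d e, w d = w e → D.c₀ d = D.c₀ e)
    (h2 : ∀ d, {e | D.c e = D.c d ∧ e ∉ R}.Infinite)
    (h3 : ∀ s ∈ D.S, s ∉ D.S₀ → s ∉ R)
    (h4 : ∀ d, {e | D.c₀ e = D.c₀ d ∧ e ∈ N ∧ e ∉ R}.Infinite) :
    ∃ π ∈ FixP D.S₀ D.c₀, (∀ e ∈ R, π e = e) ∧ (∀ s ∈ D.S, s ∉ D.S₀ → π s ∈ N ∧ π s ∉ M) ∧
      ∀ d d', D.c₀ d = D.c₀ d' → {e | w e = w d ∧ e ∉ R}.Infinite →
        {e | (w e = w d ∧ e ∉ R) ∧ D.c (π⁻¹ e) = D.c d'}.Infinite := by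
  classical
  obtain ⟨t, ht, ht'⟩ := exists_sampling (R := R) hw
  -- fresh points
  obtain ⟨τ, hτ, hτ'⟩ := exists_strictMono_mem
    (fun s => {e | e ∈ {e | e ∈ {e | D.c₀ e = D.c₀ s ∧ e ∈ N ∧ e ∉ R} ∧ e ∉ M} ∧ e ∉ D.S₀})
    (fun s => infinite_diff_finset (infinite_diff_finset (h4 s) M) D.S₀)
  let P : Finset ℕ := (D.S \ D.S₀).image τ
  have hP : ∀ e, e ∈ P ↔ ∃ s, s ∈ D.S ∧ s ∉ D.S₀ ∧ τ s = e := by
    intro e
    simp only [P, Finset.mem_image, Finset.mem_sdiff]
    constructor
    · rintro ⟨s, ⟨h, h'⟩, h''⟩; exact ⟨s, h, h', h''⟩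
    · rintro ⟨s, h, h', h''⟩; exact ⟨s, ⟨h, h'⟩, h''⟩
  have hinv : ∀ s, Function.invFun τ (τ s) = s := Function.leftInverse_invFun hτ.injective
  let u : ℕ → ℕ ⊕ (ℕ ⊕ ℕ) := fun e => if e ∈ R ∨ e ∈ D.S₀ then .inl e else
    if e ∈ D.S then .inr (.inl e) else .inr (.inr (D.c e))
  let v : ℕ → ℕ ⊕ (ℕ ⊕ ℕ) := fun e => if e ∈ R ∨ e ∈ D.S₀ then .inl e else
    if e ∈ P then .inr (.inl (Function.invFun τ e)) else .inr (.inr (D.c (t e)))
  have hPR : ∀ e ∈ P, ¬ (e ∈ R ∨ e ∈ D.S₀) := by
    intro e he h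
    obtain ⟨s, hs, hs', rfl⟩ := (hP e).1 he
    rcases h with h | h
    · exact (hτ' s).1.1.2.2 h
    · exact (hτ' s).2 h
  obtain ⟨π, hπ⟩ := exists_perm u v (by
    rintro (z | z | i)
    · refine Or.inl ?_
      ext y
      simp only [Set.mem_ofPred_eq, u, v]
      by_cases h : y ∈ R ∨ y ∈ D.S₀
      · rw [if_pos h, if_pos h]
      · rw [if_neg h, if_neg h]
        constructor
        · intro h'
          by_cases h5 : y ∈ D.S
          · rw [if_pos h5] at h'; cases h'
          · rw [if_neg h5] at h'; cases h'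
        · intro h'
          by_cases h5 : y ∈ P
          · rw [if_pos h5] at h'; cases h'
          · rw [if_neg h5] at h'; cases h'
    · by_cases hz : z ∈ D.S ∧ z ∉ D.S₀
      · refine Or.inr (Or.inl ⟨z, τ z, ?_, ?_⟩)
        · have hzR : ¬ (z ∈ R ∨ z ∈ D.S₀) := by
            rintro (h | h)
            · exact h3 z hz.1 hz.2 h
            · exact hz.2 h
          ext y
          simp only [Set.mem_ofPred_eq, Set.mem_singleton_iff, u]
          constructor
          · intro h
            by_cases h5 : y ∈ R ∨ y ∈ D.S₀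
            · rw [if_pos h5] at h; cases h
            · rw [if_neg h5] at h
              by_cases h6 : y ∈ D.S
              · rw [if_pos h6] at h; exact Sum.inl.inj (Sum.inr.inj h)
              · rw [if_neg h6] at h; cases h
          · rintro rfl
            rw [if_neg hzR, if_pos hz.1]
        · have hzP : τ z ∈ P := (hP _).2 ⟨z, hz.1, hz.2, rfl⟩
          ext y
          simp only [Set.mem_ofPred_eq, Set.mem_singleton_iff, v]
          constructor
          · intro h
            by_cases h5 : y ∈ R ∨ y ∈ D.S₀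
            · rw [if_pos h5] at h; cases h
            · rw [if_neg h5] at h
              by_cases h6 : y ∈ P
              · rw [if_pos h6] at h
                obtain ⟨s, _, _, rfl⟩ := (hP y).1 h6
                have := Sum.inl.inj (Sum.inr.inj h)
                rw [hinv] at this
                rw [this]
              · rw [if_neg h6] at h; cases h
          · rintro rfl
            rw [if_neg (hPR _ hzP), if_pos hzP, hinv]
      · refine Or.inl ?_
        ext y
        simp only [Set.mem_ofPred_eq, u, v]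
        constructor
        · intro h
          by_cases h5 : y ∈ R ∨ y ∈ D.S₀
          · rw [if_pos h5] at h; cases h
          · rw [if_neg h5] at h
            by_cases h6 : y ∈ D.S
            · rw [if_pos h6] at h
              have := Sum.inl.inj (Sum.inr.inj h)
              subst this
              exact absurd ⟨h6, fun h => h5 (Or.inr h)⟩ hz
            · rw [if_neg h6] at h; cases h
        · intro h
          by_cases h5 : y ∈ R ∨ y ∈ D.S₀
          · rw [if_pos h5] at h; cases h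
          · rw [if_neg h5] at h
            by_cases h6 : y ∈ P
            · rw [if_pos h6] at h
              obtain ⟨s, hs, hs', rfl⟩ := (hP y).1 h6
              have := Sum.inl.inj (Sum.inr.inj h)
              rw [hinv] at this
              subst this
              exact absurd ⟨hs, hs'⟩ hz
            · rw [if_neg h6] at h; cases h
    · by_cases hi : ∃ d, D.c d = i
      · obtain ⟨d, rfl⟩ := hi
        refine Or.inr (Or.inr ⟨?_, ?_⟩)
        · refine (infinite_diff_finset (h2 d) D.S).mono ?_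
          rintro e ⟨⟨h5, h6⟩, h7⟩
          have h8 : ¬ (e ∈ R ∨ e ∈ D.S₀) := by
            rintro (h | h)
            · exact h6 h
            · exact h7 (D.sub h)
          simp only [Set.mem_ofPred_eq, u]
          rw [if_neg h8, if_neg h7, h5]
        · -- some infinite fibre of `w` in the block of `d`
          obtain ⟨x, hx, hx'⟩ := exists_infinite_fibre (h2 d) fw
          have h5 : {e | w e = w x ∧ e ∉ R}.Infinite := by
            refine hx'.mono ?_
            rintro e ⟨h5, h6⟩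
            exact ⟨h6, h5.2⟩
          have h6 := ht' x d (D.ref _ _ hx.1) h5
          refine (infinite_diff_finset (infinite_diff_finset h6 D.S₀) P).mono ?_
          rintro e ⟨⟨⟨⟨h7, h8⟩, h9⟩, h10⟩, h11⟩
          have h12 : ¬ (e ∈ R ∨ e ∈ D.S₀) := by
            rintro (h | h)
            · exact h8 h
            · exact h10 h
          simp only [Set.mem_ofPred_eq, v]
          rw [if_neg h12, if_neg h11, h9]
      · refine Or.inl ?_
        ext y
        simp only [Set.mem_ofPred_eq, u, v]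
        constructor
        · intro h
          by_cases h5 : y ∈ R ∨ y ∈ D.S₀
          · rw [if_pos h5] at h; cases h
          · rw [if_neg h5] at h
            by_cases h6 : y ∈ D.S
            · rw [if_pos h6] at h; cases h
            · rw [if_neg h6] at h
              exact absurd ⟨y, Sum.inr.inj (Sum.inr.inj h)⟩ hi
        · intro h
          by_cases h5 : y ∈ R ∨ y ∈ D.S₀
          · rw [if_pos h5] at h; cases h
          · rw [if_neg h5] at h
            by_cases h6 : y ∈ P
            · rw [if_pos h6] at h; cases h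
            · rw [if_neg h6] at h
              exact absurd ⟨t y, Sum.inr.inj (Sum.inr.inj h)⟩ hi)
  -- properties of the permutation
  have p1 : ∀ e, (e ∈ R ∨ e ∈ D.S₀) → π e = e := by
    intro e he
    have h := hπ e
    simp only [u, v] at h
    rw [if_pos he] at h
    by_cases h5 : π e ∈ R ∨ π e ∈ D.S₀
    · rw [if_pos h5] at h; exact Sum.inl.inj h
    · rw [if_neg h5] at h
      by_cases h6 : π e ∈ P
      · rw [if_pos h6] at h; cases h
      · rw [if_neg h6] at h; cases h
  have p2 : ∀ s ∈ D.S, s ∉ D.S₀ → π s = τ s := by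
    intro s hs hs'
    have h := hπ s
    have hsR : ¬ (s ∈ R ∨ s ∈ D.S₀) := by
      rintro (h | h)
      · exact h3 s hs hs' h
      · exact hs' h
    simp only [u, v] at h
    rw [if_neg hsR, if_pos hs] at h
    by_cases h5 : π s ∈ R ∨ π s ∈ D.S₀
    · rw [if_pos h5] at h; cases h
    · rw [if_neg h5] at h
      by_cases h6 : π s ∈ P
      · rw [if_pos h6] at h
        have h7 := Sum.inl.inj (Sum.inr.inj h)
        obtain ⟨s', _, _, h8⟩ := (hP _).1 h6
        rw [← h8, hinv] at h7
        rw [← h8, h7]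
      · rw [if_neg h6] at h; cases h
  have p3 : ∀ e, ¬ (e ∈ R ∨ e ∈ D.S₀) → e ∉ P → D.c (π⁻¹ e) = D.c (t e) := by
    intro e he heP
    have h := hπ (π⁻¹ e)
    have e1 : π (π⁻¹ e) = e := π.apply_symm_apply e
    rw [e1] at h
    simp only [u, v] at h
    rw [if_neg he, if_neg heP] at h
    by_cases h5 : π⁻¹ e ∈ R ∨ π⁻¹ e ∈ D.S₀
    · rw [if_pos h5] at h; cases h
    · rw [if_neg h5] at h
      by_cases h6 : π⁻¹ e ∈ D.S
      · rw [if_pos h6] at h; cases h
      · rw [if_neg h6] at h
        exact (Sum.inr.inj (Sum.inr.inj h)).symm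
  refine ⟨π, ⟨fun s hs => p1 s (Or.inr hs), fun e => ?_⟩, fun e he => p1 e (Or.inl he), ?_, ?_⟩
  · by_cases he : e ∈ R ∨ e ∈ D.S₀
    · rw [p1 e he]
    · by_cases hs : e ∈ D.S
      · rw [p2 e hs fun h => he (Or.inr h)]
        exact (hτ' e).1.1.1
      · by_cases h5 : π e ∈ R ∨ π e ∈ D.S₀
        · have := π.injective (p1 _ h5)
          rw [this]
        · by_cases h6 : π e ∈ P
          · obtain ⟨s, hs1, hs2, hs3⟩ := (hP _).1 h6
            rw [← p2 s hs1 hs2] at hs3
            have := π.injective hs3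
            rw [this] at hs1
            exact absurd hs1 hs
          · have h7 := p3 _ h5 h6
            have e1 : π⁻¹ (π e) = e := π.symm_apply_apply e
            rw [e1] at h7
            have h8 := D.ref _ _ h7
            rw [ht] at h8
            exact h8.symm
  · intro s hs hs'
    rw [p2 s hs hs']
    exact ⟨(hτ' s).1.1.2.1, (hτ' s).1.2⟩
  · intro d d' hdd hinf
    refine (infinite_diff_finset (infinite_diff_finset (ht' d d' hdd hinf) D.S₀) P).mono ?_
    rintro e ⟨⟨⟨⟨h7, h8⟩, h9⟩, h10⟩, h11⟩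
    refine ⟨⟨h7, h8⟩, ?_⟩
    rw [p3 e (by rintro (h | h); exacts [h8 h, h10 h]) h11, h9]

end Pool.Agent.Sym
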