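import Pool.Agent.Sym.Comb2

/-!
# Many copies in general position, and a finer colouring
-/

namespace Pool.Agent.Sym

/-- splitting all fibres of a colouring -/
theorem CData.exists_split (D : CData) : ∃ h : ℕ → ℕ, (∀ e, h e = 0 ∨ h e = 1) ∧
    (∀ s ∈ D.S, h s = 0) ∧ (∀ d, {e | D.c e = D.c d ∧ h e = 0}.Infinite) ∧
    ∀ d, {e | D.c e = D.c d ∧ h e = 1}.Infinite := by
  classical
  have key : ∀ i, ∃ t : ℕ → ℕ, (∀ e, t e = 0 ∨ t e = 1) ∧ ∀ d, D.c d = i → ∀ b, (b = 0 ∨ b = 1) →
      {e | (D.c e = i ∧ e ∉ D.S) ∧ t e = b}.Infinite := by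
    intro i
    by_cases hi : ∃ d, D.c d = i
    · obtain ⟨d, rfl⟩ := hi
      obtain ⟨t, h1, h2⟩ := exists_fibres (infinite_diff_finset (D.inf d) D.S)
        (Z := {x | x = 0 ∨ x = 1}) ⟨0, Or.inl rfl⟩
      exact ⟨t, h1, fun _ _ b hb => h2 b hb⟩
    · exact ⟨fun _ => 0, fun _ => Or.inl rfl, fun d hd => absurd ⟨d, hd⟩ hi⟩
  choose t h1 h2 using key
  have hb : ∀ b, (b = 0 ∨ b = 1) → ∀ d,
      {e | D.c e = D.c d ∧ (if e ∈ D.S then 0 else t (D.c e) e) = b}.Infinite := by
    intro b hb d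
    refine (h2 (D.c d) d rfl b hb).mono ?_
    rintro e ⟨⟨h3, h4⟩, h5⟩
    refine ⟨h3, ?_⟩
    rw [if_neg h4, h3, h5]
  refine ⟨fun e => if e ∈ D.S then 0 else t (D.c e) e, fun e => ?_, fun s hs => if_pos hs,
    hb 0 (Or.inl rfl), hb 1 (Or.inr rfl)⟩
  dsimp only
  split
  · exact Or.inl rfl
  · exact h1 _ _

theorem inv_image_infinite {X : Set ℕ} (hX : X.Infinite) (π : Equiv.Perm ℕ) :
    {e | π⁻¹ e ∈ X}.Infinite := by
  have : π '' X ⊆ {e | π⁻¹ e ∈ X} := by
    rintro _ ⟨x, hx, rfl⟩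
    have e1 : π⁻¹ (π x) = x := π.symm_apply_apply x
    show π⁻¹ (π x) ∈ X
    rwa [e1]
  exact (hX.image π.injective.injOn).mono this

/-- the finer colouring, and copies in general position -/
theorem CData.exists_c2 (D : CData) (fc₀ : (Set.range D.c₀).Finite) :
    ∃ c₂ : ℕ → ℕ, (Set.range c₂).Finite ∧ (∀ d e, c₂ d = c₂ e → D.c₀ d = D.c₀ e) ∧
      (∀ n, ∃ π : Fin n → Equiv.Perm ℕ, (∀ i, π i ∈ FixP D.S₀ c₂) ∧
        ∀ i j, i ≠ j → D.GP (π i) (π j)) ∧
      ∀ n, ∃ π : Fin n → Equiv.Perm ℕ, (∀ i, π i ∈ FixP D.S₀ D.c₀) ∧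
        (∀ i j, i ≠ j → D.GP (π i) (π j)) ∧ ∀ i, ∀ π' ∈ FixP D.S₀ c₂, D.GP (π i) π' := by
  classical
  obtain ⟨h, h01, hS, hi0, hi1⟩ := D.exists_split
  let c₂ : ℕ → ℕ := fun e => Nat.pair (D.c₀ e) (if h e = 1 then D.c e + 1 else 0)
  have c₂_iff : ∀ d e, c₂ d = c₂ e → D.c₀ d = D.c₀ e ∧ (h d = 1 ↔ h e = 1) ∧
      (h d = 1 → D.c d = D.c e) := by
    intro d e hde
    obtain ⟨h1, h2⟩ := Nat.pair_eq_pair.1 hde
    refine ⟨h1, ?_, ?_⟩
    · by_cases h3 : h d = 1 <;> by_cases h4 : h e = 1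
      · exact ⟨fun _ => h4, fun _ => h3⟩
      · rw [if_pos h3, if_neg h4] at h2; omega
      · rw [if_neg h3, if_pos h4] at h2; omega
      · exact ⟨fun h => absurd h h3, fun h => absurd h h4⟩
    · intro h3
      by_cases h4 : h e = 1
      · rw [if_pos h3, if_pos h4] at h2; omega
      · rw [if_pos h3, if_neg h4] at h2; omega
  have c₂_eq1 : ∀ d e, D.c d = D.c e → h d = 1 → h e = 1 → c₂ d = c₂ e := by
    intro d e h1 h2 h3
    show Nat.pair _ _ = Nat.pair _ _
    rw [if_pos h2, if_pos h3, h1, D.ref _ _ h1]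
  have c₂_eq0 : ∀ d e, D.c₀ d = D.c₀ e → h d ≠ 1 → h e ≠ 1 → c₂ d = c₂ e := by
    intro d e h1 h2 h3
    show Nat.pair _ _ = Nat.pair _ _
    rw [if_neg h2, if_neg h3, h1]
  have f2 : (Set.range c₂).Finite := by
    have : (Set.range fun e => (if h e = 1 then D.c e + 1 else 0)).Finite := by
      refine ((D.fin.image (· + 1)).union (Set.finite_singleton 0)).subset ?_
      rintro _ ⟨e, rfl⟩
      by_cases he : h e = 1
      · left
        exact ⟨D.c e, ⟨e, rfl⟩, (if_pos he).symm⟩
      · right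
        exact if_neg he
    refine ((fc₀.prod this).image fun x => Nat.pair x.1 x.2).subset ?_
    rintro _ ⟨e, rfl⟩
    exact ⟨(D.c₀ e, _), ⟨⟨e, rfl⟩, ⟨e, rfl⟩⟩, rfl⟩
  have hneq : ∀ e, h e ≠ 1 ↔ h e = 0 := by
    intro e
    rcases h01 e with h' | h' <;> rw [h'] <;> simp
  have finpair : ∀ w w' : ℕ → ℕ, (Set.range w).Finite → (Set.range w').Finite →
      (Set.range fun e => Nat.pair (w e) (w' e)).Finite := by
    intro w w' hw hw'
    refine ((hw.prod hw').image fun x => Nat.pair x.1 x.2).subset ?_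
    rintro _ ⟨e, rfl⟩
    exact ⟨(w e, w' e), ⟨⟨e, rfl⟩, ⟨e, rfl⟩⟩, rfl⟩
  have fincomp : ∀ π : Equiv.Perm ℕ, (Set.range fun e => D.c (π⁻¹ e)).Finite := fun π =>
    D.fin.subset (by rintro _ ⟨e, rfl⟩; exact ⟨_, rfl⟩)
  -- points
  have points : ∀ (n : ℕ) (π : Fin n → Equiv.Perm ℕ) (π' : Equiv.Perm ℕ),
      (∀ s ∈ D.S₀, π' s = s) → (∀ s ∈ D.S, s ∉ D.S₀ →
        π' s ∉ (Finset.univ.biUnion fun i => D.S.image (π i))) →
      ∀ i, ∀ s ∈ D.S, ∀ s' ∈ D.S, π i s = π' s' → π i s ∈ D.S₀ := by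
    intro n π π' h0 h1 i s hs s' hs' e
    by_cases h2 : s' ∈ D.S₀
    · rw [e, h0 s' h2]; exact h2
    · exfalso
      apply h1 s' hs' h2
      rw [← e]
      exact Finset.mem_biUnion.2 ⟨i, Finset.mem_univ i, Finset.mem_image_of_mem _ hs⟩
  refine ⟨c₂, f2, fun d e hde => (c₂_iff d e hde).1, ?_, ?_⟩
  · -- copies preserving `c₂`
    have key : ∀ n, ∃ π : Fin n → Equiv.Perm ℕ, ∃ w : ℕ → ℕ, (Set.range w).Finite ∧
        (∀ d e, w d = w e → c₂ d = c₂ e) ∧
        (∀ i d e, w d = w e → D.c ((π i)⁻¹ d) = D.c ((π i)⁻¹ e)) ∧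
        (∀ i, π i ∈ FixP D.S₀ c₂) ∧ ∀ i j, i ≠ j → D.GP (π i) (π j) := by
      intro n
      induction n with
      | zero =>
        exact ⟨fun i => i.elim0, c₂, f2, fun _ _ h => h, fun i => i.elim0, fun i => i.elim0,
          fun i => i.elim0⟩
      | succ n ih =>
        obtain ⟨π, w, fw, hw, hwπ, hπ, hgp⟩ := ih
        obtain ⟨π', hπ', e1, e2, e3⟩ := D.ext (R := {e | h e = 1}) (N := Set.univ)
          (Finset.univ.biUnion fun i => D.S.image (π i)) fw
          (fun d e hde => (c₂_iff d e (hw d e hde)).1)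
          (fun d => (hi0 d).mono fun e he => ⟨he.1, (hneq e).2 he.2⟩)
          (fun s hs _ => (hneq s).2 (hS s hs))
          (fun d => (hi0 d).mono fun e he => ⟨D.ref _ _ he.1, trivial, (hneq e).2 he.2⟩)
        have hπ2 : π' ∈ FixP D.S₀ c₂ := by
          refine ⟨hπ'.1, fun e => ?_⟩
          by_cases he : h e = 1
          · rw [e1 e he]
          · refine c₂_eq0 _ _ (hπ'.2 e) (fun h' => ?_) he
            have := π'.injective (e1 _ h')
            rw [this] at h'
            exact he h'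
        have gp : ∀ i, D.GP (π i) π' := by
          intro i
          refine ⟨points n π π' hπ'.1 (fun s hs hs' => (e2 s hs hs').2) i, fun d d' hdd => ?_⟩
          have h5 := inv_image_infinite (hi0 d) (π i)
          obtain ⟨x, hx, hx'⟩ := exists_infinite_fibre h5 fw
          have hh : ∀ e, h ((π i)⁻¹ e) = 0 → h e ≠ 1 := by
            intro e he he'
            have h6 := (c₂_iff _ _ ((hπ i).2 ((π i)⁻¹ e))).2.1
            have e4 : (π i) ((π i)⁻¹ e) = e := (π i).apply_symm_apply e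
            rw [e4] at h6
            have := h6.1 he'
            rw [he] at this
            exact absurd this (by decide)
          have h6 : {e | w e = w x ∧ e ∉ {e | h e = 1}}.Infinite := by
            refine hx'.mono ?_
            rintro e ⟨h6, h7⟩
            exact ⟨h7, hh e h6.2⟩
          have h7 : D.c₀ x = D.c₀ d' := by
            rw [← hdd, ← D.ref _ _ hx.1]
            have h8 := (c₂_iff _ _ ((hπ i).2 ((π i)⁻¹ x))).1
            have e4 : (π i) ((π i)⁻¹ x) = x := (π i).apply_symm_apply x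
            rwa [e4] at h8
          refine (e3 x d' h7 h6).mono ?_
          rintro e ⟨⟨h8, _⟩, h9⟩
          exact ⟨(hwπ i e x h8).trans hx.1, h9⟩
        refine ⟨Fin.cons π' π, fun e => Nat.pair (w e) (D.c (π'⁻¹ e)), finpair _ _ fw (fincomp _),
          fun d e hde => hw d e (Nat.pair_eq_pair.1 hde).1, ?_, ?_, ?_⟩
        · intro i
          refine Fin.cases ?_ (fun i => ?_) i
          · intro d e hde
            exact (Nat.pair_eq_pair.1 hde).2
          · intro d e hde
            exact hwπ i d e (Nat.pair_eq_pair.1 hde).1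
        · intro i
          refine Fin.cases ?_ (fun i => ?_) i
          · exact hπ2
          · exact hπ i
        · intro i j
          refine Fin.cases ?_ (fun i => ?_) i
          · refine Fin.cases ?_ (fun j => ?_) j
            · intro h; exact absurd rfl h
            · intro _; exact (gp j).symm
          · refine Fin.cases ?_ (fun j => ?_) j
            · intro _; exact gp i
            · intro h
              exact hgp i j fun h' => h (by rw [h'])
    intro n
    obtain ⟨π, _, _, _, _, h1, h2⟩ := key n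
    exact ⟨π, h1, h2⟩
  · -- fibres of `c₂` are infinite
    have hc2inf : ∀ d, {e | c₂ e = c₂ d}.Infinite := by
      intro d
      by_cases hd : h d = 1
      · exact (hi1 d).mono fun e he => c₂_eq1 e d he.1 he.2 hd
      · exact (hi0 d).mono fun e he => c₂_eq0 e d (D.ref _ _ he.1) ((hneq e).2 he.2) hd
    have key : ∀ n, ∃ π : Fin n → Equiv.Perm ℕ, ∃ w : ℕ → ℕ, (Set.range w).Finite ∧
        (∀ d e, w d = w e → c₂ d = c₂ e) ∧
        (∀ i d e, w d = w e → D.c ((π i)⁻¹ d) = D.c ((π i)⁻¹ e)) ∧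
        (∀ i, π i ∈ FixP D.S₀ D.c₀) ∧ (∀ i j, i ≠ j → D.GP (π i) (π j)) ∧
        (∀ i, ∀ s ∈ D.S, s ∉ D.S₀ → h (π i s) = 1) ∧
        ∀ i d d', D.c₀ d = D.c₀ d' → {e | c₂ e = c₂ d ∧ D.c ((π i)⁻¹ e) = D.c d'}.Infinite := by
      intro n
      induction n with
      | zero =>
        exact ⟨fun i => i.elim0, c₂, f2, fun _ _ h => h, fun i => i.elim0, fun i => i.elim0,
          fun i => i.elim0, fun i => i.elim0, fun i => i.elim0⟩
      | succ n ih =>
        obtain ⟨π, w, fw, hw, hwπ, hπ, hgp, hs1, hI⟩ := ih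
        obtain ⟨π', hπ', e1, e2, e3⟩ := D.ext (R := ∅) (N := {e | h e = 1})
          (Finset.univ.biUnion fun i => D.S.image (π i)) fw
          (fun d e hde => (c₂_iff d e (hw d e hde)).1)
          (fun d => (D.inf d).mono fun e he => ⟨he, fun h => h.elim⟩)
          (fun s _ _ h => h.elim)
          (fun d => (hi1 d).mono fun e he => ⟨D.ref _ _ he.1, he.2, fun h => h.elim⟩)
        have e3' : ∀ d d', D.c₀ d = D.c₀ d' → {e | w e = w d}.Infinite →
            {e | w e = w d ∧ D.c (π'⁻¹ e) = D.c d'}.Infinite := by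
          intro d d' hdd hinf
          refine (e3 d d' hdd (hinf.mono fun e he => ⟨he, fun h => h.elim⟩)).mono ?_
          rintro e ⟨⟨h1, _⟩, h2⟩
          exact ⟨h1, h2⟩
        have gp : ∀ i, D.GP (π i) π' := by
          intro i
          refine ⟨points n π π' hπ'.1 (fun s hs hs' => (e2 s hs hs').2) i, fun d d' hdd => ?_⟩
          have h5 := inv_image_infinite (D.inf d) (π i)
          obtain ⟨x, hx, hx'⟩ := exists_infinite_fibre h5 fw
          have h6 : {e | w e = w x}.Infinite := by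
            refine hx'.mono ?_
            rintro e ⟨_, h7⟩
            exact h7
          have h7 : D.c₀ x = D.c₀ d' := by
            rw [← hdd, ← D.ref _ _ hx]
            have h8 := (hπ i).2 ((π i)⁻¹ x)
            have e4 : (π i) ((π i)⁻¹ x) = x := (π i).apply_symm_apply x
            rwa [e4] at h8
          refine (e3' x d' h7 h6).mono ?_
          rintro e ⟨h8, h9⟩
          exact ⟨(hwπ i e x h8).trans hx, h9⟩
        refine ⟨Fin.cons π' π, fun e => Nat.pair (w e) (D.c (π'⁻¹ e)), finpair _ _ fw (fincomp _),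
          fun d e hde => hw d e (Nat.pair_eq_pair.1 hde).1, ?_, ?_, ?_, ?_, ?_⟩
        · intro i
          refine Fin.cases ?_ (fun i => ?_) i
          · intro d e hde
            exact (Nat.pair_eq_pair.1 hde).2
          · intro d e hde
            exact hwπ i d e (Nat.pair_eq_pair.1 hde).1
        · intro i
          refine Fin.cases ?_ (fun i => ?_) i
          · exact hπ'
          · exact hπ i
        · intro i j
          refine Fin.cases ?_ (fun i => ?_) i
          · refine Fin.cases ?_ (fun j => ?_) j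
            · intro h; exact absurd rfl h
            · intro _; exact (gp j).symm
          · refine Fin.cases ?_ (fun j => ?_) j
            · intro _; exact gp i
            · intro h
              exact hgp i j fun h' => h (by rw [h'])
        · intro i
          refine Fin.cases ?_ (fun i => ?_) i
          · intro s hs hs'
            exact (e2 s hs hs').1
          · exact hs1 i
        · intro i
          refine Fin.cases ?_ (fun i => ?_) i
          · intro d d' hdd
            obtain ⟨x, hx, hx'⟩ := exists_infinite_fibre (hc2inf d) fw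
            have h6 : {e | w e = w x}.Infinite := by
              refine hx'.mono ?_
              rintro e ⟨_, h7⟩
              exact h7
            have h7 : D.c₀ x = D.c₀ d' := (c₂_iff _ _ hx).1.trans hdd
            refine (e3' x d' h7 h6).mono ?_
            rintro e ⟨h8, h9⟩
            exact ⟨(hw _ _ h8).trans hx, h9⟩
          · exact hI i
    intro n
    obtain ⟨π, _, _, _, _, h1, h2, h3, h4⟩ := key n
    refine ⟨π, h1, h2, fun i π' hπ' => ⟨?_, ?_⟩⟩
    · intro s hs s' hs' e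
      by_cases h5 : s ∈ D.S₀
      · rw [(h1 i).1 s h5]; exact h5
      · exfalso
        have h6 := h3 i s hs h5
        have h7 := (c₂_iff _ _ (hπ'.2 s')).2.1
        rw [← e] at h7
        have := h7.1 h6
        rw [hS s' hs'] at this
        exact absurd this (by decide)
    · intro d d' hdd
      obtain ⟨x, hx, hx1⟩ := (hi1 d').nonempty
      refine (h4 i x d ((D.ref _ _ hx).trans hdd.symm)).mono ?_
      rintro e ⟨h5, h6⟩
      refine ⟨h6, ?_⟩
      have h7 := hπ'.2 (π'⁻¹ e)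
      have e4 : π' (π'⁻¹ e) = e := π'.apply_symm_apply e
      rw [e4] at h7
      have h8 := c₂_iff _ _ (h7.symm.trans h5)
      exact (h8.2.2 (h8.2.1.2 hx1)).trans hx

/-- normalization: colourings with infinite fibres -/
theorem exists_normal (S₁ : Finset ℕ) (c₁ c₀ : ℕ → ℕ) (f1 : (Set.range c₁).Finite)
    (f0 : (Set.range c₀).Finite) (h0 : ∀ d, {e | c₀ e = c₀ d}.Infinite) :
    ∃ (S : Finset ℕ) (c : ℕ → ℕ), S₁ ⊆ S ∧ (Set.range c).Finite ∧
      (∀ d, {e | c e = c d}.Infinite) ∧ (∀ d e, c d = c e → c₀ d = c₀ e) ∧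
      ∀ g : Equiv.Perm ℕ, (∀ s ∈ S, g s = s) → (∀ e, c (g e) = c e) → ∀ e, c₁ (g e) = c₁ e := by
  classical
  let w : ℕ → ℕ := fun e => Nat.pair (c₀ e) (c₁ e)
  have fw : (Set.range w).Finite := by
    refine ((f0.prod f1).image fun x => Nat.pair x.1 x.2).subset ?_
    rintro _ ⟨e, rfl⟩
    exact ⟨(c₀ e, c₁ e), ⟨⟨e, rfl⟩, ⟨e, rfl⟩⟩, rfl⟩
  have hsmall : {e | ¬ {x | w x = w e}.Infinite}.Finite := by
    by_contra hcon
    obtain ⟨x, hx, hx'⟩ := exists_infinite_fibre (X := {e | ¬ {x | w x = w e}.Infinite}) hcon fw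
    apply hx
    refine hx'.mono ?_
    rintro e ⟨_, h⟩
    exact h
  have hr : ∀ e, ∃ x, c₀ x = c₀ e ∧ {y | w y = w x}.Infinite := by
    intro e
    obtain ⟨x, hx, hx'⟩ := exists_infinite_fibre (h0 e) fw
    refine ⟨x, hx, hx'.mono ?_⟩
    rintro y ⟨_, h⟩
    exact h
  choose r hr1 hr2 using hr
  let c : ℕ → ℕ := fun e => if {x | w x = w e}.Infinite then w e else w (r e)
  have hc1 : ∀ e, {x | w x = w e}.Infinite → c e = w e := fun e he => if_pos he
  have hc2 : ∀ e, ∃ x, c e = w x ∧ c₀ x = c₀ e ∧ {y | w y = w x}.Infinite := by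
    intro e
    by_cases he : {x | w x = w e}.Infinite
    · exact ⟨e, hc1 e he, rfl, he⟩
    · exact ⟨r e, if_neg he, hr1 e, hr2 e⟩
  refine ⟨S₁ ∪ hsmall.toFinset, c, Finset.subset_union_left, ?_, ?_, ?_, ?_⟩
  · refine fw.subset ?_
    rintro _ ⟨e, rfl⟩
    obtain ⟨x, hx, _⟩ := hc2 e
    exact ⟨x, hx.symm⟩
  · intro d
    obtain ⟨x, hx, _, hx'⟩ := hc2 d
    refine hx'.mono fun y hy => ?_
    show c y = c d
    have : {z | w z = w y}.Infinite := by
      have hy' : w y = w x := hy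
      rw [hy']; exact hx'
    rw [hc1 y this, hx]
    exact hy
  · intro d e hde
    obtain ⟨x, hx, h1, _⟩ := hc2 d
    obtain ⟨y, hy, h2, _⟩ := hc2 e
    rw [hx, hy] at hde
    rw [← h1, ← h2]
    exact (Nat.pair_eq_pair.1 hde).1
  · intro g hg hgc e
    by_cases he : {x | w x = w e}.Infinite
    · by_cases hge : {x | w x = w (g e)}.Infinite
      · have h1 := hgc e
        rw [hc1 e he, hc1 _ hge] at h1
        exact (Nat.pair_eq_pair.1 h1).2
      · have h1 : g e ∈ S₁ ∪ hsmall.toFinset :=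
          Finset.mem_union_right _ (hsmall.mem_toFinset.2 hge)
        have := g.injective (hg _ h1)
        rw [this]
    · have h1 : e ∈ S₁ ∪ hsmall.toFinset :=
        Finset.mem_union_right _ (hsmall.mem_toFinset.2 he)
      rw [hg e h1]

end Pool.Agent.Sym
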