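import Pool.Agent.Sym.Act

/-!
# The symmetric submodel and truth in it
-/

namespace Pool.Agent.Sym

open Pool.Agent.BVM

/-- renaming of variables -/
def ren : (ℕ → ℕ) → Fml → Fml
  | f, .mem i j => .mem (f i) (f j)
  | f, .eq i j => .eq (f i) (f j)
  | f, .neg a => .neg (ren f a)
  | f, .and a b => .and (ren f a) (ren f b)
  | f, .or a b => .or (ren f a) (ren f b)
  | f, .imp a b => .imp (ren f a) (ren f b)
  | f, .iff a b => .iff (ren f a) (ren f b)
  | f, .all a => .all (ren (fun n => Nat.casesOn n 0 fun m => f m + 1) a)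
  | f, .ex a => .ex (ren (fun n => Nat.casesOn n 0 fun m => f m + 1) a)

theorem sat_ren {M : Type*} {E : M → M → Prop} (φ : Fml) : ∀ (f : ℕ → ℕ) (v : ℕ → M),
    Sat E (ren f φ) v ↔ Sat E φ (fun i => v (f i)) := by
  induction φ with
  | mem i j => intro f v; exact Iff.rfl
  | eq i j => intro f v; exact Iff.rfl
  | neg a iha => intro f v; exact not_congr (iha f v)
  | and a b iha ihb => intro f v; exact and_congr (iha f v) (ihb f v)
  | or a b iha ihb => intro f v; exact or_congr (iha f v) (ihb f v)
  | imp a b iha ihb => intro f v; exact imp_congr (iha f v) (ihb f v)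
  | iff a b iha ihb => intro f v; exact iff_congr (iha f v) (ihb f v)
  | all a iha =>
    intro f v
    refine forall_congr' fun x => ?_
    rw [iha]
    have : (fun i => cons x v (Nat.casesOn i 0 fun m => f m + 1)) =
        cons x fun i => v (f i) := by
      funext i; cases i <;> rfl
    rw [this]
  | ex a iha =>
    intro f v
    refine exists_congr fun x => ?_
    rw [iha]
    have : (fun i => cons x v (Nat.casesOn i 0 fun m => f m + 1)) =
        cons x fun i => v (f i) := by
      funext i; cases i <;> rfl
    rw [this]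

/-- bound for the variables of a formula -/
def fvb : Fml → ℕ
  | .mem i j => max i j + 1
  | .eq i j => max i j + 1
  | .neg a => fvb a
  | .and a b => max (fvb a) (fvb b)
  | .or a b => max (fvb a) (fvb b)
  | .imp a b => max (fvb a) (fvb b)
  | .iff a b => max (fvb a) (fvb b)
  | .all a => fvb a
  | .ex a => fvb a

theorem cons_agree {M : Type*} {n : ℕ} {v v' : ℕ → M} (h : ∀ i, i < n → v i = v' i) (x : M) :
    ∀ i, i < n → cons x v i = cons x v' i := by
  intro i hi
  cases i with
  | zero => rfl
  | succ i => exact h i (by omega)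

theorem sat_agree {M : Type*} {E : M → M → Prop} (φ : Fml) : ∀ (v v' : ℕ → M),
    (∀ i, i < fvb φ → v i = v' i) → (Sat E φ v ↔ Sat E φ v') := by
  induction φ with
  | mem i j =>
    intro v v' h
    have h1 := h i (by simp only [fvb]; omega)
    have h2 := h j (by simp only [fvb]; omega)
    simp only [Sat, h1, h2]
  | eq i j =>
    intro v v' h
    have h1 := h i (by simp only [fvb]; omega)
    have h2 := h j (by simp only [fvb]; omega)
    simp only [Sat, h1, h2]
  | neg a iha => intro v v' h; exact not_congr (iha v v' h)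
  | and a b iha ihb =>
    intro v v' h
    exact and_congr (iha v v' fun i hi => h i (lt_of_lt_of_le hi (le_max_left _ _)))
      (ihb v v' fun i hi => h i (lt_of_lt_of_le hi (le_max_right _ _)))
  | or a b iha ihb =>
    intro v v' h
    exact or_congr (iha v v' fun i hi => h i (lt_of_lt_of_le hi (le_max_left _ _)))
      (ihb v v' fun i hi => h i (lt_of_lt_of_le hi (le_max_right _ _)))
  | imp a b iha ihb =>
    intro v v' h
    exact imp_congr (iha v v' fun i hi => h i (lt_of_lt_of_le hi (le_max_left _ _)))
      (ihb v v' fun i hi => h i (lt_of_lt_of_le hi (le_max_right _ _)))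
  | iff a b iha ihb =>
    intro v v' h
    exact iff_congr (iha v v' fun i hi => h i (lt_of_lt_of_le hi (le_max_left _ _)))
      (ihb v v' fun i hi => h i (lt_of_lt_of_le hi (le_max_right _ _)))
  | all a iha =>
    intro v v' h
    exact forall_congr' fun x => iha _ _ (cons_agree h x)
  | ex a iha =>
    intro v v' h
    exact exists_congr fun x => iha _ _ (cons_agree h x)

section

variable {B : Type} [CompleteBooleanAlgebra B] (S : Sys B)

/-- hereditarily symmetric names -/
abbrev HN : Type 1 := {x : BSet B // HS S x}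

/-- value of belonging to the symmetric submodel -/
noncomputable def hv (x : BSet B) : B := ⨆ y : HN S, eqv x y.1

theorem hv_congr : Congr (hv S) := by
  intro x y
  rw [hv, inf_iSup_eq]
  refine iSup_le fun z => le_iSup_of_le z ?_
  rw [eqv_symm x y]
  exact eqv_trans y x z.1

theorem hv_top (x : HN S) : hv S x.1 = ⊤ := by
  rw [eq_top_iff]
  exact le_iSup_of_le x (eqv_refl _).ge

/-- the action on hereditarily symmetric names -/
def HN.act (g : S.G) (x : HN S) : HN S := ⟨actN S g x.1, x.2.actN S g⟩

theorem HN.act_surj (g : S.G) : Function.Surjective (HN.act S g) := by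
  intro x
  refine ⟨HN.act S g⁻¹ x, Subtype.ext ?_⟩
  exact actN_actN_inv S g x.1

theorem hv_act (g : S.G) (x : BSet B) : hv S (actN S g x) = S.act g (hv S x) := by
  rw [hv, hv, act_iSup, ← (HN.act_surj S g).iSup_comp]
  refine iSup_congr fun y => ?_
  exact eqv_actN S g x y.1

theorem hv_all {Q : BSet B → B} (hQ : Congr Q) : (⨅ x, hv S x ⇨ Q x) = ⨅ x : HN S, Q x.1 := by
  refine le_antisymm (le_iInf fun x => ?_) (le_iInf fun x => ?_)
  · refine (iInf_le _ x.1).trans ?_
    rw [hv_top, top_himp]
  · rw [le_himp_iff, hv]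
    refine sup_elim inf_le_right fun y => ?_
    refine le_trans ?_ (hQ y.1 x)
    rw [eqv_symm]
    exact le_inf inf_le_right (inf_le_left.trans (inf_le_left.trans (iInf_le _ y)))

theorem hv_ex {Q : BSet B → B} (hQ : Congr Q) : (⨆ x, hv S x ⊓ Q x) = ⨆ x : HN S, Q x.1 := by
  refine le_antisymm (iSup_le fun x => ?_) (iSup_le fun x => ?_)
  · rw [hv, iSup_inf_eq]
    exact iSup_le fun y => le_iSup_of_le y (hQ x y.1)
  · refine le_iSup_of_le x.1 ?_
    rw [hv_top, top_inf_eq]

/-- values relativized to the symmetric submodel -/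
noncomputable def valR : Fml → (ℕ → BSet B) → B
  | .mem i j, v => memv (v i) (v j)
  | .eq i j, v => eqv (v i) (v j)
  | .neg a, v => (valR a v)ᶜ
  | .and a b, v => valR a v ⊓ valR b v
  | .or a b, v => valR a v ⊔ valR b v
  | .imp a b, v => valR a v ⇨ valR b v
  | .iff a b, v => (valR a v ⇨ valR b v) ⊓ (valR b v ⇨ valR a v)
  | .all a, v => ⨅ x, hv S x ⇨ valR a (cons x v)
  | .ex a, v => ⨆ x, hv S x ⊓ valR a (cons x v)

theorem valR_congr (φ : Fml) : ∀ (v v' : ℕ → BSet B) (e : B), (∀ i, e ≤ eqv (v i) (v' i)) →
    e ⊓ valR S φ v ≤ valR S φ v' := by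
  induction φ with
  | mem i j =>
    intro v v' e he
    refine le_trans ?_ (memv_congr_right (v' i) (v j) (v' j))
    refine le_inf (inf_le_left.trans (he j)) ?_
    refine le_trans ?_ (memv_congr_left (v i) (v' i) (v j))
    exact inf_le_inf_right _ (he i)
  | eq i j =>
    intro v v' e he
    refine le_trans ?_ (eqv_trans (v' i) (v i) (v' j))
    refine le_inf (inf_le_left.trans ((he i).trans (eqv_symm _ _).le)) ?_
    refine le_trans ?_ (eqv_trans (v i) (v j) (v' j))
    exact le_inf inf_le_right (inf_le_left.trans (he j))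
  | neg a iha =>
    intro v v' e he
    have h := iha v' v e fun i => (he i).trans (eqv_symm _ _).le
    show e ⊓ (valR S a v)ᶜ ≤ (valR S a v')ᶜ
    rw [← himp_bot, ← himp_bot]
    exact himp_congr_le h inf_le_right
  | and a b iha ihb =>
    intro v v' e he
    refine le_inf ?_ ?_
    · exact le_trans (inf_le_inf_left _ inf_le_left) (iha v v' e he)
    · exact le_trans (inf_le_inf_left _ inf_le_right) (ihb v v' e he)
  | or a b iha ihb =>
    intro v v' e he
    show e ⊓ (valR S a v ⊔ valR S b v) ≤ valR S a v' ⊔ valR S b v'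
    rw [inf_sup_left]
    exact sup_le_sup (iha v v' e he) (ihb v v' e he)
  | imp a b iha ihb =>
    intro v v' e he
    exact himp_congr_le (iha v' v e fun i => (he i).trans (eqv_symm _ _).le) (ihb v v' e he)
  | iff a b iha ihb =>
    intro v v' e he
    have he' : ∀ i, e ≤ eqv (v' i) (v i) := fun i => (he i).trans (eqv_symm _ _).le
    refine le_inf ?_ ?_
    · exact le_trans (inf_le_inf_left _ inf_le_left) (himp_congr_le (iha v' v e he')
        (ihb v v' e he))
    · exact le_trans (inf_le_inf_left _ inf_le_right) (himp_congr_le (ihb v' v e he')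
        (iha v v' e he))
  | all a iha =>
    intro v v' e he
    refine le_iInf fun x => ?_
    refine le_trans (inf_le_inf_left _ (iInf_le _ x)) ?_
    refine himp_congr_le inf_le_right (iha (cons x v) (cons x v') e ?_)
    intro i
    cases i with
    | zero => exact le_top.trans (eqv_refl x).ge
    | succ n => exact he n
  | ex a iha =>
    intro v v' e he
    show e ⊓ (⨆ x, hv S x ⊓ valR S a (cons x v)) ≤ ⨆ x, hv S x ⊓ valR S a (cons x v')
    rw [inf_iSup_eq]
    refine iSup_mono fun x => ?_
    refine le_inf (inf_le_right.trans inf_le_left) ?_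
    refine le_trans (inf_le_inf_left _ inf_le_right) (iha (cons x v) (cons x v') e ?_)
    intro i
    cases i with
    | zero => exact le_top.trans (eqv_refl x).ge
    | succ n => exact he n

theorem valR_congr1 (φ : Fml) (v : ℕ → BSet B) : Congr (fun x => valR S φ (cons x v)) := by
  intro x y
  refine valR_congr S φ (cons x v) (cons y v) (eqv x y) ?_
  intro i
  cases i with
  | zero => exact le_rfl
  | succ n => exact le_top.trans (eqv_refl _).ge

theorem valR_congr2 (φ : Fml) (v : ℕ → BSet B) (z : BSet B) :
    Congr (fun x => valR S φ (cons z (cons x v))) := by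
  intro x y
  refine valR_congr S φ _ _ (eqv x y) ?_
  intro i
  cases i with
  | zero => exact le_top.trans (eqv_refl _).ge
  | succ n =>
    cases n with
    | zero => exact le_rfl
    | succ n => exact le_top.trans (eqv_refl _).ge

theorem valR_eq_of (φ : Fml) {v v' : ℕ → BSet B} (h : ∀ i, eqv (v i) (v' i) = ⊤) :
    valR S φ v = valR S φ v' := by
  refine le_antisymm ?_ ?_
  · have := valR_congr S φ v v' ⊤ fun i => (h i).ge
    rwa [top_inf_eq] at this
  · have := valR_congr S φ v' v ⊤ fun i => by rw [eqv_symm, h i]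
    rwa [top_inf_eq] at this

theorem valR_agree (φ : Fml) : ∀ (v v' : ℕ → BSet B),
    (∀ i, i < fvb φ → v i = v' i) → valR S φ v = valR S φ v' := by
  induction φ with
  | mem i j =>
    intro v v' h
    have h1 := h i (by simp only [fvb]; omega)
    have h2 := h j (by simp only [fvb]; omega)
    simp only [valR, h1, h2]
  | eq i j =>
    intro v v' h
    have h1 := h i (by simp only [fvb]; omega)
    have h2 := h j (by simp only [fvb]; omega)
    simp only [valR, h1, h2]
  | neg a iha => intro v v' h; simp only [valR, iha v v' h]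
  | and a b iha ihb =>
    intro v v' h
    simp only [valR, iha v v' fun i hi => h i (lt_of_lt_of_le hi (le_max_left _ _)),
      ihb v v' fun i hi => h i (lt_of_lt_of_le hi (le_max_right _ _))]
  | or a b iha ihb =>
    intro v v' h
    simp only [valR, iha v v' fun i hi => h i (lt_of_lt_of_le hi (le_max_left _ _)),
      ihb v v' fun i hi => h i (lt_of_lt_of_le hi (le_max_right _ _))]
  | imp a b iha ihb =>
    intro v v' h
    simp only [valR, iha v v' fun i hi => h i (lt_of_lt_of_le hi (le_max_left _ _)),
      ihb v v' fun i hi => h i (lt_of_lt_of_le hi (le_max_right _ _))]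
  | iff a b iha ihb =>
    intro v v' h
    simp only [valR, iha v v' fun i hi => h i (lt_of_lt_of_le hi (le_max_left _ _)),
      ihb v v' fun i hi => h i (lt_of_lt_of_le hi (le_max_right _ _))]
  | all a iha =>
    intro v v' h
    simp only [valR, fun x => iha _ _ (cons_agree h x)]
  | ex a iha =>
    intro v v' h
    simp only [valR, fun x => iha _ _ (cons_agree h x)]

theorem cons_actN (g : S.G) (x : BSet B) (v : ℕ → BSet B) :
    (fun i => actN S g (cons x v i)) = cons (actN S g x) fun i => actN S g (v i) := by
  funext i; cases i <;> rfl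

theorem actN_surj (g : S.G) : Function.Surjective (actN S g) :=
  fun x => ⟨actN S g⁻¹ x, actN_actN_inv S g x⟩

theorem valR_act (g : S.G) (φ : Fml) : ∀ v : ℕ → BSet B,
    valR S φ (fun i => actN S g (v i)) = S.act g (valR S φ v) := by
  induction φ with
  | mem i j => intro v; exact memv_actN S g _ _
  | eq i j => intro v; exact eqv_actN S g _ _
  | neg a iha => intro v; simp only [valR, iha, act_compl]
  | and a b iha ihb => intro v; simp only [valR, iha, ihb, act_inf]
  | or a b iha ihb => intro v; simp only [valR, iha, ihb, act_sup]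
  | imp a b iha ihb => intro v; simp only [valR, iha, ihb, act_himp]
  | iff a b iha ihb => intro v; simp only [valR, iha, ihb, act_inf, act_himp]
  | all a iha =>
    intro v
    simp only [valR, act_iInf, act_himp]
    rw [← (actN_surj S g).iInf_comp]
    refine iInf_congr fun x => ?_
    rw [hv_act, ← cons_actN, iha]
  | ex a iha =>
    intro v
    simp only [valR, act_iSup, act_inf]
    rw [← (actN_surj S g).iSup_comp]
    refine iSup_congr fun x => ?_
    rw [hv_act, ← cons_actN, iha]

/-- the symmetric submodel -/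
def SMod (F : UF B) : Type 1 := {m : BVM.Mod F // ∃ x, m = BVM.Mod.mk F x ∧ F.U (hv S x)}

/-- membership in the symmetric submodel -/
def SE (F : UF B) (a b : SMod S F) : Prop := BVM.Mod.E F a.1 b.1

/-- the element with given name -/
def SMod.mk (F : UF B) (x : BSet B) (h : F.U (hv S x)) : SMod S F := ⟨BVM.Mod.mk F x, x, rfl, h⟩

theorem SMod.exists_rep {F : UF B} (m : SMod S F) : ∃ x h, m = SMod.mk S F x h := by
  obtain ⟨m, x, rfl, hx⟩ := m
  exact ⟨x, hx, rfl⟩

/-- the element with given hereditarily symmetric name -/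
def of (F : UF B) (x : HN S) : SMod S F := ⟨BVM.Mod.mk F x.1, x.1, rfl, by rw [hv_top]; exact F.top⟩

theorem losR (F : UF B) (φ : Fml) : ∀ (v : ℕ → BSet B) (h : ∀ i, F.U (hv S (v i))),
    Sat (SE S F) φ (fun i => SMod.mk S F (v i) (h i)) ↔ F.U (valR S φ v) := by
  have hcons : ∀ (x : BSet B) (hx : F.U (hv S x)) (v : ℕ → BSet B)
      (h : ∀ i, F.U (hv S (v i))), ∃ h' : ∀ i, F.U (hv S (cons x v i)),
      cons (SMod.mk S F x hx) (fun i => SMod.mk S F (v i) (h i)) =
      fun i => SMod.mk S F (cons x v i) (h' i) := by
    intro x hx v h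
    refine ⟨fun i => ?_, ?_⟩
    · cases i
      · exact hx
      · exact h _
    · funext i
      cases i <;> rfl
  induction φ with
  | mem i j => intro v h; exact BVM.Mod.E_mk
  | eq i j =>
    intro v h
    exact Subtype.ext_iff.trans BVM.Mod.mk_eq
  | neg a iha => intro v h; rw [Sat, valR, iha, F.compl_iff]
  | and a b iha ihb => intro v h; rw [Sat, valR, iha, ihb, F.inf_iff]
  | or a b iha ihb => intro v h; rw [Sat, valR, iha, ihb, F.sup_iff]
  | imp a b iha ihb => intro v h; rw [Sat, valR, iha, ihb, F.himp_iff]
  | iff a b iha ihb =>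
    intro v h
    rw [Sat, valR, iha, ihb, F.inf_iff, F.himp_iff, F.himp_iff]
    exact iff_iff_implies_and_implies
  | all a iha =>
    intro v h
    rw [Sat, valR]
    constructor
    · intro hall
      by_contra hcon
      rw [← F.compl_iff, compl_iInf] at hcon
      have hQ : Congr (fun x => (hv S x ⇨ valR S a (cons x v))ᶜ) := by
        intro x y
        have h1 := himp_congr_le (e := eqv x y) (a := hv S x) (a' := hv S y)
          (b := valR S a (cons x v)) (b' := valR S a (cons y v)) (by
            rw [eqv_symm]; exact hv_congr S y x) (valR_congr1 S a v x y)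
        have h2 := himp_congr_le (e := eqv x y) (a := hv S y) (a' := hv S x)
          (b := valR S a (cons y v)) (b' := valR S a (cons x v)) (hv_congr S x y) (by
            rw [eqv_symm]; exact valR_congr1 S a v y x)
        show eqv x y ⊓ (hv S x ⇨ valR S a (cons x v))ᶜ ≤ (hv S y ⇨ valR S a (cons y v))ᶜ
        rw [← himp_bot, ← himp_bot]
        exact himp_congr_le h2 inf_le_right
      obtain ⟨x, hx⟩ := hQ.full
      rw [← hx, compl_himp, sdiff_eq] at hcon
      rw [F.inf_iff, F.compl_iff] at hcon
      obtain ⟨h', e⟩ := hcons x hcon.1 v h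
      have := hall (SMod.mk S F x hcon.1)
      rw [e, iha] at this
      exact hcon.2 this
    · rintro hall ⟨m, x, rfl, hx⟩
      obtain ⟨h', e⟩ := hcons x hx v h
      show Sat _ a (cons (SMod.mk S F x hx) _)
      rw [e, iha]
      have := F.mono (iInf_le _ x) hall
      rw [F.himp_iff] at this
      exact this hx
  | ex a iha =>
    intro v h
    rw [Sat, valR]
    constructor
    · rintro ⟨⟨m, x, rfl, hx⟩, hs⟩
      obtain ⟨h', e⟩ := hcons x hx v h
      have hs' : Sat (SE S F) a (cons (SMod.mk S F x hx) fun i => SMod.mk S F (v i) (h i)) := hs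
      rw [e, iha] at hs'
      exact F.mono (le_iSup (fun x => hv S x ⊓ valR S a (cons x v)) x) (F.inf hx hs')
    · intro hs
      have hQ : Congr (fun x => hv S x ⊓ valR S a (cons x v)) :=
        (hv_congr S).inf (valR_congr1 S a v)
      obtain ⟨x, hx⟩ := hQ.full
      rw [← hx, F.inf_iff] at hs
      refine ⟨SMod.mk S F x hs.1, ?_⟩
      obtain ⟨h', e⟩ := hcons x hs.1 v h
      rw [e, iha]
      exact hs.2

/-- values of formulas at hereditarily symmetric names -/
noncomputable def valS (φ : Fml) (v : ℕ → HN S) : B := valR S φ fun i => (v i).1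

theorem cons_val (x : HN S) (v : ℕ → HN S) :
    (fun i => (cons x v i).1) = cons x.1 fun i => (v i).1 := by
  funext i; cases i <;> rfl

theorem cons_of (F : UF B) (x : HN S) (v : ℕ → HN S) :
    cons (of S F x) (fun i => of S F (v i)) = fun i => of S F (cons x v i) := by
  funext i; cases i <;> rfl

theorem valS_mem (i j : ℕ) (v : ℕ → HN S) : valS S (.mem i j) v = memv (v i).1 (v j).1 := rfl
theorem valS_eq (i j : ℕ) (v : ℕ → HN S) : valS S (.eq i j) v = eqv (v i).1 (v j).1 := rfl
theorem valS_neg (a : Fml) (v : ℕ → HN S) : valS S (.neg a) v = (valS S a v)ᶜ := rfl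
theorem valS_and (a b : Fml) (v : ℕ → HN S) :
    valS S (.and a b) v = valS S a v ⊓ valS S b v := rfl
theorem valS_or (a b : Fml) (v : ℕ → HN S) :
    valS S (.or a b) v = valS S a v ⊔ valS S b v := rfl
theorem valS_imp (a b : Fml) (v : ℕ → HN S) :
    valS S (.imp a b) v = valS S a v ⇨ valS S b v := rfl
theorem valS_iff (a b : Fml) (v : ℕ → HN S) :
    valS S (.iff a b) v = (valS S a v ⇨ valS S b v) ⊓ (valS S b v ⇨ valS S a v) := rfl

theorem valS_all (a : Fml) (v : ℕ → HN S) :
    valS S (.all a) v = ⨅ x : HN S, valS S a (cons x v) := by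
  simp only [valS, cons_val]
  exact hv_all S (valR_congr1 S a _)

theorem valS_ex (a : Fml) (v : ℕ → HN S) :
    valS S (.ex a) v = ⨆ x : HN S, valS S a (cons x v) := by
  simp only [valS, cons_val]
  exact hv_ex S (valR_congr1 S a _)

/-- truth in the symmetric submodel at hereditarily symmetric names -/
theorem los (F : UF B) (φ : Fml) (v : ℕ → HN S) :
    Sat (SE S F) φ (fun i => of S F (v i)) ↔ F.U (valS S φ v) :=
  losR S F φ (fun i => (v i).1) fun i => by rw [hv_top]; exact F.top

theorem valS_act (g : S.G) (φ : Fml) (v : ℕ → HN S) :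
    valS S φ (fun i => HN.act S g (v i)) = S.act g (valS S φ v) :=
  valR_act S g φ fun i => (v i).1

/-- it suffices to consider hereditarily symmetric names -/
theorem forall_of (φ : Fml) (v : ℕ → HN S) (c : B)
    (h : ∀ x : HN S, ∀ F : UF B, F.U c → Sat (SE S F) φ (cons (of S F x) fun i => of S F (v i)))
    (F : UF B) (hF : F.U c) (m : SMod S F) :
    Sat (SE S F) φ (cons m fun i => of S F (v i)) := by
  have h1 : c ≤ valS S (.all φ) v := by
    rw [valS_all]
    refine le_iInf fun x => le_of_uf fun F' hF' => ?_
    rw [← los, ← cons_of]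
    exact h x F' hF'
  exact (los S F (.all φ) v).2 (F.mono h1 hF) m

/-- splicing assignments -/
def splice {M : Type*} : ℕ → (ℕ → M) → (ℕ → M) → ℕ → M
  | 0, _, w => w
  | n + 1, v, w => cons (v 0) (splice n (fun i => v (i + 1)) w)

theorem splice_lt {M : Type*} (n : ℕ) : ∀ (v w : ℕ → M) (i : ℕ), i < n → splice n v w i = v i := by
  induction n with
  | zero => intro v w i hi; omega
  | succ n ih =>
    intro v w i hi
    cases i with
    | zero => rfl
    | succ i => exact ih _ w i (by omega)

theorem sat_splice (n : ℕ) : ∀ (φ : Fml),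
    (∀ (w : ℕ → HN S) (F : UF B), Sat (SE S F) φ fun i => of S F (w i)) →
    ∀ (F : UF B) (v : ℕ → SMod S F) (w : ℕ → HN S),
    Sat (SE S F) φ (splice n v fun i => of S F (w i)) := by
  induction n with
  | zero => intro φ h F v w; exact h w F
  | succ n ih =>
    intro φ h F v w
    have := ih (.all φ) (fun w F m => forall_of S φ w ⊤ (fun x F _ => by
      rw [cons_of]; exact h _ F) F F.top m) F (fun i => v (i + 1)) w
    exact this (v 0)

/-- formulas true at all hereditarily symmetric names are true everywhere -/
theorem sat_of_HN (x0 : HN S) (φ : Fml)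
    (h : ∀ (w : ℕ → HN S) (F : UF B), Sat (SE S F) φ fun i => of S F (w i))
    (F : UF B) (v : ℕ → SMod S F) : Sat (SE S F) φ v := by
  rw [sat_agree φ v (splice (fvb φ) v fun i => of S F x0)
    fun i hi => (splice_lt _ v _ i hi).symm]
  exact sat_splice S _ φ h F v fun _ => x0

end

end Pool.Agent.Sym
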