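import Pool.Agent.Sym.Sem
import Pool.Agent.Sym.Cohen
import Pool.Agent.Sym.Comb3

/-!
# Well-orderable parts of amorphous sets are finite
-/

namespace Pool.Agent.Forcing

open Pool.Agent.BVM Pool.Agent.Sym

theorem Forc.uf {p : Cond} {b : RO Cond} (h : Forc p b) {F : UF (RO Cond)} (hF : F.U (pt p)) :
    F.U b := F.mono (pt_le_iff.2 h) hF

end Pool.Agent.Forcing

namespace Pool.Agent.Sym

open Pool.Agent.BVM Pool.Agent.Forcing Pool.Agent.NSC

theorem forc_of_uf {p : Cond} {b : RO Cond} (h : ∀ F : UF (RO Cond), F.U (pt p) → F.U b) :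
    Forc p b := pt_le_iff.1 (le_of_uf h)

theorem uf_mono {p q : Cond} (h : q ≤ p) {F : UF (RO Cond)} (hF : F.U (pt q)) : F.U (pt p) :=
  F.mono (pt_le_iff.2 (forc_pt.2 fun r hr => ⟨r, le_rfl, hr.trans h⟩)) hF

theorem exists_uf_pt (p : Cond) : ∃ F : UF (RO Cond), F.U (pt p) := by
  refine exists_uf fun h => ?_
  have : Forc p (pt p) := forc_pt.2 fun r hr => ⟨r, le_rfl, hr⟩
  rw [h] at this
  exact forc_bot this

/-- `p` forces that `X` is amorphous -/
structure Am (p : Cond) (X : HN CS) : Prop where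
  inf : ∀ r ≤ p, ¬ Forc r (FN CS X)
  spl : ∀ Y Z : HN CS, ∀ r ≤ p, Forc r (SB CS Y X) →
    (∀ F : UF (RO Cond), F.U (pt p) → El CS F Z = El CS F X \ El CS F Y) →
    Forc r (FN CS Y ⊔ FN CS Z)

theorem am_of_val {p : Cond} {X : HN CS} (h : Forc p (valS CS (fAmor 0) fun _ => X)) :
    Am p X := by
  have h1 : ∀ F : UF (RO Cond), F.U (pt p) → Amorphous (SE CS F) (of CS F X) := by
    intro F hF
    exact (los CS F (fAmor 0) fun _ => X).2 (h.uf hF)
  constructor
  · intro r hr hf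
    obtain ⟨F, hF⟩ := exists_uf_pt r
    exact (h1 F (uf_mono hr hF)).1 ((FN_iff CS).1 (hf.uf hF))
  · intro Y Z r hr hY hZ
    refine forc_of_uf fun F hF => ?_
    rw [F.sup_iff, FN_iff, FN_iff]
    by_cases hf : NSC.Fin (SE CS F) (of CS F Y)
    · exact Or.inl hf
    · right
      refine (h1 F (uf_mono hr hF)).2 (of CS F Y) ((SB_iff CS).1 (hY.uf hF)) hf (of CS F Z) ?_
      intro t
      have := hZ F (uf_mono hr hF)
      have h2 : t ∈ El CS F Z ↔ t ∈ El CS F X \ El CS F Y := by rw [this]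
      exact h2

/-- value of: `z` is a finite subset of `X` -/
noncomputable def fs (z X : HN CS) : RO Cond := SB CS z X ⊓ FN CS z

theorem inv_of_supp {E : Spt} {φ : Fml} {v : ℕ → HN CS} (h : ∀ i, Supp CS E (v i).1) :
    ∀ g ∈ E.fix, CS.act g (valS CS φ v) = valS CS φ v := by
  intro g hg
  rw [← valS_act]
  exact valR_eq_of CS φ fun i => h i g hg

theorem fs_inv {E : Spt} {z X : HN CS} (hz : Supp CS E z.1) (hX : Supp CS E X.1) :
    ∀ g ∈ E.fix, CS.act g (fs z X) = fs z X := by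
  intro g hg
  rw [fs, act_inf]
  congr 1
  · refine inv_of_supp (v := cons z fun _ => X) ?_ g hg
    rintro (_ | i)
    · exact hz
    · exact hX
  · exact inv_of_supp (v := fun _ => z) (fun _ => hz) g hg

theorem SB_inv {E : Spt} {z X : HN CS} (hz : Supp CS E z.1) (hX : Supp CS E X.1) :
    ∀ g ∈ E.fix, CS.act g (SB CS z X) = SB CS z X := by
  refine inv_of_supp (v := cons z fun _ => X) ?_
  rintro (_ | i)
  · exact hz
  · exact hX

theorem FN_inv {E : Spt} {z : HN CS} (hz : Supp CS E z.1) :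
    ∀ g ∈ E.fix, CS.act g (FN CS z) = FN CS z :=
  inv_of_supp (v := fun _ => z) fun _ => hz

theorem NE_inv {E : Spt} {z : HN CS} (hz : Supp CS E z.1) :
    ∀ g ∈ E.fix, CS.act g (NE CS z) = NE CS z :=
  inv_of_supp (v := fun _ => z) fun _ => hz

theorem AM_inv {E : Spt} {z : HN CS} (hz : Supp CS E z.1) (n : ℕ) :
    ∀ g ∈ E.fix, CS.act g (AM CS n z) = AM CS n z := by
  intro g hg
  refine eq_of_uf fun F => ?_
  have h : ∀ k, CS.act g (BJ CS k z) = BJ CS k z := by
    intro k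
    rw [BJ, ← valS_act]
    refine valR_eq_of CS _ ?_
    rintro (_ | i)
    · show eqv (actN CS g (on k)) (on k) = ⊤
      rw [actN_on]
      exact eqv_refl _
    · exact hz g hg
  have h2 : CS.act g (AM CS n z) = (Finset.range (n + 1)).sup fun k => CS.act g (BJ CS k z) := by
    rw [AM]
    exact map_finset_sup (CS.act g) _ _
  rw [h2]
  simp only [h]
  rfl

/-- deciding the size -/
theorem exists_AM {q : Cond} {z : HN CS} (h : Forc q (FN CS z)) :
    ∃ r ≤ q, ∃ n, Forc r (AM CS n z) := by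
  rw [FN_eq'] at h
  obtain ⟨r, hr, n, hn⟩ := forc_iSup.1 h q le_rfl
  exact ⟨r, hr, n, hn⟩

theorem fn_of_dense {q : Cond} {z : HN CS} (h : ∀ r ≤ q, ∃ s ≤ r, Forc s (FN CS z)) :
    Forc q (FN CS z) := forc_iff_dense.2 h

/-- union of a set and a finite subset of `X` -/
theorem exists_next {p : Cond} {X : HN CS} {E : Spt} (hX : Supp CS E X.1) {A z : HN CS}
    (hA : Supp CS E A.1) (hAX : Forc p (fs A X)) (hz : Supp CS E z.1) :
    ∃ A' : HN CS, Supp CS E A'.1 ∧ Forc p (fs A' X) ∧ Forc p (SB CS A A') ∧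
      ∀ F : UF (RO Cond), F.U (pt p) → F.U (fs z X) → El CS F z ⊆ El CS F A' := by
  obtain ⟨z', hz', h1, h2⟩ := exists_cond CS hz (fs_inv hz hX)
  obtain ⟨A', hA', h3, h4⟩ := sepN CS (fun t => memv t A.1 ⊔ memv t z'.1)
    (congr_sup (Congr.mem_right _) (Congr.mem_right _)) hX (fun g hg t => by
      rw [act_sup, hA.memv CS hg, hz'.memv CS hg])
  have hAX' : ∀ F : UF (RO Cond), F.U (pt p) → El CS F A ⊆ El CS F X := by
    intro F hF
    have := hAX.uf hF
    rw [fs, F.inf_iff] at this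
    exact (SB_iff CS).1 this.1
  have hEl : ∀ F : UF (RO Cond), El CS F A' = El CS F X ∩ (El CS F A ∪ El CS F z') := by
    intro F
    ext m
    obtain ⟨t, ht, rfl⟩ := m.exists_rep
    rw [h4, F.sup_iff]
    exact Iff.rfl
  refine ⟨A', hA', ?_, ?_, ?_⟩
  · refine forc_inf.2 ⟨?_, ?_⟩
    · refine forc_of_uf fun F _ => ?_
      rw [SB_iff, hEl]
      exact Set.inter_subset_left
    · refine fn_of_dense fun r hr => ?_
      obtain ⟨r1, hr1, n, hn⟩ := exists_AM (forc_inf.1 (hAX.mono hr)).2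
      obtain ⟨r2, hr2, hd⟩ := forc_decide r1 (fs z X)
      rcases hd with hd | hd
      · obtain ⟨r3, hr3, m, hm⟩ := exists_AM (forc_inf.1 hd).2
        refine ⟨r3, hr3.trans (hr2.trans hr1), ?_⟩
        refine forc_of_uf fun F hF => F.mono (AM_le CS (n + m) A') ?_
        rw [AM_iff, hEl]
        have e1 := (AM_iff CS).1 (hn.uf (uf_mono (hr3.trans hr2) hF))
        have e2 := (AM_iff CS).1 (hm.uf hF)
        have e3 := (h2 F).1 (hd.uf (uf_mono hr3 hF))
        rw [e3]
        refine (Set.encard_le_encard Set.inter_subset_right).trans ?_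
        refine (Set.encard_union_le _ _).trans ?_
        rw [Nat.cast_add]
        exact add_le_add e1 e2
      · refine ⟨r2, hr2.trans hr1, ?_⟩
        refine forc_of_uf fun F hF => F.mono (AM_le CS n A') ?_
        rw [AM_iff, hEl]
        have e1 := (AM_iff CS).1 (hn.uf (uf_mono hr2 hF))
        have e3 := (h2 F).2 (F.compl_iff.1 (hd.uf hF))
        rw [e3, Set.union_empty]
        exact (Set.encard_le_encard Set.inter_subset_right).trans e1
  · refine forc_of_uf fun F hF => ?_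
    rw [SB_iff, hEl]
    exact fun m hm => ⟨hAX' F hF hm, Or.inl hm⟩
  · intro F hF hfs
    rw [hEl, (h2 F).1 hfs]
    rw [fs, F.inf_iff] at hfs
    exact fun m hm => ⟨(SB_iff CS).1 hfs.1 hm, Or.inr hm⟩

/-- the finite subsets of an amorphous set with a fixed support have a largest element, below
some condition -/
theorem lemW {p : Cond} {X : HN CS} (hAm : Am p X) {E : Spt} (hX : Supp CS E X.1) :
    ∃ q ≤ p, ∃ A : HN CS, Supp CS E A.1 ∧ Forc q (fs A X) ∧
      ∀ z : HN CS, Supp CS E z.1 → Forc q (fs z X ⇨ SB CS z A) := by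
  classical
  by_contra hcon
  push Not at hcon
  let C : Type 1 := {A : HN CS // Supp CS E A.1 ∧ Forc p (fs A X)}
  have hnext : ∀ (A : C) (q : Cond), ∃ A' : C, Forc p (SB CS A.1 A'.1) ∧
      (q ≤ p → ¬ Forc q (SB CS A'.1 A.1)) := by
    intro A q
    by_cases hq : q ≤ p
    · obtain ⟨z, hz, hz'⟩ := hcon q hq A.1 A.2.1 (A.2.2.mono hq)
      obtain ⟨A', h1, h2, h3, h4⟩ := exists_next hX A.2.1 A.2.2 hz
      refine ⟨⟨A', h1, h2⟩, h3, fun _ h5 => hz' ?_⟩
      refine forc_of_uf fun F hF => ?_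
      rw [F.himp_iff]
      intro h6
      rw [SB_iff]
      exact (h4 F (uf_mono hq hF) h6).trans ((SB_iff CS).1 (h5.uf hF))
    · refine ⟨A, ?_, fun h => absurd h hq⟩
      exact forc_of_uf fun F _ => (SB_iff CS).2 (Set.Subset.refl _)
  choose nx hn1 hn2 using hnext
  -- the empty set
  obtain ⟨A0, hA0, _, hA0'⟩ := exists_cond CS (c := ⊥) hX (fun g _ => act_bot CS g)
  have hA0e : ∀ F : UF (RO Cond), El CS F A0 = ∅ := fun F => (hA0' F).2 F.bot
  have hA0fs : Forc p (fs A0 X) := by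
    refine forc_of_uf fun F _ => ?_
    rw [fs, F.inf_iff]
    refine ⟨?_, F.mono (AM_le CS 0 A0) ?_⟩
    · rw [SB_iff, hA0e]
      exact Set.empty_subset _
    · rw [AM_iff, hA0e, Set.encard_empty]
      exact zero_le
  obtain ⟨e0, he0⟩ : ∃ e : ℕ → Cond, Function.Surjective e := by
    have : Nonempty Cond := ⟨Cond.one⟩
    exact exists_surjective_nat Cond
  let e : ℕ → Cond := fun i => e0 (i / 2).unpair.1
  let A : ℕ → C := fun n => Nat.rec (⟨A0, hA0, hA0fs⟩ : C) (fun i A => nx A (e i)) n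
  have hsucc : ∀ i, A (i + 1) = nx (A i) (e i) := fun i => rfl
  have hstep : ∀ i, ∀ F : UF (RO Cond), F.U (pt p) → El CS F (A i).1 ⊆ El CS F (A (i + 1)).1 := by
    intro i F hF
    have := (hn1 (A i) (e i)).uf hF
    rw [SB_iff] at this
    exact this
  have hmono : ∀ i j, i ≤ j → ∀ F : UF (RO Cond), F.U (pt p) →
      El CS F (A i).1 ⊆ El CS F (A j).1 := by
    intro i j hij F hF
    induction j, hij using Nat.le_induction with
    | base => exact Set.Subset.refl _
    | succ j _ ih => exact ih.trans (hstep j F hF)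
  have hAX : ∀ i, ∀ F : UF (RO Cond), F.U (pt p) → El CS F (A i).1 ⊆ El CS F X := by
    intro i F hF
    have := (A i).2.2.uf hF
    rw [fs, F.inf_iff] at this
    exact (SB_iff CS).1 this.1
  -- the subset
  let d : ℕ → BSet (RO Cond) → RO Cond := fun i t => memv t (A (i + 1)).1.1 ⊓ (memv t (A i).1.1)ᶜ
  have hd : ∀ i, Congr (d i) := fun i =>
    (Congr.mem_right _).inf (congr_compl (Congr.mem_right _))
  obtain ⟨Y, hY, hYm, hY'⟩ := sepN CS (fun t => ⨆ i, d (2 * i) t) (Congr.iSup fun i => hd (2 * i))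
    hX (fun g hg t => by
      rw [act_iSup]
      refine iSup_congr fun i => ?_
      show CS.act g (memv t (A (2 * i + 1)).1.1 ⊓ (memv t (A (2 * i)).1.1)ᶜ) =
        memv (actN CS g t) (A (2 * i + 1)).1.1 ⊓ (memv (actN CS g t) (A (2 * i)).1.1)ᶜ
      rw [act_inf, act_compl, (A (2 * i + 1)).2.1.memv CS hg, (A (2 * i)).2.1.memv CS hg])
  obtain ⟨Z, hZ, hZ'⟩ := exists_dif CS hX hY
  have hYe : ∀ i, ∀ F : UF (RO Cond), F.U (pt p) →
      El CS F (A (2 * i + 1)).1 \ El CS F (A (2 * i)).1 ⊆ El CS F Y := by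
    intro i F hF m hm
    have hmX := hAX (2 * i + 1) F hF hm.1
    obtain ⟨t, ht, rfl⟩ := m.exists_rep
    rw [hY']
    refine ⟨hmX, F.mono (le_iSup (fun i => d (2 * i) t) i) ?_⟩
    show F.U (memv t (A (2 * i + 1)).1.1 ⊓ (memv t (A (2 * i)).1.1)ᶜ)
    rw [F.inf_iff, F.compl_iff]
    exact hm
  have hZe : ∀ i, ∀ F : UF (RO Cond), F.U (pt p) →
      El CS F (A (2 * i + 1 + 1)).1 \ El CS F (A (2 * i + 1)).1 ⊆ El CS F Z := by
    intro i F hF m hm
    have hmX := hAX (2 * i + 1 + 1) F hF hm.1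
    rw [hZ']
    refine ⟨hmX, fun hmY => ?_⟩
    obtain ⟨t, ht, rfl⟩ := m.exists_rep
    rw [hY'] at hmY
    have h1 : pt p ⊓ d (2 * i + 1) t ≤ (⨆ j, d (2 * j) t)ᶜ := by
      rw [compl_iSup]
      refine le_iInf fun j => le_of_uf fun G hG => ?_
      rw [G.inf_iff] at hG
      rw [G.compl_iff]
      intro h2
      obtain ⟨hG1, hG2⟩ := hG
      have h3 : G.U (memv t (A (2 * i + 1 + 1)).1.1) ∧ ¬ G.U (memv t (A (2 * i + 1)).1.1) := by
        have : G.U (memv t (A (2 * i + 1 + 1)).1.1 ⊓ (memv t (A (2 * i + 1)).1.1)ᶜ) := hG2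
        rwa [G.inf_iff, G.compl_iff] at this
      have h4 : G.U (memv t (A (2 * j + 1)).1.1) ∧ ¬ G.U (memv t (A (2 * j)).1.1) := by
        have : G.U (memv t (A (2 * j + 1)).1.1 ⊓ (memv t (A (2 * j)).1.1)ᶜ) := h2
        rwa [G.inf_iff, G.compl_iff] at this
      have hv : G.U (hv CS t) := by
        have h5 : memv t (A (2 * j + 1)).1.1 ≤ Sym.hv CS t := by
          have h6 := (A (2 * j + 1)).1.2
          generalize (A (2 * j + 1)).1.1 = y at h6
          obtain ⟨α, C, c⟩ := y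
          rw [memv_mk, Sym.hv]
          exact iSup_le fun a => le_iSup_of_le ⟨C a, h6.2 a⟩ inf_le_right
        exact G.mono h5 h4.1
      rcases Nat.lt_or_ge (2 * i + 1) (2 * j + 1) with h5 | h5
      · have h6 : 2 * i + 1 + 1 ≤ 2 * j := by omega
        have := hmono _ _ h6 G hG1 (show SMod.mk CS G t hv ∈ El CS G (A (2 * i + 1 + 1)).1 from h3.1)
        exact h4.2 this
      · have := hmono _ _ h5 G hG1 (show SMod.mk CS G t hv ∈ El CS G (A (2 * j + 1)).1 from h4.1)
        exact h3.2 this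
    have h2 : F.U (d (2 * i + 1) t) := by
      show F.U (memv t (A (2 * i + 1 + 1)).1.1 ⊓ (memv t (A (2 * i + 1)).1.1)ᶜ)
      rw [F.inf_iff, F.compl_iff]
      exact hm
    have h3 := F.mono h1 (F.inf hF h2)
    rw [F.compl_iff] at h3
    exact h3 hmY.2
  -- both sets are infinite
  have big : ∀ (b : ℕ) (W : HN CS), (∀ i, ∀ F : UF (RO Cond), F.U (pt p) →
      El CS F (A (2 * i + b + 1)).1 \ El CS F (A (2 * i + b)).1 ⊆ El CS F W) → b < 2 →
      ∀ n : ℕ, ∀ q ≤ p, ∃ r ≤ q, ∃ N, ∀ F : UF (RO Cond), F.U (pt r) →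
        (n : ℕ∞) ≤ (El CS F W ∩ El CS F (A N).1).encard := by
    intro b W hW hb n
    induction n with
    | zero => exact fun q _ => ⟨q, le_rfl, 0, fun F _ => by simp⟩
    | succ n ih =>
      intro q hq
      obtain ⟨r, hr, N, hN⟩ := ih q hq
      obtain ⟨k, hk⟩ := he0 r
      have hi : e (2 * Nat.pair k N + b) = r := by
        show e0 ((2 * Nat.pair k N + b) / 2).unpair.1 = r
        have : (2 * Nat.pair k N + b) / 2 = Nat.pair k N := by omega
        rw [this, Nat.unpair_pair]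
        exact hk
      have hle : N ≤ 2 * Nat.pair k N + b := by
        have := Nat.right_le_pair k N
        omega
      have h1 := hn2 (A (2 * Nat.pair k N + b)) (e (2 * Nat.pair k N + b))
      rw [← hsucc, hi] at h1
      obtain ⟨r', hr', h2⟩ := not_forc (h1 (hr.trans hq))
      refine ⟨r', hr'.trans hr, 2 * Nat.pair k N + b + 1, fun F hF => ?_⟩
      have hFr : F.U (pt r) := uf_mono hr' hF
      have hFp : F.U (pt p) := uf_mono (hr.trans hq) hFr
      have h3 := h2.uf hF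
      rw [F.compl_iff, SB_iff, Set.not_subset] at h3
      obtain ⟨m, hm, hm'⟩ := h3
      have hmW := hW (Nat.pair k N) F hFp ⟨hm, hm'⟩
      have h4 : insert m (El CS F W ∩ El CS F (A N).1) ⊆
          El CS F W ∩ El CS F (A (2 * Nat.pair k N + b + 1)).1 := by
        rintro x (rfl | hx)
        · exact ⟨hmW, hm⟩
        · exact ⟨hx.1, hmono _ _ (hle.trans (Nat.le_succ _)) F hFp hx.2⟩
      have h5 : m ∉ El CS F W ∩ El CS F (A N).1 := fun h => hm' (hmono _ _ hle F hFp h.2)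
      refine le_trans ?_ (Set.encard_le_encard h4)
      rw [Set.encard_insert_of_notMem h5, Nat.cast_succ]
      exact add_le_add (hN F hFr) le_rfl
  have notfin : ∀ (b : ℕ) (W : HN CS), (∀ i, ∀ F : UF (RO Cond), F.U (pt p) →
      El CS F (A (2 * i + b + 1)).1 \ El CS F (A (2 * i + b)).1 ⊆ El CS F W) → b < 2 →
      ∀ q ≤ p, ¬ Forc q (FN CS W) := by
    intro b W hW hb q hq hf
    obtain ⟨r, hr, n, hn⟩ := exists_AM hf
    obtain ⟨r', hr', N, hN⟩ := big b W hW hb (n + 1) r (hr.trans hq)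
    obtain ⟨F, hF⟩ := exists_uf_pt r'
    have h1 := (AM_iff CS).1 (hn.uf (uf_mono hr' hF))
    have h2 := (hN F hF).trans ((Set.encard_le_encard Set.inter_subset_left).trans h1)
    have h3 : n + 1 ≤ n := by exact_mod_cast h2
    omega
  have h1 : Forc p (SB CS Y X) := by
    refine forc_of_uf fun F hF => ?_
    rw [SB_iff]
    intro m hm
    obtain ⟨t, ht, rfl⟩ := m.exists_rep
    exact ((hY' F t ht).1 hm).1
  have h2 := hAm.spl Y Z p le_rfl h1 fun F _ => hZ' F
  obtain ⟨q, hq, h3⟩ := forc_sup.1 h2 p le_rfl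
  rcases h3 with h3 | h3
  · exact notfin 0 Y (fun i F hF => hYe i F hF) (by omega) q hq h3
  · exact notfin 1 Z (fun i F hF => hZe i F hF) (by omega) q hq h3

end Pool.Agent.Sym
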