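import Pool.Agent.Sym.NAS1

/-!
# Tools for copies of names
-/

namespace Pool.Agent.Sym

open Pool.Agent.BVM Pool.Agent.Forcing Pool.Agent.NSC

/-- a permutation of the columns as a group element -/
def pp (k : Equiv.Perm ℕ) : Gp := ⟨k, fun _ _ => false⟩

theorem pp_mul (k k' : Equiv.Perm ℕ) : pp (k * k') = pp k * pp k' := rfl

theorem pp_inv (k : Equiv.Perm ℕ) : pp k⁻¹ = (pp k)⁻¹ := rfl

theorem pp_one : pp 1 = 1 := rfl

/-- flips are trivial on `E.T` -/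
theorem IsFlip.mem_fix {E : Spt} {a : Gp} (h : IsFlip E.T a) : a ∈ E.fix := by
  refine ⟨fun t ht => h.triv t ht, fun s _ => ?_, fun e => ?_⟩
  · rw [h.1]; rfl
  · rw [h.1]; rfl

theorem inv_of_fix {E : Spt} {b : RO Cond} (h : ∀ g ∈ E.fix, CS.act g b = b) : Inv E.T b :=
  fun _ ha => h _ ha.mem_fix

theorem forc_act_on {T : Finset ℕ} {a : Gp} (ha : Triv T a) {r : Cond} (hr : r.On T)
    {b : RO Cond} : Forc r (CS.act a b) ↔ Forc r b := by
  rw [forc_act, ha.inv.act_of_on hr]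

theorem act_pt_on {T : Finset ℕ} {a : Gp} (ha : Triv T a) {r : Cond} (hr : r.On T) :
    CS.act a (pt r) = pt r := by
  rw [act_pt, ha.act_of_on hr]

theorem fix_le {T S S' : Finset ℕ} {T' : Finset ℕ} {c c' : ℕ → ℕ} {hc hc'} (h1 : T ⊆ T')
    (h2 : S ⊆ S') (h3 : ∀ d e, c' d = c' e → c d = c e) :
    (⟨T', S', c', hc'⟩ : Spt).fix ≤ (⟨T, S, c, hc⟩ : Spt).fix :=
  fun _ ha => ⟨fun t ht => ha.1 t (h1 ht), fun s hs => ha.2.1 s (h2 hs),
    fun e => h3 _ _ (ha.2.2 e)⟩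

theorem fix_le' {E E' : Spt} (h1 : E.T ⊆ E'.T) (h2 : ∀ a ∈ E'.fix, ∀ s ∈ E.S, a.g s = s)
    (h3 : ∀ a ∈ E'.fix, ∀ e, E.c (a.g e) = E.c e) : E'.fix ≤ E.fix :=
  fun a ha => ⟨fun t ht => ha.1 t (h1 ht), h2 a ha, h3 a ha⟩

theorem SB_congr {x x' y y' : HN CS} (h : eqv x.1 x'.1 = ⊤) (h' : eqv y.1 y'.1 = ⊤) :
    SB CS x y = SB CS x' y' := by
  refine valR_eq_of CS _ ?_
  rintro (_ | i)
  · exact h
  · exact h'

theorem SB_act (a : Gp) (x y : HN CS) :
    SB CS (HN.act CS a x) (HN.act CS a y) = CS.act a (SB CS x y) := by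
  rw [SB, SB, ← valS_act]
  congr 1
  funext i
  cases i <;> rfl

theorem NE_act (a : Gp) (x : HN CS) : NE CS (HN.act CS a x) = CS.act a (NE CS x) := by
  rw [NE, NE, ← valS_act]

theorem BJ_act (a : Gp) (n : ℕ) (x : HN CS) : BJ CS n (HN.act CS a x) = CS.act a (BJ CS n x) := by
  rw [BJ, BJ, ← valS_act]
  refine valR_eq_of CS _ ?_
  rintro (_ | i)
  · show eqv (on n) (actN CS a (on n)) = ⊤
    rw [actN_on]
    exact eqv_refl _
  · exact eqv_refl _

theorem AM_act (a : Gp) (n : ℕ) (x : HN CS) : AM CS n (HN.act CS a x) = CS.act a (AM CS n x) := by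
  have h2 : CS.act a (AM CS n x) = (Finset.range (n + 1)).sup fun k => CS.act a (BJ CS k x) := by
    rw [AM]
    exact map_finset_sup (CS.act a) _ _
  rw [h2, AM]
  congr 1
  funext k
  exact BJ_act a k x

/-- subsets of finite sets are finite -/
theorem fn_mono {q : Cond} {A Q : HN CS} (h : Forc q (FN CS A))
    (hQ : ∀ F : UF (RO Cond), F.U (pt q) → El CS F Q ⊆ El CS F A) : Forc q (FN CS Q) := by
  refine fn_of_dense fun r hr => ?_
  obtain ⟨s, hs, n, hn⟩ := exists_AM (h.mono hr)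
  refine ⟨s, hs, forc_of_uf fun F hF => F.mono (AM_le CS n Q) ?_⟩
  rw [AM_iff]
  exact (Set.encard_le_encard (hQ F (uf_mono (hs.trans hr) hF))).trans
    ((AM_iff CS).1 (hn.uf hF))

theorem Am.mono {p q : Cond} {X : HN CS} (h : Am p X) (hq : q ≤ p) : Am q X := by
  constructor
  · exact fun r hr => h.inf r (hr.trans hq)
  · intro Y Z r hr hY hZ
    refine forc_of_uf fun F hF => ?_
    -- correct `Z` above `q`
    obtain ⟨E, hE⟩ := X.2.supp
    obtain ⟨E', hE'⟩ := Y.2.supp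
    obtain ⟨Z', _, hZ'⟩ := exists_dif CS (E := E.join E') (hE.mono CS (E.join_le E').1)
      (hE'.mono CS (E.join_le E').2)
    have h1 := (h.spl Y Z' r (hr.trans hq) hY fun F _ => hZ' F).uf hF
    rw [F.sup_iff] at h1 ⊢
    rcases h1 with h1 | h1
    · exact Or.inl h1
    · right
      have e : El CS F Z = El CS F Z' := by rw [hZ F (uf_mono hr hF), hZ' F]
      have e2 : of CS F Z = of CS F Z' := (of_eq CS).2 ((El_eq CS).1 e)
      rw [FN_iff] at h1 ⊢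
      rwa [e2]

/-- singletons -/
theorem exists_sing {E : Spt} {x : HN CS} (hx : Supp CS E x.1) :
    ∃ z : HN CS, Supp CS E z.1 ∧ ∀ F : UF (RO Cond), El CS F z = {of CS F x} := by
  refine ⟨⟨pr2 x.1 x.1, hs_pr2 CS x x⟩, ?_, fun F => ?_⟩
  · apply supp_of_memv
    intro g hg z
    show CS.act g (memv z (pr2 x.1 x.1)) = memv (actN CS g z) (pr2 x.1 x.1)
    rw [memv_pr2, memv_pr2, act_sup, ← eqv_actN]
    have e1 : ∀ w : BSet (RO Cond), Congr (fun x => eqv w x) := fun w x y => by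
      rw [inf_comm]; exact eqv_trans w x y
    rw [Congr.eq_of (e1 (actN CS g z)) (hx g hg)]
  · ext m
    obtain ⟨t, ht, rfl⟩ := m.exists_rep
    rw [mem_El_mk]
    show F.U (memv t (pr2 x.1 x.1)) ↔ _
    rw [memv_pr2, sup_idem, Set.mem_singleton_iff]
    exact (Subtype.ext_iff.trans BVM.Mod.mk_eq).symm

/-- the orbit of a point under flips -/
theorem exists_orbit {S₀ S : Finset ℕ} {c : ℕ → ℕ} {hc : (Set.range c).Finite} {x : HN CS} (hx : Supp CS (⟨S, S, c, hc⟩ : Spt) x.1) {p₁ : Cond}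
    (hp : p₁.On S) : ∃ Q : HN CS, Supp CS (⟨S₀, S, c, hc⟩ : Spt) Q.1 ∧
      ∀ z, memv z Q.1 = ⨆ τ : {a : Gp // IsFlip S₀ a},
        CS.act τ.1 (pt p₁) ⊓ eqv z (actN CS τ.1 x.1) := by
  let Q : BSet (RO Cond) := .mk {a : Gp // IsFlip S₀ a} (fun τ => actN CS τ.1 x.1)
    (fun τ => CS.act τ.1 (pt p₁))
  have hQ : ∀ z, memv z Q = ⨆ τ : {a : Gp // IsFlip S₀ a},
        CS.act τ.1 (pt p₁) ⊓ eqv z (actN CS τ.1 x.1) := fun z => memv_mk _ _ _
  have hle : ∀ g ∈ (⟨S₀, S, c, hc⟩ : Spt).fix, ∀ z, CS.act g (memv z Q) ≤ memv (actN CS g z) Q := by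
    intro g hg z
    rw [hQ, hQ, act_iSup]
    refine iSup_le fun τ => ?_
    -- the pure part of `g`
    have hg0 : pp g.g ∈ (⟨S, S, c, hc⟩ : Spt).fix :=
      ⟨fun t ht => ⟨hg.2.1 t ht, fun _ => rfl⟩, hg.2.1, hg.2.2⟩
    have hτ : IsFlip S₀ (g * τ.1 * (pp g.g)⁻¹) := by
      constructor
      · show g.g * τ.1.g * g.g⁻¹ = 1
        rw [τ.2.1, mul_one, mul_inv_cancel]
      · intro t ht n
        have e1 : g.g⁻¹ t = t := by rw [Equiv.Perm.inv_eq_iff_eq, (hg.1 t ht).1]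
        have e2 : τ.1.g t = t := by rw [τ.2.1]; rfl
        simp only [Gp.mul_f, Gp.inv_f, Gp.inv_g]
        show xor false (xor (τ.1.f (g.g⁻¹ t) n) (g.f (τ.1.g (g.g⁻¹ t)) n)) = false
        rw [e1, e2, τ.2.2 t ht, (hg.1 t ht).2]
        rfl
    refine le_iSup_of_le ⟨_, hτ⟩ ?_
    rw [act_inf, ← eqv_actN, ← actN_mul, ← act_mul]
    have e1 : CS.act (g * τ.1) (pt p₁) = CS.act (g * τ.1 * (pp g.g)⁻¹) (pt p₁) := by
      rw [act_mul CS (g * τ.1) (pp g.g)⁻¹]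
      congr 1
      exact (act_pt_on (Triv.inv (fun t ht => hg0.1 t ht)) hp).symm
    have e2 : eqv (actN CS g z) (actN CS (g * τ.1) x.1) =
        eqv (actN CS g z) (actN CS (g * τ.1 * (pp g.g)⁻¹) x.1) := by
      have e3 : ∀ w : BSet (RO Cond), Congr (fun x => eqv w x) := fun w x y => by
        rw [inf_comm]; exact eqv_trans w x y
      refine Congr.eq_of (e3 _) ?_
      rw [actN_mul CS (g * τ.1) (pp g.g)⁻¹, eqv_actN]
      have := hx _ ((Spt.fix _).inv_mem hg0)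
      rw [eqv_symm] at this
      rw [this, act_top]
    rw [e1, e2]
  have hsupp : Supp CS (⟨S₀, S, c, hc⟩ : Spt) Q := by
    apply supp_of_memv
    intro g hg z
    refine le_antisymm (hle g hg z) ?_
    have h1 := hle g⁻¹ ((Spt.fix _).inv_mem hg) (actN CS g z)
    have h2 := act_mono CS (g := g) h1
    rwa [act_act_inv, actN_inv_actN] at h2
  exact ⟨⟨Q, ⟨_, hsupp⟩, fun τ => x.2.actN CS τ.1⟩, hsupp, hQ⟩

/-- flips preserve full supports -/
theorem supp_flip {S : Finset ℕ} {c : ℕ → ℕ} {hc : (Set.range c).Finite} {S₀ : Finset ℕ} {x : HN CS}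
    (hx : Supp CS (⟨S, S, c, hc⟩ : Spt) x.1) {τ : Gp} (hτ : IsFlip S₀ τ) :
    Supp CS (⟨S, S, c, hc⟩ : Spt) (actN CS τ x.1) := by
  refine Supp.conj CS (E := (⟨S, S, c, hc⟩ : Spt)) (fun h hh => ?_) hx
  have e : (τ⁻¹ * h * τ).g = h.g := by
    show τ.g⁻¹ * h.g * τ.g = h.g
    rw [hτ.1]
    simp
  refine ⟨fun t ht => ⟨?_, fun n => ?_⟩, fun s hs => ?_, fun d => ?_⟩
  · rw [e]; exact (hh.1 t ht).1
  · have e2 : τ.g t = t := by rw [hτ.1]; rfl
    have e3 : τ.g⁻¹ t = t := by rw [hτ.1]; rfl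
    simp only [Gp.mul_f, Gp.inv_f]
    rw [e2, (hh.1 t ht).1, (hh.1 t ht).2, e3]
    simp
  · rw [e]; exact hh.2.1 s hs
  · rw [e]; exact hh.2.2 d

/-- disjoint nonempty sets -/
theorem le_encard_of_disjoint {α : Type*} {n : ℕ} {W : Set α} (A : Fin n → Set α)
    (h1 : ∀ i, (A i).Nonempty) (h2 : ∀ i j, i ≠ j → A i ∩ A j = ∅) (h3 : ∀ i, A i ⊆ W) :
    (n : ℕ∞) ≤ W.encard := by
  choose a ha using h1
  have hinj : Function.Injective a := by
    intro i j hij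
    by_contra hne
    have : a i ∈ A i ∩ A j := ⟨ha i, by rw [hij]; exact ha j⟩
    rw [h2 i j hne] at this
    exact this
  have h4 : Set.range a ⊆ W := by
    rintro _ ⟨i, rfl⟩
    exact h3 i (ha i)
  refine le_trans ?_ (Set.encard_le_encard h4)
  rw [← Set.image_univ, hinj.encard_image, Set.encard_univ, ENat.card_eq_coe_fintype_card,
    Fintype.card_fin]

end Pool.Agent.Sym
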