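import Pool.Agent.Sym.NAS2

/-!
# There are no amorphous sets in the symmetric submodels
-/

namespace Pool.Agent.Sym

open Pool.Agent.BVM Pool.Agent.Forcing Pool.Agent.NSC

/-- data fixed in the proof: `X` is forced to be amorphous by `q₀`; its finite subsets with
support `E₀ = (S₀, S₀, c₀)` are contained in `A₀`, and `X₁ = X \ A₀` -/
structure Ctx where
  /-- the amorphous set -/
  X : HN CS
  /-- columns -/
  S₀ : Finset ℕ
  /-- colouring -/
  c₀ : ℕ → ℕ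
  f₀ : (Set.range c₀).Finite
  i₀ : ∀ d, {e | c₀ e = c₀ d}.Infinite
  /-- the condition -/
  q₀ : Cond
  on : q₀.On S₀
  am : Am q₀ X
  sX : Supp CS (⟨S₀, S₀, c₀, f₀⟩ : Spt) X.1
  /-- the removed finite set -/
  A₀ : HN CS
  sA : Supp CS (⟨S₀, S₀, c₀, f₀⟩ : Spt) A₀.1
  fA : Forc q₀ (fs A₀ X)
  mA : ∀ z : HN CS, Supp CS (⟨S₀, S₀, c₀, f₀⟩ : Spt) z.1 → Forc q₀ (fs z X ⇨ SB CS z A₀)
  /-- the difference -/
  X₁ : HN CS
  sX₁ : Supp CS (⟨S₀, S₀, c₀, f₀⟩ : Spt) X₁.1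
  eX₁ : ∀ F : UF (RO Cond), El CS F X₁ = El CS F X \ El CS F A₀

theorem exists_ctx {X : HN CS} {p : Cond} (h : Am p X) : ∃ C : Ctx, C.X = X := by
  obtain ⟨E₁, hE₁⟩ := X.2.supp
  obtain ⟨S₀, c₀, hS, f₀, i₀, _, hn⟩ := exists_normal (E₁.T ∪ E₁.S ∪ p.cols) E₁.c (fun _ => 0) E₁.fin
    ((Set.finite_singleton 0).subset (by rintro _ ⟨e, rfl⟩; rfl))
    (fun d => by
      have : {e : ℕ | (0 : ℕ) = 0} = Set.univ := by ext; simp
      show {e : ℕ | (0 : ℕ) = 0}.Infinite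
      rw [this]
      exact Set.infinite_univ)
  have hT : E₁.T ⊆ S₀ := fun t ht =>
    hS (Finset.mem_union_left _ (Finset.mem_union_left _ ht))
  have hS' : E₁.S ⊆ S₀ := fun t ht =>
    hS (Finset.mem_union_left _ (Finset.mem_union_right _ ht))
  have hle : (⟨S₀, S₀, c₀, f₀⟩ : Spt).fix ≤ E₁.fix :=
    fix_le' hT (fun a ha s hs => ha.2.1 s (hS' hs)) (fun a ha e => hn a.g ha.2.1 ha.2.2 e)
  have sX : Supp CS (⟨S₀, S₀, c₀, f₀⟩ : Spt) X.1 := hE₁.mono CS hle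
  have hpon : p.On S₀ := p.on_cols.mono fun t ht => hS (Finset.mem_union_right _ ht)
  obtain ⟨q, hq, A₀, sA, fA, mA⟩ := lemW h sX
  obtain ⟨X₁, sX₁, eX₁⟩ := exists_dif CS sX sA
  refine ⟨⟨X, S₀, c₀, f₀, i₀, q.res S₀, Cond.res_on _ _, h.mono (Cond.res_le_of_on hpon hq), sX,
    A₀, sA, ?_, ?_, X₁, sX₁, eX₁⟩, rfl⟩
  · exact (inv_of_fix (fs_inv sA sX)).forc_res fA
  · intro z hz
    refine Inv.forc_res (inv_of_fix (E := ⟨S₀, S₀, c₀, f₀⟩) fun g hg => ?_) (mA z hz)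
    rw [act_himp, fs_inv hz sX g hg, SB_inv hz sA g hg]

namespace Ctx

variable (C : Ctx)

theorem subX (F : UF (RO Cond)) : El CS F C.X₁ ⊆ El CS F C.X := by
  rw [C.eX₁]
  exact Set.sdiff_subset

/-- finite subsets of `X₁` with support `E₀` are empty -/
theorem empty_of {z : HN CS} (hz : Supp CS (⟨C.S₀, C.S₀, C.c₀, C.f₀⟩ : Spt) z.1)
    {F : UF (RO Cond)} (hF : F.U (pt C.q₀)) (h1 : El CS F z ⊆ El CS F C.X₁)
    (h2 : F.U (FN CS z)) : El CS F z = ∅ := by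
  have h3 := (C.mA z hz).uf hF
  rw [F.himp_iff, SB_iff, fs, F.inf_iff, SB_iff] at h3
  have h4 := h3 ⟨h1.trans (C.subX F), h2⟩
  rw [Set.eq_empty_iff_forall_notMem]
  intro m hm
  have h5 := h1 hm
  rw [C.eX₁] at h5
  exact h5.2 (h4 hm)

/-- a name with support `(S₀, S, c)` for a nonempty subset of `X₁` with at most `n` elements -/
def Small (n : ℕ) : Prop :=
  ∃ (q : Cond) (E : Spt) (Q : HN CS), q.On C.S₀ ∧ q ≤ C.q₀ ∧ E.T = C.S₀ ∧ Supp CS E Q.1 ∧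
    Forc q (NE CS Q ⊓ (SB CS Q C.X₁ ⊓ AM CS n Q))

theorem inv_small {E : Spt} (hT : E.T = C.S₀) {Q : HN CS} (hQ : Supp CS E Q.1) (n : ℕ) :
    Inv C.S₀ (NE CS Q ⊓ (SB CS Q C.X₁ ⊓ AM CS n Q)) := by
  have h1 : Inv C.S₀ (NE CS Q) := hT ▸ inv_of_fix (NE_inv hQ)
  have h2 : Inv C.S₀ (AM CS n Q) := hT ▸ inv_of_fix (AM_inv hQ n)
  have h3 : Inv C.S₀ (SB CS Q C.X₁) := by
    intro a ha
    rw [← SB_act]
    refine SB_congr ?_ ?_
    · exact hQ a (IsFlip.mem_fix (hT ▸ ha))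
    · exact C.sX₁ a (IsFlip.mem_fix (E := ⟨C.S₀, C.S₀, C.c₀, C.f₀⟩) ha)
  exact h1.inf (h3.inf h2)

theorem exists_small : ∃ n, C.Small n := by
  -- a point of `X₁`
  have hne : Forc C.q₀ (NE CS C.X₁) := by
    by_contra h
    obtain ⟨r, hr, h1⟩ := not_forc h
    apply C.am.inf r hr
    refine fn_mono ((forc_inf.1 (C.fA.mono hr)).2) fun F hF => ?_
    have h2 := h1.uf hF
    rw [F.compl_iff, NE_iff, Set.not_nonempty_iff_eq_empty, C.eX₁, Set.sdiff_eq_empty] at h2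
    exact h2
  obtain ⟨p₁, hp₁, x, hx⟩ : ∃ p₁ ≤ C.q₀, ∃ x : HN CS, Forc p₁ (memv x.1 C.X₁.1) := by
    rw [NE, valS_ex] at hne
    obtain ⟨r, hr, x, hx⟩ := forc_iSup.1 hne C.q₀ le_rfl
    exact ⟨r, hr, x, hx⟩
  obtain ⟨E₂, hE₂⟩ := x.2.supp
  obtain ⟨S, c, hS, fc, _, ref, hn⟩ := exists_normal (E₂.T ∪ E₂.S ∪ C.S₀ ∪ p₁.cols) E₂.c C.c₀
    E₂.fin C.f₀ C.i₀
  have s1 : E₂.T ⊆ S := fun t ht => hS (Finset.mem_union_left _
    (Finset.mem_union_left _ (Finset.mem_union_left _ ht)))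
  have s2 : E₂.S ⊆ S := fun t ht => hS (Finset.mem_union_left _
    (Finset.mem_union_left _ (Finset.mem_union_right _ ht)))
  have s3 : C.S₀ ⊆ S := fun t ht => hS (Finset.mem_union_left _ (Finset.mem_union_right _ ht))
  have s4 : p₁.On S := p₁.on_cols.mono fun t ht => hS (Finset.mem_union_right _ ht)
  have sx : Supp CS (⟨S, S, c, fc⟩ : Spt) x.1 := hE₂.mono CS
    (fix_le' s1 (fun a ha s hs => ha.2.1 s (s2 hs)) (fun a ha e => hn a.g ha.2.1 ha.2.2 e))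
  have le1 : (⟨S, S, c, fc⟩ : Spt).fix ≤ (⟨C.S₀, C.S₀, C.c₀, C.f₀⟩ : Spt).fix := fix_le s3 s3 ref
  have le2 : (⟨C.S₀, S, c, fc⟩ : Spt).fix ≤ (⟨C.S₀, C.S₀, C.c₀, C.f₀⟩ : Spt).fix :=
    fix_le (Finset.Subset.refl _) s3 ref
  obtain ⟨q₁, hq₁, A, sA, fA, mA⟩ := lemW (C.am.mono hp₁) (C.sX.mono CS le1)
  obtain ⟨Q, sQ, hQ⟩ := exists_orbit (S₀ := C.S₀) sx s4
  -- properties of the orbit
  have hτ : ∀ τ : {a : Gp // IsFlip C.S₀ a}, CS.act τ.1 (pt p₁) ≤ memv (actN CS τ.1 x.1) C.X₁.1 := by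
    intro τ
    have h1 := act_mono CS (g := τ.1) (pt_le_iff.2 hx)
    rw [← memv_actN] at h1
    refine h1.trans (le_of_eq ?_)
    exact Congr.eq_of (Congr.mem_left _)
      (C.sX₁ _ (IsFlip.mem_fix (E := ⟨C.S₀, C.S₀, C.c₀, C.f₀⟩) τ.2))
  have hQX : ∀ z, memv z Q.1 ≤ memv z C.X₁.1 := by
    intro z
    rw [hQ]
    refine iSup_le fun τ => ?_
    refine (inf_le_inf_right _ (hτ τ)).trans ?_
    rw [inf_comm, eqv_symm]
    exact memv_congr_left _ _ _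
  have hQA : ∀ z, pt q₁ ⊓ memv z Q.1 ≤ memv z A.1 := by
    intro z
    rw [hQ, inf_iSup_eq]
    refine iSup_le fun τ => le_of_uf fun F hF => ?_
    rw [F.inf_iff, F.inf_iff] at hF
    obtain ⟨hF1, hF2, hF3⟩ := hF
    let y : HN CS := HN.act CS τ.1 x
    obtain ⟨sg, ssg, esg⟩ := exists_sing (x := y) (supp_flip sx τ.2)
    have h1 := (mA sg ssg).uf hF1
    have h2 : of CS F y ∈ El CS F C.X₁ := F.mono (hτ τ) hF2
    rw [F.himp_iff, SB_iff, fs, F.inf_iff, SB_iff, esg] at h1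
    have h3 := h1 ⟨Set.singleton_subset_iff.2 (C.subX F h2), by
      refine F.mono (AM_le CS 1 sg) ?_
      rw [AM_iff, esg, Set.encard_singleton]
      exact le_rfl⟩
    have h4 : F.U (memv y.1 A.1) := h3 (Set.mem_singleton _)
    refine F.mono ?_ (F.inf hF3 h4)
    rw [eqv_symm]
    exact memv_congr_left _ _ _
  have hval : Forc q₁ (NE CS Q ⊓ (SB CS Q C.X₁ ⊓ FN CS Q)) := by
    refine forc_inf.2 ⟨forc_of_uf fun F hF => ?_, forc_inf.2 ⟨forc_of_uf fun F _ => ?_, ?_⟩⟩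
    · rw [NE_iff]
      refine ⟨of CS F x, ?_⟩
      show F.U (memv x.1 Q.1)
      refine F.mono ?_ (uf_mono hq₁ hF)
      rw [hQ]
      refine le_iSup_of_le ⟨1, rfl, fun t _ n => rfl⟩ ?_
      show pt p₁ ≤ CS.act (1 : Gp) (pt p₁) ⊓ eqv x.1 (actN CS (1 : Gp) x.1)
      rw [act_one CS, actN_one CS, eqv_refl, inf_top_eq]
    · rw [SB_iff]
      intro m hm
      obtain ⟨t, ht, rfl⟩ := m.exists_rep
      exact F.mono (hQX t) hm
    · refine fn_mono (A := A) (forc_inf.1 fA).2 fun F hF m hm => ?_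
      obtain ⟨t, ht, rfl⟩ := m.exists_rep
      exact F.mono (hQA t) (F.inf hF hm)
  obtain ⟨h1, h2⟩ := forc_inf.1 hval
  obtain ⟨h2, h3⟩ := forc_inf.1 h2
  obtain ⟨r, hr, n, hn⟩ := exists_AM h3
  refine ⟨n, r.res C.S₀, ⟨C.S₀, S, c, fc⟩, Q, Cond.res_on _ _, ?_, rfl, sQ, ?_⟩
  · exact Cond.res_le_of_on C.on (hr.trans (hq₁.trans hp₁))
  · refine (C.inv_small (E := ⟨C.S₀, S, c, fc⟩) rfl sQ n).forc_res ?_
    exact forc_inf.2 ⟨h1.mono hr, forc_inf.2 ⟨h2.mono hr, hn⟩⟩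

/-- small sets of minimal size are equal or disjoint -/
theorem eq_or_disjoint {n : ℕ} (hmin : ∀ m < n, ¬ C.Small m) {E E' : Spt} (hT : E.T = C.S₀)
    (hT' : E'.T = C.S₀) {Q Q' : HN CS} (hQ : Supp CS E Q.1) (hQ' : Supp CS E' Q'.1) {r : Cond}
    (hr : r ≤ C.q₀) (h : Forc r (SB CS Q C.X₁ ⊓ AM CS n Q))
    (h' : Forc r (SB CS Q' C.X₁ ⊓ AM CS n Q'))
    (hne : ∀ s ≤ r, ¬ Forc s (eqv Q.1 Q'.1)) {F : UF (RO Cond)} (hF : F.U (pt r)) :
    El CS F Q ∩ El CS F Q' = ∅ := by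
  have hJ : (E.join E').T = C.S₀ := by
    show E.T ∪ E'.T = C.S₀
    rw [hT, hT', Finset.union_self]
  obtain ⟨I, sI, eI⟩ := exists_int CS (E := E.join E') (hQ.mono CS (E.join_le E').1)
    (hQ'.mono CS (E.join_le E').2)
  have key : Forc r (NE CS I)ᶜ := by
    by_contra hcon
    obtain ⟨r', hr', h1⟩ := not_forc hcon
    rw [compl_compl] at h1
    -- pass to a condition deciding that the sets differ
    obtain ⟨s, hs, h2⟩ := not_forc (hne r' hr')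
    have hsr : s ≤ r := hs.trans hr'
    have hcard : ∀ G : UF (RO Cond), G.U (pt s) → (El CS G I).encard < n := by
      intro G hG
      have hGr := uf_mono hsr hG
      have a1 := h.uf hGr
      have a2 := h'.uf hGr
      rw [G.inf_iff, AM_iff] at a1 a2
      have a3 := h2.uf hG
      rw [G.compl_iff, ← El_eq] at a3
      by_contra hcon
      rw [not_lt, eI] at hcon
      have f1 : (El CS G Q).Finite := by
        rw [← Set.encard_lt_top_iff]
        exact lt_of_le_of_lt a1.2 (ENat.natCast_lt_top n)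
      have f2 : (El CS G Q').Finite := by
        rw [← Set.encard_lt_top_iff]
        exact lt_of_le_of_lt a2.2 (ENat.natCast_lt_top n)
      have e1 : El CS G Q ∩ El CS G Q' = El CS G Q :=
        (f1.subset Set.inter_subset_left).eq_of_subset_of_encard_le Set.inter_subset_left
          (a1.2.trans hcon)
      have e2 : El CS G Q ∩ El CS G Q' = El CS G Q' :=
        (f2.subset Set.inter_subset_right).eq_of_subset_of_encard_le Set.inter_subset_right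
          (a2.2.trans hcon)
      exact a3 (e1.symm.trans e2)
    have hn0 : 0 < n := by
      obtain ⟨G, hG⟩ := exists_uf_pt s
      have := lt_of_le_of_lt (zero_le) (hcard G hG)
      exact_mod_cast this
    apply hmin (n - 1) (by omega)
    refine ⟨s.res C.S₀, E.join E', I, Cond.res_on _ _, Cond.res_le_of_on C.on (hsr.trans hr), hJ,
      sI, (C.inv_small hJ sI (n - 1)).forc_res ?_⟩
    refine forc_inf.2 ⟨h1.mono hs, forc_inf.2 ⟨?_, ?_⟩⟩
    · refine forc_of_uf fun G hG => ?_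
      have a1 := h.uf (uf_mono hsr hG)
      rw [G.inf_iff, SB_iff] at a1
      rw [SB_iff, eI]
      exact Set.inter_subset_left.trans a1.1
    · refine forc_of_uf fun G hG => ?_
      rw [AM_iff]
      have h3 := hcard G hG
      have h4 : ((n : ℕ) : ℕ∞) = ((n - 1 : ℕ) : ℕ∞) + 1 := by
        have : n = n - 1 + 1 := by omega
        exact_mod_cast this
      rw [h4] at h3
      exact Order.le_of_lt_add_one h3
  have h1 := key.uf hF
  rw [F.compl_iff, NE_iff, Set.not_nonempty_iff_eq_empty, eI] at h1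
  exact h1

end Ctx

/-- copies in general position are different -/
theorem Ctx.copies_ne (C : Ctx) {q : Cond} (hq : q.On C.S₀) (hqq : q ≤ C.q₀) (D : CData)
    (hDS : D.S₀ = C.S₀) (hDc : D.c₀ = C.c₀) {Q : HN CS}
    (hQ : Supp CS (⟨D.S₀, D.S, D.c, D.fin⟩ : Spt) Q.1) {n : ℕ}
    (hs : Forc q (NE CS Q ⊓ (SB CS Q C.X₁ ⊓ AM CS n Q)))
    {π π' : Equiv.Perm ℕ} (hπ : π ∈ FixP D.S₀ D.c₀) (hπ' : π' ∈ FixP D.S₀ D.c₀) (hgp : D.GP π π')
    {r : Cond} (hr : r ≤ q) : ¬ Forc r (eqv (actN CS (pp π) Q.1) (actN CS (pp π') Q.1)) := by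
  intro h
  have f₀ : (Set.range D.c₀).Finite := by rw [hDc]; exact C.f₀
  have hqD : q.On D.S₀ := hDS ▸ hq
  -- images of `S₀`
  have him : ∀ k ∈ FixP D.S₀ D.c₀, D.S₀.image k = D.S₀ := by
    intro k hk
    ext t
    rw [Finset.mem_image]
    constructor
    · rintro ⟨s, hs, rfl⟩
      rw [hk.1 s hs]; exact hs
    · intro ht
      exact ⟨t, ht, hk.1 t ht⟩
  have hsupp : ∀ k ∈ FixP D.S₀ D.c₀, ∀ a : Gp, (∀ t ∈ D.S₀, a.g t = t ∧ ∀ n, a.f t n = false) →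
      (∀ s ∈ D.S, a.g (k s) = k s) → (∀ e, D.c (k⁻¹ (a.g e)) = D.c (k⁻¹ e)) →
      eqv (actN CS a (actN CS (pp k) Q.1)) (actN CS (pp k) Q.1) = ⊤ := by
    intro k hk a h1 h2 h3
    refine Supp.conj CS (E := (⟨D.S₀, D.S, D.c, D.fin⟩ : Spt))
      (E' := (⟨D.S₀, D.S, D.c, D.fin⟩ : Spt).img k) (g := pp k)
      (fun h hh => Spt.img_fix _ (pp k) hh) hQ a ⟨?_, ?_, ?_⟩
    · intro t ht
      have : t ∈ D.S₀ := by rw [← him k hk]; exact ht
      exact h1 t this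
    · intro s hs
      obtain ⟨s', hs', rfl⟩ := Finset.mem_image.1 hs
      exact h2 s' hs'
    · exact h3
  have hflip : ∀ k ∈ FixP D.S₀ D.c₀, ∀ a : Gp, IsFlip D.S₀ a →
      eqv (actN CS a (actN CS (pp k) Q.1)) (actN CS (pp k) Q.1) = ⊤ := by
    intro k hk a ha
    refine hsupp k hk a (fun t ht => ha.triv t ht) (fun s _ => ?_) (fun e => ?_)
    · rw [ha.1]; rfl
    · rw [ha.1]; rfl
  have hinv : Inv D.S₀ (eqv (actN CS (pp π) Q.1) (actN CS (pp π') Q.1)) := by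
    intro a ha
    rw [← eqv_actN]
    have e3 : ∀ w : BSet (RO Cond), Congr (fun x => eqv w x) := fun w x y => by
      rw [inf_comm]; exact eqv_trans w x y
    have e4 : ∀ w : BSet (RO Cond), Congr (fun x => eqv x w) := fun w x y => by
      rw [eqv_symm x y]
      exact eqv_trans y x w
    rw [Congr.eq_of (e3 _) (hflip π' hπ' a ha)]
    exact Congr.eq_of (e4 _) (hflip π hπ a ha)
  have h1 := hinv.forc_res h
  have hron : (r.res D.S₀).On D.S₀ := Cond.res_on _ _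
  have hrq : r.res D.S₀ ≤ q := Cond.res_le_of_on hqD hr
  generalize r.res D.S₀ = r' at h1 hron hrq
  have htriv : ∀ k ∈ FixP D.S₀ D.c₀, Triv D.S₀ (pp k) := fun k hk t ht => ⟨hk.1 t ht, fun _ => rfl⟩
  have hact : ∀ k ∈ FixP D.S₀ D.c₀, ∀ b, Forc r' (CS.act (pp k) b) ↔ Forc r' b := fun k hk b =>
    forc_act_on (htriv k hk) hron
  -- the stabilizer
  let H : Subgroup (Equiv.Perm ℕ) :=
    { carrier := {k | k ∈ FixP D.S₀ D.c₀ ∧
        Forc r' (eqv (actN CS (pp k) (actN CS (pp π) Q.1)) (actN CS (pp π) Q.1))}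
      mul_mem' := by
        rintro k k' ⟨hk, hk1⟩ ⟨hk', hk1'⟩
        refine ⟨(FixP _ _).mul_mem hk hk', ?_⟩
        have h2 : Forc r' (eqv (actN CS (pp k) (actN CS (pp k') (actN CS (pp π) Q.1)))
            (actN CS (pp k) (actN CS (pp π) Q.1))) := by
          rw [eqv_actN CS (pp k), hact k hk]
          exact hk1'
        have h3 := forc_le_iff.1 (eqv_trans _ _ _) r' (forc_inf.2 ⟨h2, hk1⟩)
        rw [← actN_mul CS (pp k) (pp k')] at h3
        exact h3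
      one_mem' := by
        refine ⟨(FixP _ _).one_mem, ?_⟩
        have : actN CS (pp 1) (actN CS (pp π) Q.1) = actN CS (pp π) Q.1 := actN_one CS _
        rw [this, eqv_refl]
        exact forc_top
      inv_mem' := by
        rintro k ⟨hk, hk1⟩
        refine ⟨(FixP _ _).inv_mem hk, ?_⟩
        rw [← hact k hk, ← eqv_actN CS (pp k)]
        have : actN CS (pp k) (actN CS (pp k⁻¹) (actN CS (pp π) Q.1)) = actN CS (pp π) Q.1 :=
          actN_actN_inv CS (pp k) _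
        rw [this, eqv_symm]
        exact hk1 }
  have gen : FixP D.S₀ D.c₀ ≤ H := by
    have g1 : ∀ k ∈ FixP D.S₀ D.c₀, ∀ a ∈ FixP (D.S.image k) (fun e => D.c (k⁻¹ e)),
        a ∈ FixP D.S₀ D.c₀ ∧
          eqv (actN CS (pp a) (actN CS (pp k) Q.1)) (actN CS (pp k) Q.1) = ⊤ := by
      intro k hk a ha
      have b1 : ∀ s ∈ D.S, a (k s) = k s := fun s hs => ha.1 _ (Finset.mem_image_of_mem _ hs)
      have b2 : ∀ t ∈ D.S₀, a t = t := by
        intro t ht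
        have := b1 t (D.sub ht)
        rwa [hk.1 t ht] at this
      have b3 : ∀ e, D.c₀ (k⁻¹ e) = D.c₀ e := ((FixP _ _).inv_mem hk).2
      refine ⟨⟨b2, fun e => ?_⟩, ?_⟩
      · rw [← b3 (a e), ← b3 e]
        exact D.ref _ _ (ha.2 e)
      · exact hsupp k hk (pp a) (fun t ht => ⟨b2 t ht, fun _ => rfl⟩) b1 ha.2
    have frange : ∀ k : Equiv.Perm ℕ, (Set.range fun e => D.c (k⁻¹ e)).Finite := fun k =>
      D.fin.subset (by rintro _ ⟨e, rfl⟩; exact ⟨_, rfl⟩)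
    refine gen_fixP (S := D.S.image π) (S' := D.S.image π') (c := fun e => D.c (π⁻¹ e))
      (c' := fun e => D.c (π'⁻¹ e)) (frange π) (frange π') f₀ ?_ ?_ ?_ ?_ ?_
    · intro d e hde
      have := D.ref _ _ hde
      rwa [((FixP _ _).inv_mem hπ).2, ((FixP _ _).inv_mem hπ).2] at this
    · intro a ha
      obtain ⟨c1, c2⟩ := g1 π hπ a ha
      exact ⟨c1, by rw [c2]; exact forc_top⟩
    · intro a ha
      obtain ⟨c1, c2⟩ := g1 π' hπ' a ha
      refine ⟨c1, ?_⟩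
      have d1 : Forc r' (eqv (actN CS (pp a) (actN CS (pp π) Q.1))
          (actN CS (pp a) (actN CS (pp π') Q.1))) := by
        rw [eqv_actN CS (pp a), hact a c1]
        exact h1
      have d2 : Forc r' (eqv (actN CS (pp a) (actN CS (pp π') Q.1)) (actN CS (pp π') Q.1)) := by
        rw [c2]; exact forc_top
      have d3 := forc_le_iff.1 (eqv_trans _ _ _) r' (forc_inf.2 ⟨d1, d2⟩)
      rw [eqv_symm] at h1
      exact forc_le_iff.1 (eqv_trans _ _ _) r' (forc_inf.2 ⟨d3, h1⟩)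
    · intro s hs hs'
      obtain ⟨t, ht, rfl⟩ := Finset.mem_image.1 hs
      obtain ⟨t', ht', e⟩ := Finset.mem_image.1 hs'
      exact hgp.1 t ht t' ht' e.symm
    · intro d d' hdd
      refine hgp.2 _ _ ?_
      rw [((FixP _ _).inv_mem hπ).2, ((FixP _ _).inv_mem hπ').2]
      exact hdd
  -- a name with support `E₀`
  have hE₀ : ∀ a ∈ (⟨D.S₀, D.S₀, D.c₀, f₀⟩ : Spt).fix,
      Forc r' (eqv (actN CS a (actN CS (pp π) Q.1)) (actN CS (pp π) Q.1)) := by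
    intro a ha
    have hk : a.g ∈ FixP D.S₀ D.c₀ := ⟨ha.2.1, ha.2.2⟩
    have e1 : a = pp a.g * ⟨1, a.f⟩ := by
      refine Gp.ext (mul_one _).symm ?_
      funext d n
      simp only [Gp.mul_f]
      exact (Bool.xor_false _).symm
    have e2 : IsFlip D.S₀ ⟨1, a.f⟩ := ⟨rfl, fun t ht n => (ha.1 t ht).2 n⟩
    have e3 : Forc r' (eqv (actN CS a (actN CS (pp π) Q.1))
        (actN CS (pp a.g) (actN CS (pp π) Q.1))) := by
      have : actN CS a (actN CS (pp π) Q.1) =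
          actN CS (pp a.g) (actN CS ⟨1, a.f⟩ (actN CS (pp π) Q.1)) := by
        rw [← actN_mul CS (pp a.g) ⟨1, a.f⟩]
        exact congrArg (fun b => actN CS b (actN CS (pp π) Q.1)) e1
      rw [this, eqv_actN CS (pp a.g), hflip π hπ _ e2, act_top]
      exact forc_top
    exact forc_le_iff.1 (eqv_trans _ _ _) r' (forc_inf.2 ⟨e3, (gen hk).2⟩)
  have hptE : ∀ a ∈ (⟨D.S₀, D.S₀, D.c₀, f₀⟩ : Spt).fix, CS.act a (pt r') = pt r' := fun a ha =>
    act_pt_on (fun t ht => ha.1 t ht) hron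
  obtain ⟨z, hz⟩ := exists_sepS CS (fun _ => pt r') (congr_const _)
    ⟨(⟨D.S₀, D.S₀, D.c₀, f₀⟩ : Spt), fun a ha _ => hptE a ha⟩ (HN.act CS (pp π) Q)
  have hz' : ∀ t, memv t z.1 = memv t (actN CS (pp π) Q.1) ⊓ pt r' := hz
  have sz : Supp CS (⟨D.S₀, D.S₀, D.c₀, f₀⟩ : Spt) z.1 := by
    apply supp_of_memv
    intro a ha t
    rw [hz', hz', act_inf, hptE a ha, ← memv_actN]
    have e1 := pt_le_iff.2 (hE₀ a ha)
    refine eq_of_uf fun F => ?_
    rw [F.inf_iff, F.inf_iff]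
    refine and_congr_left fun hF => ?_
    have e2 := F.mono e1 hF
    constructor
    · intro h; exact F.mono (memv_congr_right _ _ _) (F.inf e2 h)
    · intro h
      rw [eqv_symm] at e2
      exact F.mono (memv_congr_right _ _ _) (F.inf e2 h)
  -- hence `Q` is equal to a name with support `E₀`
  obtain ⟨F, hF⟩ := exists_uf_pt r'
  have hsQ := hs.uf (uf_mono hrq hF)
  rw [F.inf_iff, F.inf_iff] at hsQ
  have hEl : El CS F z = El CS F (HN.act CS (pp π) Q) := by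
    ext m
    obtain ⟨t, ht, rfl⟩ := m.exists_rep
    show F.U (memv t z.1) ↔ F.U (memv t (actN CS (pp π) Q.1))
    rw [hz', F.inf_iff]
    exact ⟨fun h => h.1, fun h => ⟨h, hF⟩⟩
  -- transport to the copy
  have hs' : Forc r' (NE CS (HN.act CS (pp π) Q) ⊓ (SB CS (HN.act CS (pp π) Q) C.X₁ ⊓
      AM CS n (HN.act CS (pp π) Q))) := by
    have e1 : SB CS (HN.act CS (pp π) Q) C.X₁ = CS.act (pp π) (SB CS Q C.X₁) := by
      rw [← SB_act]
      refine SB_congr (eqv_refl _) ?_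
      rw [eqv_symm]
      have : pp π ∈ (⟨C.S₀, C.S₀, C.c₀, C.f₀⟩ : Spt).fix :=
        ⟨fun t ht => ⟨hπ.1 t (hDS ▸ ht), fun _ => rfl⟩, fun s hs => hπ.1 s (hDS ▸ hs),
          fun e => by show C.c₀ (π e) = C.c₀ e; rw [← hDc]; exact hπ.2 e⟩
      exact C.sX₁ _ this
    rw [NE_act, e1, AM_act, ← act_inf, ← act_inf, hact π hπ]
    exact hs.mono hrq
  have h3 := hs'.uf hF
  rw [F.inf_iff, F.inf_iff, NE_iff, SB_iff, AM_iff] at h3
  have sz' : Supp CS (⟨C.S₀, C.S₀, C.c₀, C.f₀⟩ : Spt) z.1 := by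
    refine sz.mono CS ?_
    intro a ha
    refine ⟨fun t ht => ha.1 t (hDS ▸ ht), fun s hs => ha.2.1 s (hDS ▸ hs), fun e => ?_⟩
    show D.c₀ (a.g e) = D.c₀ e
    rw [hDc]
    exact ha.2.2 e
  have h4 := C.empty_of sz' (uf_mono (hrq.trans hqq) hF) (by rw [hEl]; exact h3.2.1)
    (F.mono (AM_le CS n z) (by rw [AM_iff, hEl]; exact h3.2.2))
  rw [hEl] at h4
  rw [h4] at h3
  exact Set.not_nonempty_empty h3.1

end Pool.Agent.Sym
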