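import Pool.Agent.Forcing.RO

/-!
# Automorphisms of a preorder act on its regular open algebra
-/

namespace Pool.Agent.Sym

open Pool.Agent.Forcing

section

variable {P : Type} [Preorder P]

/-- the image of a regular open set -/
def roFun (e : P ≃o P) (b : RO P) : RO P :=
  (⟨LowerSet.map e b.val, by
    have h : (b.val : LowerSet P)ᶜᶜ = b.val := b.prop
    show (LowerSet.map e b.val)ᶜᶜ = LowerSet.map e b.val
    rw [← map_compl, ← map_compl, h]⟩ : Heyting.Regular (LowerSet P))

theorem forc_roFun {e : P ≃o P} {b : RO P} {p : P} : Forc p (roFun e b) ↔ Forc (e.symm p) b := by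
  show p ∈ LowerSet.map e b.val ↔ e.symm p ∈ (b.val : LowerSet P)
  rw [LowerSet.mem_map]

theorem forc_ext {a b : RO P} (h : ∀ p, Forc p a ↔ Forc p b) : a = b :=
  le_antisymm (forc_le_iff.2 fun p => (h p).1) (forc_le_iff.2 fun p => (h p).2)

/-- the automorphism of the regular open algebra induced by an automorphism of the preorder -/
def roMap (e : P ≃o P) : RO P ≃o RO P where
  toFun := roFun e
  invFun := roFun e.symm
  left_inv b := forc_ext fun p => by
    rw [forc_roFun, forc_roFun, OrderIso.symm_symm, OrderIso.symm_apply_apply]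
  right_inv b := forc_ext fun p => by
    rw [forc_roFun, forc_roFun, OrderIso.symm_symm, OrderIso.apply_symm_apply]
  map_rel_iff' {a b} := by
    show roFun e a ≤ roFun e b ↔ a ≤ b
    rw [forc_le_iff, forc_le_iff]
    constructor
    · intro h p hp
      have := h (e p)
      rw [forc_roFun, forc_roFun, OrderIso.symm_apply_apply] at this
      exact this hp
    · intro h p hp
      rw [forc_roFun] at hp ⊢
      exact h _ hp

theorem forc_roMap {e : P ≃o P} {b : RO P} {p : P} : Forc p (roMap e b) ↔ Forc (e.symm p) b :=
  forc_roFun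

theorem roMap_pt (e : P ≃o P) (p : P) : roMap e (pt p) = pt (e p) := by
  refine forc_ext fun q => ?_
  rw [forc_roMap, forc_pt, forc_pt]
  constructor
  · intro h r hr
    obtain ⟨s, hs, hs'⟩ := h (e.symm r) (e.symm.monotone hr)
    refine ⟨e s, ?_, e.monotone hs'⟩
    have := e.monotone hs
    rwa [OrderIso.apply_symm_apply] at this
  · intro h r hr
    obtain ⟨s, hs, hs'⟩ := h (e r) (by
      have := e.monotone hr
      rwa [OrderIso.apply_symm_apply] at this)
    refine ⟨e.symm s, ?_, ?_⟩
    · have := e.symm.monotone hs
      rwa [OrderIso.symm_apply_apply] at this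
    · have := e.symm.monotone hs'
      rwa [OrderIso.symm_apply_apply] at this

end

end Pool.Agent.Sym
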