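import Pool.Agent.Sym.ZF
import Pool.Agent.NSC.Sem

/-!
# Finiteness in the symmetric submodels
-/

namespace Pool.Agent.Sym

open Pool.Agent.BVM Pool.Agent.NSC

/-- formula for `Ind` -/
def fInd (I : ℕ) : Fml :=
  .and (.ex (.and (.mem 0 (I + 1)) (.all (.neg (.mem 0 1)))))
    (.all (.imp (.mem 0 (I + 1)) (.ex (.and (.mem 0 (I + 2))
      (.all (.iff (.mem 0 1) (.or (.mem 0 2) (.eq 0 2))))))))

/-- formula for `IsNat` -/
def fIsNat (n : ℕ) : Fml := .all (.imp (fInd 0) (.mem (n + 1) 0))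

/-- formula for `Bij` -/
def fBij (f a b : ℕ) : Fml :=
  .and (.all (.imp (.mem 0 (f + 1)) (.ex (.ex (.and (.mem 1 (a + 3)) (.and (.mem 0 (b + 3))
    (fOPair 2 1 0)))))))
    (.and (.all (.imp (.mem 0 (a + 1)) (.ex (.and (fRel (f + 2) 1 0)
      (.all (.imp (fRel (f + 3) 2 0) (.eq 0 1)))))))
      (.all (.imp (.mem 0 (b + 1)) (.ex (.and (fRel (f + 2) 0 1)
        (.all (.imp (fRel (f + 3) 0 2) (.eq 0 1))))))))

/-- formula for `Fin` -/
def fFin (x : ℕ) : Fml := .ex (.ex (.and (fIsNat 1) (fBij 0 1 (x + 2))))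

/-- formula for `Sub` -/
def fSub (x y : ℕ) : Fml := .all (.imp (.mem 0 (x + 1)) (.mem 0 (y + 1)))

/-- formula for `Diff` -/
def fDiff (z x y : ℕ) : Fml :=
  .all (.iff (.mem 0 (z + 1)) (.and (.mem 0 (x + 1)) (.neg (.mem 0 (y + 1)))))

/-- formula for `Amorphous` -/
def fAmor (x : ℕ) : Fml :=
  .and (.neg (fFin x)) (.all (.imp (fSub 0 (x + 1)) (.imp (.neg (fFin 0))
    (.all (.imp (fDiff 0 (x + 2) 1) (fFin 0))))))

section

variable {M : Type*} {E : M → M → Prop} {v : ℕ → M}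

theorem sat_fInd {I : ℕ} : Sat E (fInd I) v ↔ Ind E (v I) := Iff.rfl

theorem sat_fIsNat {n : ℕ} : Sat E (fIsNat n) v ↔ IsNat E (v n) := Iff.rfl

theorem sat_fBij {f a b : ℕ} : Sat E (fBij f a b) v ↔ Bij E (v f) (v a) (v b) := Iff.rfl

theorem sat_fFin {x : ℕ} : Sat E (fFin x) v ↔ NSC.Fin E (v x) := Iff.rfl

theorem sat_fSub {x y : ℕ} : Sat E (fSub x y) v ↔ Sub E (v x) (v y) := Iff.rfl

theorem sat_fDiff {z x y : ℕ} : Sat E (fDiff z x y) v ↔ Diff E (v z) (v x) (v y) := Iff.rfl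

theorem sat_fAmor {x : ℕ} : Sat E (fAmor x) v ↔ Amorphous E (v x) := Iff.rfl

end

section

variable {B : Type} [CompleteBooleanAlgebra B] (S : Sys B)

theorem zfN (F : UF B) : NSC.ZF (SE S F) :=
  ⟨(zf S F).ext, (zf S F).found, (zf S F).pair, (zf S F).union, (zf S F).power,
    (zf S F).infinity, (zf S F).sep, (zf S F).repl⟩

/-- the set of elements of a name in the model given by `F` -/
def El (F : UF B) (x : HN S) : Set (SMod S F) := {m | SE S F m (of S F x)}

/-- value of `x ⊆ y` -/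
noncomputable def SB (x y : HN S) : B := valS S (fSub 0 1) (cons x fun _ => y)

theorem SB_iff {F : UF B} {x y : HN S} : F.U (SB S x y) ↔ El S F x ⊆ El S F y := by
  rw [SB, ← los]
  exact Iff.rfl

/-- value of `x ≠ ∅` -/
noncomputable def NE (x : HN S) : B := valS S (.ex (.mem 0 1)) fun _ => x

theorem NE_iff {F : UF B} {x : HN S} : F.U (NE S x) ↔ (El S F x).Nonempty := by
  rw [NE, ← los]
  exact Iff.rfl

theorem of_eq {F : UF B} {x y : HN S} : of S F x = of S F y ↔ F.U (eqv x.1 y.1) :=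
  Subtype.ext_iff.trans BVM.Mod.mk_eq

theorem El_eq {F : UF B} {x y : HN S} : El S F x = El S F y ↔ F.U (eqv x.1 y.1) := by
  rw [← of_eq]
  constructor
  · intro h
    exact (zf S F).ext _ _ fun z => by
      have : z ∈ El S F x ↔ z ∈ El S F y := by rw [h]
      exact this
  · intro h
    unfold El
    rw [h]

theorem mem_El_mk {F : UF B} {x : HN S} {z : BSet B} {h : F.U (hv S z)} :
    SMod.mk S F z h ∈ El S F x ↔ F.U (memv z x.1) := Iff.rfl

theorem of_mem_El {F : UF B} {x z : HN S} : of S F z ∈ El S F x ↔ F.U (memv z.1 x.1) := Iff.rfl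

/-- value of: there is a bijection between `n` and `x` -/
noncomputable def BJ (n : ℕ) (x : HN S) : B := valS S (.ex (fBij 0 1 2)) (cons (onS S n) fun _ => x)

theorem El_onS (F : UF B) (n : ℕ) : El S F (onS S n) = (fun k : ℕ => of S F (onS S k)) '' Set.Iio n := by
  induction n with
  | zero =>
    ext m
    obtain ⟨z, hz, rfl⟩ := m.exists_rep
    rw [mem_El_mk]
    show F.U (memv z (on 0)) ↔ _
    rw [memv_on_zero]
    constructor
    · exact fun h => (F.bot h).elim
    · rintro ⟨k, hk, _⟩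
      exact absurd hk (Nat.not_lt_zero k)
  | succ n ih =>
    ext m
    obtain ⟨z, hz, rfl⟩ := m.exists_rep
    have h1 : SMod.mk S F z hz ∈ El S F (onS S n) ↔ F.U (memv z (on n)) := Iff.rfl
    rw [mem_El_mk]
    show F.U (memv z (on (n + 1))) ↔ _
    rw [memv_on_succ, F.sup_iff, ← h1, ih]
    have h2 : F.U (eqv z (on n)) ↔ SMod.mk S F z hz = of S F (onS S n) :=
      (Subtype.ext_iff.trans BVM.Mod.mk_eq).symm
    rw [h2]
    constructor
    · rintro (⟨k, hk, h⟩ | h)
      · exact ⟨k, Nat.lt_succ_of_lt hk, h⟩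
      · exact ⟨n, Nat.lt_succ_self n, h.symm⟩
    · rintro ⟨k, hk, h⟩
      rcases Nat.lt_succ_iff_lt_or_eq.1 hk with h' | h'
      · exact Or.inl ⟨k, h', h⟩
      · subst h'
        exact Or.inr h.symm

theorem of_onS_inj (F : UF B) {k l : ℕ} (h : of S F (onS S k) = of S F (onS S l)) : k = l := by
  rw [of_eq] at h
  have : F.U (eqv (on k) (on l)) := h
  rw [eqv_on, F.tv_iff] at this
  exact this

theorem El_onS_encard (F : UF B) (n : ℕ) : (El S F (onS S n)).encard = n := by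
  rw [El_onS, Function.Injective.encard_image fun k l h => of_onS_inj S F h]
  have : (Set.Iio n) = ((Finset.range n : Finset ℕ) : Set ℕ) := by
    ext k; simp
  rw [this, Set.encard_coe_eq_coe_finsetCard, Finset.card_range]

theorem El_onS_finite (F : UF B) (n : ℕ) : (El S F (onS S n)).Finite := by
  rw [El_onS]
  exact (Set.finite_Iio n).image _

theorem BJ_iff {F : UF B} {n : ℕ} {x : HN S} : F.U (BJ S n x) ↔ (El S F x).encard = n := by
  rw [BJ, ← los]
  constructor
  · rintro ⟨f, hf⟩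
    have hf' : Bij (SE S F) f (of S F (onS S n)) (of S F x) := hf
    obtain ⟨g, hg⟩ := hf'.exists_map
    have e := Equiv.ofBijective g hg
    rw [← El_onS_encard S F n]
    exact (Set.encard_congr e).symm
  · intro h
    rw [← El_onS_encard S F n] at h
    have hfin := El_onS_finite S F n
    have hfx : (El S F x).Finite := by
      rw [← Set.encard_lt_top_iff, h, Set.encard_lt_top_iff]
      exact hfin
    have h2 : Nat.card (El S F (onS S n)) = Nat.card (El S F x) := by
      have := congrArg ENat.toNat h.symm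
      exact this
    have : Finite (El S F (onS S n)) := hfin
    have : Finite (El S F x) := hfx
    obtain ⟨g⟩ := Finite.card_eq.1 h2
    obtain ⟨f, hf⟩ := (zfN S F).exists_bij hfin g
    exact ⟨f, hf⟩

/-- value of: `x` is finite -/
noncomputable def FN (x : HN S) : B := valS S (fFin 0) fun _ => x

theorem FN_iff {F : UF B} {x : HN S} : F.U (FN S x) ↔ NSC.Fin (SE S F) (of S F x) := by
  rw [FN, ← los]
  exact Iff.rfl

theorem ind_onT (F : UF B) : Ind (SE S F) (of S F (onTS S ℕ)) := by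
  refine ⟨⟨of S F (onS S 0), ?_, ?_⟩, ?_⟩
  · show F.U (memv (on 0) (onT ℕ))
    rw [memv_on_onT]
    exact F.top
  · rintro ⟨m, x, rfl, hx⟩ hz
    apply F.bot
    have : F.U (memv x (on 0)) := hz
    rwa [memv_on_zero] at this
  · intro y hy
    exact E_onT S (X := ℕ) (.ex (.and (.mem 0 2)
      (.all (.iff (.mem 0 1) (.or (.mem 0 2) (.eq 0 2)))))) (fun _ => onTS S ℕ) ⊤
      (fun F _ n => by
        refine ⟨of S F (onS S (n + 1)), ?_, ?_⟩
        · show F.U (memv (on (n + 1)) (onT ℕ))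
          rw [memv_on_onT]
          exact F.top
        · rintro ⟨m, x, rfl, hx⟩
          show F.U (memv x (on (n + 1))) ↔ (F.U (memv x (on n)) ∨ _)
          rw [memv_on_succ, F.sup_iff]
          refine or_congr Iff.rfl ?_
          exact (Subtype.ext_iff.trans BVM.Mod.mk_eq).symm) F F.top y hy

theorem FN_eq (x : HN S) : FN S x = ⨆ n, BJ S n x := by
  refine le_antisymm ?_ (iSup_le fun n => le_of_uf fun F hF => ?_)
  · have h1 : FN S x ≤ valS S (.ex (.and (.mem 0 1) (.ex (fBij 0 1 3)))) (cons (onTS S ℕ) fun _ => x) := by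
      refine le_of_uf fun F hF => ?_
      rw [FN_iff] at hF
      rw [← los]
      obtain ⟨n, f, hn, hf⟩ := hF
      exact ⟨n, hn _ (ind_onT S F), f, hf⟩
    refine h1.trans ?_
    rw [valS, cons_val]
    show (⨆ n, hv S n ⊓ (memv n (onT ℕ) ⊓ valR S (.ex (fBij 0 1 3)) (cons n (cons (onT ℕ) fun _ => x.1)))) ≤ _
    have h2 : (⨆ n, hv S n ⊓ (memv n (onT ℕ) ⊓ valR S (.ex (fBij 0 1 3)) (cons n (cons (onT ℕ) fun _ => x.1))))
        ≤ ⨆ n, memv n (onT ℕ) ⊓ valR S (.ex (fBij 0 1 3)) (cons n (cons (onT ℕ) fun _ => x.1)) :=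
      iSup_mono fun n => inf_le_right
    refine h2.trans ?_
    rw [show (onT ℕ : BSet B) = chk (on : ℕ → BSet B) from rfl, chk_bex (valR_congr1 S _ _)]
    refine iSup_mono fun n => le_of_uf fun F hF => ?_
    have h3 : valR S (.ex (fBij 0 1 3)) (cons (on n) (cons (chk (on : ℕ → BSet B)) fun _ => x.1)) =
        valS S (.ex (fBij 0 1 3)) (cons (onS S n) (cons (onTS S ℕ) fun _ => x)) := by
      rw [valS, cons_val, cons_val]
      rfl
    rw [h3, ← los] at hF
    rw [BJ, ← los]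
    exact hF
  · rw [FN_iff]
    rw [BJ_iff] at hF
    have hfx : (El S F x).Finite := by
      rw [← Set.encard_lt_top_iff, hF]
      exact ENat.natCast_lt_top n
    obtain ⟨k, hk, hfin, hcard⟩ := (zfN S F).exists_nat n
    have : Finite {y | SE S F y k} := hfin
    have : Finite (El S F x) := hfx
    have h2 : Nat.card {y | SE S F y k} = Nat.card (El S F x) := by
      have h3 : (El S F x).ncard = n := by
        rw [Set.ncard, hF]
        rfl
      exact hcard.trans h3.symm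
    obtain ⟨g⟩ := Finite.card_eq.1 h2
    obtain ⟨f, hf⟩ := (zfN S F).exists_bij hfin g
    exact ⟨k, f, hk, hf⟩

theorem UF.finset_sup (F : UF B) {ι : Type*} (s : Finset ι) (b : ι → B) :
    F.U (s.sup b) ↔ ∃ i ∈ s, F.U (b i) := by
  classical
  induction s using Finset.induction_on with
  | empty =>
    rw [Finset.sup_empty]
    constructor
    · exact fun h => (F.bot h).elim
    · rintro ⟨i, hi, _⟩
      exact absurd hi (Finset.notMem_empty i)
  | @insert a s _ ih =>
    rw [Finset.sup_insert, F.sup_iff, ih]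
    simp only [Finset.mem_insert, exists_eq_or_imp]

/-- value of: `x` has at most `n` elements -/
noncomputable def AM (n : ℕ) (x : HN S) : B := (Finset.range (n + 1)).sup fun k => BJ S k x

theorem AM_iff {F : UF B} {n : ℕ} {x : HN S} : F.U (AM S n x) ↔ (El S F x).encard ≤ n := by
  rw [AM, UF.finset_sup]
  constructor
  · rintro ⟨k, hk, h⟩
    rw [BJ_iff] at h
    rw [h]
    exact_mod_cast Nat.lt_succ_iff.1 (Finset.mem_range.1 hk)
  · intro h
    have hfin : (El S F x).Finite := by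
      rw [← Set.encard_lt_top_iff]
      exact lt_of_le_of_lt h (ENat.natCast_lt_top n)
    refine ⟨(El S F x).ncard, Finset.mem_range.2 (Nat.lt_succ_iff.2 ?_), ?_⟩
    · rw [← hfin.cast_ncard_eq] at h
      exact_mod_cast h
    · rw [BJ_iff]
      exact hfin.cast_ncard_eq.symm

theorem FN_eq' (x : HN S) : FN S x = ⨆ n, AM S n x := by
  rw [FN_eq]
  refine le_antisymm (iSup_mono fun n => ?_) (iSup_le fun n => Finset.sup_le fun k _ => ?_)
  · exact Finset.le_sup (f := fun k => BJ S k x) (Finset.self_mem_range_succ n)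
  · exact le_iSup (fun n => BJ S n x) k

theorem AM_le (n : ℕ) (x : HN S) : AM S n x ≤ FN S x := by
  rw [FN_eq']
  exact le_iSup (fun n => AM S n x) n

/-! ### separation names -/

/-- names for subsets, with support -/
theorem sepN (Q : BSet B → B) (hQ : Congr Q) {E : S.Sp} {x : HN S} (hx : Supp S E x.1)
    (hs : ∀ g ∈ S.fix E, ∀ z, S.act g (Q z) = Q (actN S g z)) :
    ∃ y : HN S, Supp S E y.1 ∧ (∀ z, memv z y.1 = memv z x.1 ⊓ Q z) ∧
      ∀ (F : UF B) (z : BSet B) (h : F.U (hv S z)), SMod.mk S F z h ∈ El S F y ↔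
        (SMod.mk S F z h ∈ El S F x ∧ F.U (Q z)) := by
  obtain ⟨y, hy⟩ := exists_sepS S Q hQ ⟨E, hs⟩ x
  refine ⟨y, ?_, hy, fun F z h => ?_⟩
  · apply supp_of_memv
    intro g hg z
    rw [hy, hy, act_inf, hs g hg, hx.memv S hg]
  · rw [mem_El_mk, mem_El_mk, hy, F.inf_iff]

theorem congr_const (c : B) : Congr (fun _ : BSet B => c) := fun _ _ => inf_le_right

theorem congr_compl {Q : BSet B → B} (hQ : Congr Q) : Congr (fun x => (Q x)ᶜ) := by
  intro x y
  show eqv x y ⊓ (Q x)ᶜ ≤ (Q y)ᶜ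
  rw [← himp_bot, ← himp_bot]
  refine himp_congr_le ?_ inf_le_right
  rw [eqv_symm]
  exact hQ y x

theorem congr_sup {Q R : BSet B → B} (hQ : Congr Q) (hR : Congr R) :
    Congr (fun x => Q x ⊔ R x) := by
  intro x y
  show eqv x y ⊓ (Q x ⊔ R x) ≤ Q y ⊔ R y
  rw [inf_sup_left]
  exact sup_le_sup (hQ x y) (hR x y)

/-- difference -/
theorem exists_dif {E : S.Sp} {x y : HN S} (hx : Supp S E x.1) (hy : Supp S E y.1) :
    ∃ z : HN S, Supp S E z.1 ∧ ∀ F : UF B, El S F z = El S F x \ El S F y := by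
  obtain ⟨z, hz, _, hz'⟩ := sepN S (fun t => (memv t y.1)ᶜ) (congr_compl (Congr.mem_right y.1)) hx
    (fun g hg t => by rw [act_compl, hy.memv S hg])
  refine ⟨z, hz, fun F => ?_⟩
  ext m
  obtain ⟨t, ht, rfl⟩ := m.exists_rep
  rw [hz', F.compl_iff]
  exact Iff.rfl

/-- intersection -/
theorem exists_int {E : S.Sp} {x y : HN S} (hx : Supp S E x.1) (hy : Supp S E y.1) :
    ∃ z : HN S, Supp S E z.1 ∧ ∀ F : UF B, El S F z = El S F x ∩ El S F y := by
  obtain ⟨z, hz, _, hz'⟩ := sepN S (fun t => memv t y.1) (Congr.mem_right y.1) hx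
    (fun g hg t => by rw [hy.memv S hg])
  refine ⟨z, hz, fun F => ?_⟩
  ext m
  obtain ⟨t, ht, rfl⟩ := m.exists_rep
  rw [hz']
  exact Iff.rfl

/-- the set `x` if `c` is true, otherwise the empty set -/
theorem exists_cond {E : S.Sp} {x : HN S} (hx : Supp S E x.1) {c : B}
    (hc : ∀ g ∈ S.fix E, S.act g c = c) :
    ∃ z : HN S, Supp S E z.1 ∧ (∀ t, memv t z.1 = memv t x.1 ⊓ c) ∧
      ∀ F : UF B, (F.U c → El S F z = El S F x) ∧ (¬ F.U c → El S F z = ∅) := by
  obtain ⟨z, hz, h1, hz'⟩ := sepN S (fun _ => c) (congr_const c) hx (fun g hg _ => hc g hg)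
  refine ⟨z, hz, h1, fun F => ⟨fun h => ?_, fun h => ?_⟩⟩
  · ext m
    obtain ⟨t, ht, rfl⟩ := m.exists_rep
    rw [hz']
    exact ⟨fun h => h.1, fun h' => ⟨h', h⟩⟩
  · rw [Set.eq_empty_iff_forall_notMem]
    intro m
    obtain ⟨t, ht, rfl⟩ := m.exists_rep
    rw [hz']
    exact fun h' => h h'.2

end

end Pool.Agent.Sym
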