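import Pool.Agent.Sym.Model

/-!
# The symmetric submodel satisfies ZF
-/

namespace Pool.Agent.Sym

open Pool.Agent.BVM

/-- `(M, E)` is a model of ZF -/
structure ZF {M : Type*} (E : M → M → Prop) : Prop where
  /-- extensionality -/
  ext : ∀ x y, (∀ z, E z x ↔ E z y) → x = y
  /-- foundation -/
  found : ∀ x, (∃ y, E y x) → ∃ y, E y x ∧ ∀ z, E z y → ¬ E z x
  /-- pairing -/
  pair : ∀ x y, ∃ z, ∀ t, E t z ↔ (t = x ∨ t = y)
  /-- union -/
  union : ∀ x, ∃ u, ∀ t, E t u ↔ ∃ y, E y x ∧ E t y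
  /-- power set -/
  power : ∀ x, ∃ p, ∀ t, E t p ↔ ∀ z, E z t → E z x
  /-- infinity -/
  infinity : ∃ x, (∃ e, E e x ∧ ∀ z, ¬ E z e) ∧ ∀ y, E y x → ∃ s, E s x ∧ ∀ z, E z s ↔
    (E z y ∨ z = y)
  /-- separation, for formulas with parameters -/
  sep : ∀ (φ : Fml) (v : ℕ → M) (x : M), ∃ y, ∀ z, E z y ↔ (E z x ∧ Sat E φ (cons z v))
  /-- replacement, for formulas with parameters -/
  repl : ∀ (φ : Fml) (v : ℕ → M) (x : M),
    (∀ a, E a x → ∃! b, Sat E φ (cons b (cons a v))) →
    ∃ y, ∀ b, E b y ↔ ∃ a, E a x ∧ Sat E φ (cons b (cons a v))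

section

variable {B : Type} [CompleteBooleanAlgebra B] (S : Sys B)

/-- directedness, with `n` supports -/
theorem exists_supp (v : ℕ → HN S) (n : ℕ) : ∃ E, ∀ i, i < n → Supp S E (v i).1 := by
  induction n with
  | zero => exact ⟨S.ne.some, fun i hi => absurd hi (Nat.not_lt_zero i)⟩
  | succ n ih =>
    obtain ⟨E, hE⟩ := ih
    obtain ⟨E', hE'⟩ := (v n).2.supp
    obtain ⟨E'', h1, h2⟩ := S.dir E E'
    refine ⟨E'', fun i hi => ?_⟩
    rcases Nat.lt_succ_iff_lt_or_eq.1 hi with h | h
    · exact (hE i h).mono S h1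
    · rw [h]; exact hE'.mono S h2

/-- a support for the values of a formula with two free places -/
theorem exists_supp2 (φ : Fml) (v : ℕ → HN S) : ∃ E, ∀ g ∈ S.fix E, ∀ x y : BSet B,
    S.act g (valR S φ (cons x (cons y fun i => (v i).1))) =
      valR S φ (cons (actN S g x) (cons (actN S g y) fun i => (v i).1)) := by
  obtain ⟨E, hE⟩ := exists_supp S v (fvb φ)
  refine ⟨E, fun g hg x y => ?_⟩
  rw [← valR_act, cons_actN, cons_actN]
  have h1 : valR S φ (cons (actN S g x) (cons (actN S g y) fun i => (v i).1)) =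
      valR S φ (cons (actN S g x) (cons (actN S g y)
        fun i => if i < fvb φ then (v i).1 else actN S g (v i).1)) := by
    apply valR_agree
    refine cons_agree (cons_agree ?_ _) _
    intro i hi
    rw [if_pos hi]
  rw [h1]
  apply valR_eq_of
  rintro (_ | _ | i)
  · exact eqv_refl _
  · exact eqv_refl _
  · show eqv (actN S g (v i).1) (if i < fvb φ then (v i).1 else actN S g (v i).1) = ⊤
    by_cases hi : i < fvb φ
    · rw [if_pos hi]; exact hE i hi g hg
    · rw [if_neg hi]; exact eqv_refl _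

theorem exists_supp1 (φ : Fml) (v : ℕ → HN S) : ∃ E, ∀ g ∈ S.fix E, ∀ x : BSet B,
    S.act g (valR S φ (cons x fun i => (v i).1)) =
      valR S φ (cons (actN S g x) fun i => (v i).1) := by
  obtain ⟨E, hE⟩ := exists_supp S v (fvb φ)
  refine ⟨E, fun g hg x => ?_⟩
  rw [← valR_act, cons_actN]
  have h1 : valR S φ (cons (actN S g x) fun i => (v i).1) =
      valR S φ (cons (actN S g x)
        fun i => if i < fvb φ then (v i).1 else actN S g (v i).1) := by
    apply valR_agree
    refine cons_agree ?_ _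
    intro i hi
    rw [if_pos hi]
  rw [h1]
  apply valR_eq_of
  rintro (_ | i)
  · exact eqv_refl _
  · show eqv (actN S g (v i).1) (if i < fvb φ then (v i).1 else actN S g (v i).1) = ⊤
    by_cases hi : i < fvb φ
    · rw [if_pos hi]; exact hE i hi g hg
    · rw [if_neg hi]; exact eqv_refl _

/-- names all of whose members are hereditarily symmetric -/
def MH : BSet B → Prop
  | .mk _ A _ => ∀ a, HS S (A a)

theorem HN.mh (x : HN S) : MH S x.1 := by
  obtain ⟨⟨α, A, b⟩, hx⟩ := x
  exact hx.2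

/-- bounded quantifiers over hereditarily symmetric names -/
theorem bexS {Q : BSet B → B} (hQ : Congr Q) {x : BSet B} (hx : MH S x) :
    (⨆ y : HN S, memv y.1 x ⊓ Q y.1) = ⨆ y, memv y x ⊓ Q y := by
  obtain ⟨α, A, b⟩ := x
  rw [hQ.bex]
  refine le_antisymm (iSup_le fun y => ?_) (iSup_le fun a => ?_)
  · rw [← hQ.bex]
    exact le_iSup (fun y => memv y (.mk α A b) ⊓ Q y) y.1
  · exact le_iSup_of_le (⟨A a, hx a⟩ : HN S) (inf_le_inf_right _ (memv_self A b a))

theorem ballS {Q : BSet B → B} (hQ : Congr Q) {x : BSet B} (hx : MH S x) :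
    (⨅ y : HN S, memv y.1 x ⇨ Q y.1) = ⨅ y, memv y x ⇨ Q y := by
  obtain ⟨α, A, b⟩ := x
  rw [hQ.ball]
  refine le_antisymm (le_iInf fun a => ?_) (le_iInf fun y => ?_)
  · exact (iInf_le _ (⟨A a, hx a⟩ : HN S)).trans (himp_le_himp_right (memv_self A b a))
  · rw [← hQ.ball]
    exact iInf_le (fun y => memv y (.mk α A b) ⇨ Q y) y.1

/-- extensionality with hereditarily symmetric names -/
theorem ext_leS {x y : BSet B} (hx : MH S x) (hy : MH S y) :
    (⨅ z : HN S, (memv z.1 x ⇨ memv z.1 y) ⊓ (memv z.1 y ⇨ memv z.1 x)) ≤ eqv x y := by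
  refine le_trans ?_ (ext_le x y)
  rw [iInf_inf_eq, iInf_inf_eq, ballS S (Congr.mem_right y) hx, ballS S (Congr.mem_right x) hy]

theorem MH.actN {x : BSet B} (hx : MH S x) (g : S.G) : MH S (actN S g x) := by
  obtain ⟨α, A, b⟩ := x
  exact fun a => (hx a).actN S g

/-- symmetry from membership values at hereditarily symmetric names -/
theorem supp_of_memvS {E : S.Sp} {y : BSet B} (hy : MH S y)
    (h : ∀ g ∈ S.fix E, ∀ z : HN S, S.act g (memv z.1 y) = memv (actN S g z.1) y) :
    Supp S E y := by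
  intro g hg
  rw [eq_top_iff]
  refine le_trans (le_iInf fun z => ?_) (ext_leS S (hy.actN S g) hy)
  have e : memv z.1 (actN S g y) = memv z.1 y := by
    rw [memv_actN_inv]
    have := h g hg (HN.act S g⁻¹ z)
    simp only [HN.act] at this
    rw [this, actN_actN_inv]
  rw [e, himp_self, inf_top_eq]

/-- a name for a subset -/
theorem exists_sepS (Q : BSet B → B) (hQ : Congr Q)
    (hs : ∃ E, ∀ g ∈ S.fix E, ∀ x, S.act g (Q x) = Q (actN S g x)) (x : HN S) :
    ∃ y : HN S, ∀ z, memv z y.1 = memv z x.1 ⊓ Q z := by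
  obtain ⟨⟨α, A, b⟩, hx⟩ := x
  have key : ∀ z, memv z (.mk α A (fun a => b a ⊓ Q (A a))) = memv z (.mk α A b) ⊓ Q z := by
    intro z
    rw [memv_mk, memv_mk, iSup_inf_eq]
    refine iSup_congr fun a => le_antisymm ?_ ?_
    · refine le_inf (le_inf (inf_le_left.trans inf_le_left) inf_le_right) ?_
      refine le_trans ?_ (hQ (A a) z)
      rw [eqv_symm (A a) z]
      exact le_inf inf_le_right (inf_le_left.trans inf_le_right)
    · refine le_inf (le_inf (inf_le_left.trans inf_le_left) ?_) (inf_le_left.trans inf_le_right)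
      refine le_trans ?_ (hQ z (A a))
      exact inf_le_inf_right _ inf_le_right
  obtain ⟨E, hE⟩ := hs
  obtain ⟨E', hE'⟩ := hx.1
  obtain ⟨E'', h1, h2⟩ := S.dir E E'
  refine ⟨⟨.mk α A (fun a => b a ⊓ Q (A a)), ⟨E'', ?_⟩, hx.2⟩, key⟩
  apply supp_of_memv
  intro g hg z
  rw [key, key, act_inf, hE g (h1 hg), (hE').memv S (h2 hg)]

/-- foundation -/
theorem found_leS (x y : BSet B) (hy : HS S y) :
    memv y x ≤ ⨆ z : HN S, memv z.1 x ⊓ ⨅ t : HN S, memv t.1 z.1 ⇨ (memv t.1 x)ᶜ := by
  induction y with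
  | mk α A b ih =>
    set c := ⨆ z : HN S, memv z.1 x ⊓ ⨅ t : HN S, memv t.1 z.1 ⇨ (memv t.1 x)ᶜ with hc
    set s := ⨆ a, b a ⊓ memv (A a) x with hs
    have h1 : s ≤ c := iSup_le fun a => inf_le_right.trans (ih a (hy.2 a))
    have h2 : memv (.mk α A b) x ⊓ sᶜ ≤ c := by
      rw [hc]
      refine le_iSup_of_le (⟨.mk α A b, hy⟩ : HN S) (inf_le_inf_left _ (le_iInf fun t => ?_))
      rw [le_himp_iff]
      refine le_compl_iff_disjoint_right.2 (disjoint_iff_inf_le.2 ?_)
      rw [inf_assoc]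
      have h3 : memv t.1 (.mk α A b) ⊓ memv t.1 x ≤ s := by
        rw [memv_mk, iSup_inf_eq, hs]
        refine iSup_mono fun a => ?_
        refine le_inf (inf_le_left.trans inf_le_left) ?_
        refine le_trans ?_ (memv_congr_left t.1 (A a) x)
        exact inf_le_inf_right _ inf_le_right
      exact (inf_le_inf_left _ h3).trans (compl_inf_self s).le
    calc memv (.mk α A b) x = memv (.mk α A b) x ⊓ (s ⊔ sᶜ) := by
          rw [sup_compl_eq_top, inf_top_eq]
      _ = (memv (.mk α A b) x ⊓ s) ⊔ (memv (.mk α A b) x ⊓ sᶜ) := inf_sup_left _ _ _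
      _ ≤ c := sup_le (inf_le_right.trans h1) h2

/-- pairs -/
theorem hs_pr2 (x y : HN S) : HS S (pr2 x.1 y.1) := by
  obtain ⟨E, hE⟩ := x.2.supp
  obtain ⟨E', hE'⟩ := y.2.supp
  obtain ⟨E'', h1, h2⟩ := S.dir E E'
  refine ⟨⟨E'', ?_⟩, ?_⟩
  · apply supp_of_memv
    intro g hg z
    show S.act g (memv z (pr2 x.1 y.1)) = memv (actN S g z) (pr2 x.1 y.1)
    rw [memv_pr2, memv_pr2, act_sup, ← eqv_actN, ← eqv_actN]
    have e1 : ∀ w : BSet B, Congr (fun x => eqv w x) := fun w x y => by
      rw [inf_comm]; exact eqv_trans w x y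
    rw [Congr.eq_of (e1 (actN S g z)) (hE g (h1 hg)), Congr.eq_of (e1 (actN S g z))
      (hE' g (h2 hg))]
  · rintro (_ | _)
    · exact y.2
    · exact x.2

/-- unions -/
theorem exists_unionS (x : HN S) : ∃ u : HN S, ∀ t, memv t u.1 = ⨆ y, memv y x.1 ⊓ memv t y := by
  obtain ⟨⟨α, A, b⟩, hx⟩ := x
  have key : ∀ t, memv t (.mk (Σ a, (A a).ty) (fun s => (A s.1).fn s.2)
      (fun s => b s.1 ⊓ (A s.1).bv s.2)) = ⨆ y, memv y (.mk α A b) ⊓ memv t y := by
    intro t
    rw [(Congr.mem_left t).bex, memv_mk, iSup_sigma]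
    refine iSup_congr fun a => ?_
    simp only
    rw [memv_eq t (A a), inf_iSup_eq]
    exact iSup_congr fun i => inf_assoc _ _ _
  obtain ⟨E, hE⟩ := hx.1
  refine ⟨⟨.mk (Σ a, (A a).ty) (fun s => (A s.1).fn s.2) (fun s => b s.1 ⊓ (A s.1).bv s.2),
    ⟨E, ?_⟩, ?_⟩, key⟩
  · apply supp_of_memv
    intro g hg z
    rw [key, key, act_iSup, ← (actN_surj S g).iSup_comp (g := fun y => memv y (.mk α A b) ⊓
      memv (actN S g z) y)]
    refine iSup_congr fun y => ?_
    rw [act_inf, hE.memv S hg, memv_actN]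
  · rintro ⟨a, i⟩
    have := hx.2 a
    simp only
    revert i
    generalize A a = y at this
    obtain ⟨β, C, c⟩ := y
    exact fun i => this.2 i

/-- power sets -/
theorem exists_powerS (x : HN S) : ∃ p : HN S, ∀ t : HN S,
    memv t.1 p.1 = ⨅ z, memv z t.1 ⇨ memv z x.1 := by
  obtain ⟨⟨α, A, b⟩, hx⟩ := x
  obtain ⟨E, hE⟩ := hx.1
  let X : Type := {f : α → B // HS S (.mk α A f)}
  let nm : X → BSet B := fun f => .mk α A f.1
  let p : BSet B := .mk X nm (fun f => ⨅ z, memv z (nm f) ⇨ memv z (.mk α A b))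
  have hsub : ∀ t : BSet B, Congr (fun t => ⨅ z, memv z t ⇨ memv z (.mk α A b)) := by
    intro _ t t'
    refine le_iInf fun z => ?_
    refine (inf_le_inf_left _ (iInf_le _ z)).trans ?_
    refine himp_congr_le ?_ inf_le_right
    rw [eqv_symm]
    exact memv_congr_right z t' t
  have key : ∀ t : HN S, memv t.1 p = ⨅ z, memv z t.1 ⇨ memv z (.mk α A b) := by
    intro t
    refine le_antisymm ?_ ?_
    · rw [memv_mk]
      refine iSup_le fun f => ?_
      rw [inf_comm, eqv_symm]
      exact hsub t.1 _ _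
    · obtain ⟨y, hy⟩ := exists_sepS S (fun z => memv z t.1) (Congr.mem_right t.1) (by
        obtain ⟨E', hE'⟩ := t.2.supp
        exact ⟨E', fun g hg z => hE'.memv S hg z⟩) ⟨.mk α A b, hx⟩
      -- the separation name has the required shape
      have h1 : HS S (.mk α A fun a => b a ⊓ memv (A a) t.1) := by
        refine ⟨?_, hx.2⟩
        obtain ⟨E', hE'⟩ := t.2.supp
        obtain ⟨E'', h1, h2⟩ := S.dir E E'
        refine ⟨E'', ?_⟩
        apply supp_of_memv
        have e : ∀ z, memv z (.mk α A fun a => b a ⊓ memv (A a) t.1) =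
            memv z (.mk α A b) ⊓ memv z t.1 := by
          intro z
          rw [memv_mk, memv_mk, iSup_inf_eq]
          refine iSup_congr fun a => le_antisymm ?_ ?_
          · refine le_inf (le_inf (inf_le_left.trans inf_le_left) inf_le_right) ?_
            refine le_trans ?_ (memv_congr_left (A a) z t.1)
            rw [eqv_symm (A a) z]
            exact le_inf inf_le_right (inf_le_left.trans inf_le_right)
          · refine le_inf (le_inf (inf_le_left.trans inf_le_left) ?_)
              (inf_le_left.trans inf_le_right)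
            refine le_trans ?_ (memv_congr_left z (A a) t.1)
            exact inf_le_inf_right _ inf_le_right
        intro g hg z
        rw [e, e, act_inf, hE.memv S (h1 hg), hE'.memv S (h2 hg)]
      rw [memv_mk]
      refine le_iSup_of_le (⟨fun a => b a ⊓ memv (A a) t.1, h1⟩ : X) ?_
      have h2 : (⨅ z, memv z t.1 ⇨ memv z (.mk α A b)) ≤
          eqv t.1 (.mk α A fun a => b a ⊓ memv (A a) t.1) := by
        refine le_trans (le_iInf fun z => le_inf ?_ ?_) (ext_le _ _)
        · rw [le_himp_iff]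
          have h1 : (⨅ z, memv z t.1 ⇨ memv z (.mk α A b)) ⊓ memv z t.1 ≤
              memv z (.mk α A b) := (inf_le_inf_right _ (iInf_le _ z)).trans himp_inf_le
          refine sup_elim (h1.trans (memv_mk z A b).le) fun a => ?_
          rw [memv_mk]
          refine le_iSup_of_le a (le_inf (le_inf (inf_le_right.trans inf_le_left) ?_)
            (inf_le_right.trans inf_le_right))
          refine le_trans ?_ (memv_congr_left z (A a) t.1)
          exact le_inf (inf_le_right.trans inf_le_right) (inf_le_left.trans inf_le_right)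
        · rw [le_himp_iff]
          refine sup_elim (inf_le_right.trans (memv_mk z A _).le) fun a => ?_
          refine le_trans ?_ (memv_congr_left (A a) z t.1)
          rw [eqv_symm (A a) z]
          exact le_inf (inf_le_right.trans inf_le_right)
            (inf_le_right.trans (inf_le_left.trans inf_le_right))
      refine le_inf ?_ h2
      exact le_trans (le_inf h2 le_rfl) (hsub t.1 t.1 _)
  refine ⟨⟨p, ⟨E, ?_⟩, fun f => f.2⟩, key⟩
  apply supp_of_memvS S (show MH S p from fun f => f.2)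
  intro g hg z
  rw [key z]
  have h2 := key (HN.act S g z)
  simp only [HN.act] at h2
  rw [h2, act_iInf, ← (actN_surj S g).iInf_comp (g := fun w => memv w (actN S g z.1) ⇨
    memv w (.mk α A b))]
  refine iInf_congr fun w => ?_
  rw [act_himp, hE.memv S hg, memv_actN]

/-- unchanged names -/
theorem actN_chk {X : Type} (g : S.G) (nm : X → BSet B) :
    actN S g (chk nm) = chk fun x => actN S g (nm x) := by
  rw [chk, actN_mk, chk]
  congr 1
  funext x
  exact act_top S g

theorem actN_on {X : Type} [LinearOrder X] [WellFoundedLT X] (g : S.G) (x : X) :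
    actN S g (on x) = on x := by
  induction x using WellFoundedLT.induction with
  | _ x ih =>
    rw [on_def x, actN_chk]
    congr 1
    funext y
    exact ih y.1 y.2

theorem actN_onT {X : Type} [LinearOrder X] [WellFoundedLT X] (g : S.G) :
    actN S g (onT X) = onT X := by
  rw [onT, actN_chk]
  congr 1
  funext y
  exact actN_on S g y

theorem hs_on {X : Type} [LinearOrder X] [WellFoundedLT X] (x : X) : HS S (on x) := by
  induction x using WellFoundedLT.induction with
  | _ x ih =>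
    have h1 : Supp S S.ne.some (on x) := fun g _ => by rw [actN_on]; exact eqv_refl _
    rw [on_def x] at h1 ⊢
    exact ⟨⟨_, h1⟩, fun y => ih y.1 y.2⟩

theorem hs_onT {X : Type} [LinearOrder X] [WellFoundedLT X] : HS S (onT X) := by
  have h1 : Supp S S.ne.some (onT X) := fun g _ => by rw [actN_onT]; exact eqv_refl _
  exact ⟨⟨_, h1⟩, fun y => hs_on S y⟩

/-- the name of an ordinal -/
noncomputable def onS {X : Type} [LinearOrder X] [WellFoundedLT X] (x : X) : HN S :=
  ⟨on x, hs_on S x⟩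

/-- the name of a well-order -/
noncomputable def onTS (X : Type) [LinearOrder X] [WellFoundedLT X] : HN S := ⟨onT X, hs_onT S⟩

/-- collection -/
theorem exists_collS (Q : BSet B → BSet B → B) (hQ : ∀ z, Congr (fun x => Q x z)) (x : HN S) :
    ∃ y : HN S, ∀ a : HN S, memv a.1 x.1 ⊓ (⨆ z : HN S, Q a.1 z.1) ≤
      ⨆ z : HN S, memv z.1 y.1 ⊓ Q a.1 z.1 := by
  classical
  obtain ⟨⟨α, A, b⟩, hx⟩ := x
  -- small joins
  have hw : ∀ a, ∃ w : B → HN S, (⨆ z : HN S, Q (A a) z.1) ≤ ⨆ c, Q (A a) (w c).1 := by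
    intro a
    refine ⟨fun c => if h : ∃ z : HN S, Q (A a) z.1 = c then h.choose else onTS S ℕ,
      iSup_le fun z => le_iSup_of_le (Q (A a) z.1) ?_⟩
    have h : ∃ z' : HN S, Q (A a) z'.1 = Q (A a) z.1 := ⟨z, rfl⟩
    simp only [dif_pos h]
    exact h.choose_spec.ge
  choose w hw using hw
  let y : BSet B := chk fun s : (α × B) × S.G => actN S s.2 (w s.1.1 s.1.2).1
  have hy : HS S y := by
    refine ⟨⟨S.ne.some, ?_⟩, fun s => (w s.1.1 s.1.2).2.actN S s.2⟩
    apply supp_of_memv
    intro g _ z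
    show S.act g (memv z y) = memv (actN S g z) y
    simp only [y]
    rw [memv_chk, memv_chk, act_iSup]
    refine le_antisymm (iSup_le fun s => ?_) (iSup_le fun s => ?_)
    · refine le_iSup_of_le (s.1, g * s.2) ?_
      rw [actN_mul, eqv_actN]
    · refine le_iSup_of_le (s.1, g⁻¹ * s.2) ?_
      rw [← eqv_actN, ← actN_mul, ← mul_assoc, mul_inv_cancel, one_mul]
  refine ⟨⟨y, hy⟩, fun a => ?_⟩
  rw [memv_mk, iSup_inf_eq]
  refine iSup_le fun i => ?_
  have hQs : Congr (fun x => ⨆ z : HN S, Q x z.1) := Congr.iSup fun z => hQ z.1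
  have h1 : b i ⊓ eqv a.1 (A i) ⊓ (⨆ z : HN S, Q a.1 z.1) ≤ ⨆ c, Q (A i) (w i c).1 := by
    refine le_trans (le_trans ?_ (hQs a.1 (A i))) (hw i)
    exact inf_le_inf_right _ inf_le_right
  refine sup_elim h1 fun c => ?_
  refine le_iSup_of_le (w i c) (le_inf ?_ ?_)
  · refine le_top.trans ?_
    simp only [y]
    rw [memv_chk, top_le_iff, eq_top_iff]
    refine le_iSup_of_le ((i, c), 1) ?_
    rw [actN_one, eqv_refl]
  · refine le_trans ?_ (hQ (w i c).1 (A i) a.1)
    rw [eqv_symm (A i) a.1]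
    exact inf_le_inf_right _ (inf_le_left.trans inf_le_right)

end

end Pool.Agent.Sym
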